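import Pool.Agent.NBM.Defs

set_option autoImplicit false

/-!
# NBM: targets (MP_4e5e8a_nt, moment dictionary)

THEOREM. For every integer `k ≥ 1` and `1 ≤ θ ≤ k`: `∫_0^T |ζ(1/2+it)|^(2k) dt ≪ T^(θ+ε)` for all
`ε > 0` iff `tr(G_N ^ k) ≪ N^(θ+ε)` for all `ε > 0`.

One job = one target `T_X`, proved as `theorem p_X (hypotheses = other targets) : T_X` in the NEW
file `Pool/Agent/NBM/P_X.lean` (import this file), helper lemmas in the namespace `X_`.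
-/

open MeasureTheory Set
open scoped InnerProductSpace

namespace Pool.Agent.NBM

open Pool.Agent.NBL

/-! ## A. Linear algebra and Plancherel -/

/-- SPE. Diagonalisation. PROOF. As `NBL.spectral` (file `NBL/Spec.lean`), with
`Pool.Agent.NBL.adm_g`; the complex Gram matrix `Matrix.of fun i j => ∫ conj (g i) g j` is the image
of the real matrix `G N` under `Complex.ofReal` (the functions are real), so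
`tr (G N ^ k) = ∑ lam i ^ k` from `Matrix.IsHermitian` (`A = U diag U*`,
`Matrix.IsHermitian.spectral_theorem`; or `LinearMap.trace` in the eigenvector basis
`hT.eigenvectorBasis`: `T ^ k v_i = lam_i ^ k v_i`). `lam i = Qf N (v i) ≥ 0`. The last formula:
the quadratic form, `NBL.quad_int`. -/
def T_SPE : Prop := ∀ N : ℕ, ∃ (v : OrthonormalBasis (Fin N) ℂ (EuclideanSpace ℂ (Fin N)))
  (lam : Fin N → ℝ), (∀ i, 0 ≤ lam i) ∧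
  (∀ a : EuclideanSpace ℂ (Fin N), Qf N a = ∑ i, lam i * ‖⟪v i, a⟫_ℂ‖ ^ 2) ∧
  ∀ k : ℕ, ((G N) ^ k).trace = ∑ i, lam i ^ k

/-- PLN. Mellin-Plancherel. PROOF. `Qf N a` is the integral of `‖Hs (xs N a) (Icc 1 N) t‖ ^ 2`
(`NBL.xs_sum`, see the end of the proof of `NBL.almost_all_full`); `NBL.plancherel`, `NBL.adm_Hs`,
`NBL.mellin_Hs`; the integral is the `lintegral` (`Adm.memLp`, `integral_eq_lintegral...`). The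
second part: `NBL.Fs_sq`, `NBL.adm_Fs`, `NBL.mellin_Fs` and `n ^ 2 (1/n - 1/(n+1)) ≤ 1`. -/
def T_PLN : Prop := ∀ (N : ℕ) (a : Fin N → ℂ),
  ENNReal.ofReal (Qf N a) = ENNReal.ofReal (1 / (2 * Real.pi)) *
    ∫⁻ t : ℝ, ENNReal.ofReal (Z t ^ 2) * ‖tr N a t‖ₑ ^ 2 ∧
  ∫⁻ t : ℝ, ‖tr N a t‖ₑ ^ 2 ≤ ENNReal.ofReal (2 * Real.pi * ∑ i, ‖a i‖ ^ 2)

/-! ## B. Moments bound the traces -/

/-- UBW. Weighted Plancherel. PROOF. On `|t| ≤ 2N` the weight is `≤ 2`, use PLN (2). On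
`2^j R ≤ |t| ≤ 2^(j+1) R`, `R = 2N ≥ N + 1`: the mass is
`≤ 16 Kmv (∑ ‖xs N a n‖ ^ 2 / n) / (2^j R) ≤ 8 Kmv 2^(-j)` (`NBL.high_full` with `2^j R`,
`NBL.xs_sum`: `∑ n ‖a_n‖² ≤ N ∑ ‖a_n‖²`), the weight is `≤ 2^((j+2) β)`, and `β < 1`. (As in the
proof of `NBL.high_full`: cover by the dyadic sets, `measure_iUnion`-type bound,
`lintegral_iUnion_le`, geometric series.) -/
def T_UBW : Prop := ∀ β : ℝ, 0 ≤ β → β < 1 → ∃ C : ℝ, 0 < C ∧ ∀ (N : ℕ), 1 ≤ N →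
  ∀ a : Fin N → ℂ, ∫⁻ t : ℝ, ENNReal.ofReal (om N β t) * ‖tr N a t‖ₑ ^ 2 ≤
    ENNReal.ofReal (C * ∑ i, ‖a i‖ ^ 2)

/-- UBH. The first Berezin-Lieb inequality. PROOF. `v, lam` from SPE. For an eigenvector `v i` let
`ν = (om N β t ‖tr N (v i) t‖²) dt`, of total mass `≤ C` (UBW). `lam i = Qf N (v i) = (2π)⁻¹
∫ (Z² / om) dν` (PLN; `Qf` at `v i` by SPE and orthonormality), so by Hoelder
(`ENNReal.lintegral_mul_le_Lp_mul_Lq` with exponents `k`, `k/(k-1)`, or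
`MeasureTheory.eLpNorm_le_eLpNorm_mul_rpow_measure_univ`, for `k ≥ 2`; `k = 1` is trivial)
`lam i ^ k ≤ (2π)^(-k) C^(k-1) ∫ (Z²/om)^k dν = C' ∫ Z^(2k) om^(1-k) ‖tr N (v i) t‖² dt`. Sum over
`i`: `∑ i, ‖tr N (v i) t‖² ≤ kr N t` (`NBL.bessel_kr`). -/
def T_UBH : Prop := ∀ (k : ℕ) (β : ℝ), 1 ≤ k → 0 ≤ β → β < 1 → ∃ C : ℝ, 0 < C ∧
  ∀ N : ℕ, 1 ≤ N → ENNReal.ofReal (((G N) ^ k).trace) ≤ ENNReal.ofReal C *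
    ∫⁻ t : ℝ, ENNReal.ofReal (Z t ^ (2 * k) * kr N t * om N β t ^ (-((k : ℝ) - 1)))

/-- KRB. The diagonal kernel. PROOF. `NBL.un_b1`: `kr ≤ ∑ n² / n³ = ∑ 1/n ≤ 1 + log N`;
`NBL.un_b2`: `kr ≤ ∑ n² (4/n) / t² = 4 (∑ n) / t² ≤ 4 N² / t²`. -/
def T_KRB : Prop := ∀ N : ℕ, 1 ≤ N → ∀ t : ℝ, kr N t ≤ 1 + Real.log N ∧
  (t ≠ 0 → kr N t ≤ 4 * (N : ℝ) ^ 2 / t ^ 2)

/-- UBF. Moments bound traces. PROOF. UBH with `β = 1 - 1/(2k)`; let `ε ≤ 1/4` (a larger `ε` is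
weaker), `C₀` from `Mom k θ` for `ε/2`. `Z (-t) = Z t` (`riemannZeta_conj` in
`Pool.Agent.Lib`, used in `Lib/ZetaConv.lean`). `|t| ≤ N`: `kr ≤ 1 + log N`, `om = 1`:
contribution `≤ 2 (1 + log N) C₀ N^(θ + ε/2) ≤ C N^(θ+ε)`. `2^j N ≤ |t| ≤ 2^(j+1) N`:
`kr ≤ 4 · 4^(-j)`, `om^(1-k) ≤ 2^(-j β (k-1))`: contribution `≤ 8 C₀ (2^(j+1) N)^(θ + ε/2)
2^(-j (2 + β (k-1)))`, and `2 + β (k-1) ≥ k + 1/2 > θ + ε`: geometric series. -/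
def T_UBF : Prop := ∀ (k : ℕ) (θ : ℝ), 1 ≤ k → 1 ≤ θ → θ ≤ k → Mom k θ → Tr k θ

/-! ## C. Traces bound the moments of the local mean square -/

/-- LBJ. Jensen for the spectral measure. PROOF. With `c i = ‖⟪v i, e⟫‖²`, `S = ∑ c i = ‖e‖²`
(`OrthonormalBasis.sum_sq_norm_inner_right`): `(∑ lam i (c i / S)) ^ k ≤ ∑ lam i ^ k (c i / S)`
(`Real.pow_arith_mean_le_arith_mean_pow`, or `Finset.inner_le...`); multiply by `S ^ k`. The case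
`S = 0` (`k ≥ 1`) is trivial. -/
def T_LBJ : Prop := ∀ (N k : ℕ) (v : OrthonormalBasis (Fin N) ℂ (EuclideanSpace ℂ (Fin N)))
  (lam : Fin N → ℝ) (e : EuclideanSpace ℂ (Fin N)), 1 ≤ k → (∀ i, 0 ≤ lam i) →
  (∑ i, lam i * ‖⟪v i, e⟫_ℂ‖ ^ 2) ^ k ≤
    (‖e‖ ^ 2) ^ (k - 1) * ∑ i, lam i ^ k * ‖⟪v i, e⟫_ℂ‖ ^ 2

/-- LBM. The test vectors. PROOF. `⟪a, et N t⟫` is the conjugate of
`∑_{n = N}^{2N} a_n n ^ (-(1/2 + i t))`, so the first part is `NBL.mean_value` with `T = N`, which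
gives `Kmv ∑ ‖a_n‖²`. Second part: `‖et N t‖² = ∑_{n=N}^{2N} 1/n ≤ (N + 1)/N ≤ 2`. -/
def T_LBM : Prop := ∀ (N : ℕ), 1 ≤ N → (∀ a : EuclideanSpace ℂ (Fin (2 * N)),
  ∫⁻ t in Icc (-(N : ℝ)) N, ‖⟪a, et N t⟫_ℂ‖ₑ ^ 2 ≤ ENNReal.ofReal (Kmv * ‖a‖ ^ 2)) ∧
  ∀ t : ℝ, ‖et N t‖ ^ 2 ≤ 2

/-- LBK. The transform of a test vector near its frequency. PROOF. With `s = 1/2 + iu`,
`un n s / s = ∫_n^(n+1) x^(-s-1) dx` (as in the proof of `NBL.un_b1`), so the quantity is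
`∑_{n=N}^{2N} ∫_n^(n+1) (n/x)^(1/2+it) x^(-1 + i(t-u)) dx`, and
`|(n/x)^(1/2+it) - 1| ≤ |1/2 + it| log(x/n) ≤ (1/2 + |t|)/N ≤ 1/10`. The main term
`∫_N^(2N+1) x^(-1+iδ) dx`, `|δ| ≤ 1/10`: the real part of `N^(-iδ)` times it is
`∫ cos(δ log(x/N)) dx/x ≥ (log 2) cos(1/5) ≥ 1/2` (the integrand is positive for
`x ≤ 2N + 1 ≤ 3N`, `log 3 ≤ 2`), the error is at most `(1/10) log 3 ≤ 1/5`. -/
def T_LBK : Prop := ∀ (N : ℕ) (t u : ℝ), 20 ≤ N → |t| ≤ (N : ℝ) / 20 → |u - t| ≤ 1 / 10 →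
  (1 / 4 : ℝ) ≤ ‖tr (2 * N) (fun i => et N t i) u‖

/-- LBT. The second Berezin-Lieb inequality. PROOF. By PLN (1) and LBK,
`Qf (2N) (et N t) ≥ (2π)⁻¹ (1/16) w t` for `|t| ≤ N/20`. SPE for `2N`, LBJ with `e = et N t`:
`(w t / 200)^k ≤ Qf^k ≤ 2^(k-1) ∑ lam i ^ k ‖⟪v i, et N t⟫‖²`. Integrate over `|t| ≤ N/20`, LBM:
`≤ 2^(k-1) Kmv ∑ lam i ^ k = 2^(k-1) Kmv tr(G^k)`. -/
def T_LBT : Prop := ∀ k : ℕ, 1 ≤ k → ∃ C : ℝ, 0 < C ∧ ∀ N : ℕ, 20 ≤ N →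
  ∫ t in Icc (-(N : ℝ) / 20) (N / 20), w t ^ k ≤ C * ((G (2 * N)) ^ k).trace

/-! ## D. The local mean square and the size of zeta -/

/-- PRP. To the right of the line. PROOF. `f z = NBL.fz (z + i u)` (`NBL/Rare.lean`: holomorphic
for `0 ≤ Re z`, `NBL.fz_bound`, `‖fz z‖ = ‖ζ(1/2+z)‖ ‖(-1/2+z)/(3/2+z)‖` by `NBL.fz_norm`,
`‖fz (it)‖ ≤ Z t` by `NBL.fz_line`). `NBL.jen` (`NBL/Half.lean`) with `L = 1`, `M₀ = C (3 u)`,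
`P₀ = 1`, `K = 2 log M₀` (so that `κ = 2 L/(π (K - L)) ≤ 1/log M₀`): with `x = 1/log T`
`‖f x‖ ≤ e M₀^(1-m) exp((1/π) ∫_{-1}^1 log(max ‖f(it)‖ 1) P(x+x₀,0,t) dt)`,
`m = (1/π) ∫_{-1}^1 P(x+x₀, 0, t) dt ≥ 1 - x + x₀ ...` (`1 - m ≤ 4 (x + x₀)`, take `a = x`), so
`M₀^(1-m) = O(1)`; then `NBL.jensen_w` with `w t = (max ‖f(it)‖ 1)²`, `w₀ = 1`, and
`P(x+x₀,0,t) ≤ 1/x`. -/
def T_PRP : Prop := ∃ C T₀ : ℝ, 1 ≤ C ∧ 20 ≤ T₀ ∧ ∀ T : ℝ, T₀ ≤ T → ∀ u : ℝ, |u - T| ≤ T / 2 →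
  ‖riemannZeta ((1 / 2 + 1 / Real.log T : ℝ) + u * Complex.I)‖ ^ 2 ≤
    C * (1 + Real.log T * ∫ v in Icc (u - 1) (u + 1), Z v ^ 2)

/-- PMX. The point on the line. PROOF. `Lib.ZetaConv.gauss_max` with `κ = 0`, `σ = 1/2`,
`a = 1/2 - 1/log T`, `b = 1/2 + 1/log T`, `Y = log T`. On `Re s = b`: PRP (the integral is over a
subset of the window as `|u - T| ≤ log T`). On `Re s = a`: `Lib.ZetaConv.zeta_left`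
(`‖ζ(1/2-x+iu)‖ ≤ 3 u^x ‖ζ(1/2+x+iu)‖`, `u^(1/log T) ≤ (2T)^(1/log T) ≤ 2e`). On `|Im s - T| = Y`:
`‖ζ‖ exp(-log² T) ≤ 1` for large `T` (`Lib.ZetaLine.boundOn_crude`, and for `Re s < 1/2` again
`zeta_left`). -/
def T_PMX : Prop := ∃ C T₀ : ℝ, 1 ≤ C ∧ 20 ≤ T₀ ∧ ∀ T : ℝ, T₀ ≤ T →
  Z T ^ 2 ≤ C * Real.log T *
    (1 + ∫ v in Icc (T - 2 * Real.log T) (T + 2 * Real.log T), Z v ^ 2)

/-- TRI. The trivial bound. PROOF. `∫_0^T Z² ≤ C T^(1+ε)` (`NBL.mean_sq_int`, `NBL.mean_sq`) and, by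
PMX, `Z t ^ 2 ≤ C log t (1 + ∫_0^(2t) Z²) ≤ C t^(1+2ε)` for `t ≥ T₀` (and `O(1)` for `t ≤ T₀`), so
`∫_0^T Z^(2k) ≤ (C T^(1+2ε))^(k-1) ∫_0^T Z² ≤ C T^(k + 2kε)`. -/
def T_TRI : Prop := ∀ k : ℕ, 1 ≤ k → Mom k k

/-- WSM. Moments and the local mean square. PROOF. For `T₀ ≤ t ≤ T` and `V = 2 log T + 1`, by PMX
`Z t ^ 2 ≤ C log T (1 + ∫_{|v| ≤ V - 1} Z(t+v)² dv)` and
`∫_{|v| ≤ V-1} Z(t+v)² dv ≤ 5 ∫_{|s| ≤ V} w(t+s) ds` (Fubini: `w(t+s) = ∫_{|r| ≤ 1/10} Z(t+s+r)²`).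
So (Jensen for the measure `ds` on `|s| ≤ V`, or `(1 + x)^k ≤ 2^k (1 + x^k)` and Hoelder)
`Z t^(2k) ≤ C' (log T)^k (1 + V^(k-1) ∫_{|s| ≤ V} w(t+s)^k ds)`; integrate over `t ∈ [T₀, T]` and
exchange: `≤ C' (log T)^k (T + (2V)^k ∫_{|t| ≤ T+V} w^k)`. The part `t ≤ T₀` is `O(1)`. -/
def T_WSM : Prop := ∀ k : ℕ, 1 ≤ k → ∃ C T₀ : ℝ, 1 ≤ C ∧ 20 ≤ T₀ ∧ ∀ T : ℝ, T₀ ≤ T →
  ∫ t in (0 : ℝ)..T, Z t ^ (2 * k) ≤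
    C * Real.log T ^ (2 * k) * (T + ∫ t in Icc (-(2 * T)) (2 * T), w t ^ k)

/-- LBF. Traces bound moments. PROOF. `Tr k θ` for `ε/2`; `T ≥ T₀`, `N = ⌈40 T⌉`: by WSM and LBT
`∫_0^T Z^(2k) ≤ C (log T)^(2k) (T + C' (2N)^(θ+ε/2)) ≤ C'' T^(θ+ε)`. For `1 ≤ T ≤ T₀` the integral
is at most the one at `T₀`. -/
def T_LBF : Prop := ∀ (k : ℕ) (θ : ℝ), 1 ≤ k → 1 ≤ θ → Tr k θ → Mom k θ

end Pool.Agent.NBM
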