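import Mathlib
import Pool.Agent.NBM.Targets

/-!
# The moment dictionary: the final statement from the targets
-/

set_option autoImplicit false

open MeasureTheory Set

namespace Pool.Agent.NBM

open Pool.Agent.NBL

lemma Mom.mono {k : ℕ} {θ θ' : ℝ} (h : Mom k θ) (hθ : θ ≤ θ') : Mom k θ' := by
  intro ε hε
  obtain ⟨C, hC⟩ := h ε hε
  refine ⟨|C|, fun T hT => (hC T hT).trans ?_⟩
  have h1 : (0 : ℝ) < T := by linarith
  calc C * T ^ (θ + ε) ≤ |C| * T ^ (θ + ε) :=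
        mul_le_mul_of_nonneg_right (le_abs_self C) (by positivity)
    _ ≤ |C| * T ^ (θ' + ε) :=
        mul_le_mul_of_nonneg_left (Real.rpow_le_rpow_of_exponent_le hT (by linarith))
          (abs_nonneg C)

lemma Tr.mono {k : ℕ} {θ θ' : ℝ} (h : Tr k θ) (hθ : θ ≤ θ') : Tr k θ' := by
  intro ε hε
  obtain ⟨C, hC⟩ := h ε hε
  refine ⟨|C|, fun N hN => (hC N hN).trans ?_⟩
  have h1 : (1 : ℝ) ≤ N := by exact_mod_cast hN
  calc C * (N : ℝ) ^ (θ + ε) ≤ |C| * (N : ℝ) ^ (θ + ε) :=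
        mul_le_mul_of_nonneg_right (le_abs_self C) (by positivity)
    _ ≤ |C| * (N : ℝ) ^ (θ' + ε) :=
        mul_le_mul_of_nonneg_left (Real.rpow_le_rpow_of_exponent_le h1 (by linarith))
          (abs_nonneg C)

/-- moments and traces, all exponents -/
theorem dict (hUBF : T_UBF) (hLBF : T_LBF) (hTRI : T_TRI) {k : ℕ} (hk : 1 ≤ k) {θ : ℝ}
    (hθ : 1 ≤ θ) : Mom k θ ↔ Tr k θ := by
  refine ⟨fun h => ?_, fun h => hLBF k θ hk hθ h⟩
  rcases le_total θ k with h1 | h1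
  · exact hUBF k θ hk hθ h1 h
  · have hk' : (1 : ℝ) ≤ k := by exact_mod_cast hk
    exact (hUBF k k hk hk' le_rfl (hTRI k hk)).mono h1

/-- the Lindelöf hypothesis and the traces of all powers -/
theorem dict_lh (hUBF : T_UBF) (hLBF : T_LBF) (hTRI : T_TRI)
    (hLHK : (∀ k : ℕ, 1 ≤ k → Mom k 1) ↔ Mu 0) : Mu 0 ↔ ∀ k : ℕ, 1 ≤ k → Tr k 1 := by
  rw [← hLHK]
  exact forall_congr' fun k => forall_congr' fun hk => dict hUBF hLBF hTRI hk le_rfl

end Pool.Agent.NBM
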