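import Pool.Agent.NBM.Targets

set_option autoImplicit false

/-!
# NBM: the kernel on the diagonal
-/

open MeasureTheory Complex Set Filter Topology

namespace Pool.Agent.NBM

open Pool.Agent.NBL

namespace KRB_

theorem harm (N : ℕ) (hN : 1 ≤ N) : ∑ n ∈ Finset.Icc 1 N, (1 : ℝ) / n ≤ 1 + Real.log N := by
  have h1 := harmonic_le_one_add_log N
  rw [harmonic_eq_sum_Icc] at h1
  push_cast at h1
  simpa [one_div] using h1

theorem gauss (N : ℕ) (hN : 1 ≤ N) : ∑ n ∈ Finset.Icc 1 N, (n : ℝ) ≤ (N : ℝ) ^ 2 := by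
  calc ∑ n ∈ Finset.Icc 1 N, (n : ℝ) ≤ ∑ n ∈ Finset.Icc 1 N, (N : ℝ) := by
        refine Finset.sum_le_sum fun n hn => ?_
        exact_mod_cast (Finset.mem_Icc.1 hn).2
    _ = (N : ℝ) ^ 2 := by
        rw [Finset.sum_const, Nat.card_Icc, nsmul_eq_mul]
        have : N + 1 - 1 = N := by omega
        rw [this]
        ring

end KRB_

open KRB_ in
theorem p_KRB : T_KRB := by
  intro N hN t
  constructor
  · refine le_trans ?_ (harm N hN)
    unfold kr
    refine Finset.sum_le_sum fun n hn => ?_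
    have hn0 : 0 < n := pos_of_mem hn
    have hn1 : (0 : ℝ) < n := by exact_mod_cast hn0
    calc (n : ℝ) ^ 2 * ‖un n (1 / 2 + t * I) / (1 / 2 + t * I)‖ ^ 2
        ≤ (n : ℝ) ^ 2 * (1 / (n : ℝ) ^ 3) :=
          mul_le_mul_of_nonneg_left (un_b1 hn0 t) (by positivity)
      _ = 1 / n := by field_simp
  · intro ht
    have ht2 : 0 < t ^ 2 := by positivity
    calc kr N t ≤ ∑ n ∈ Finset.Icc 1 N, 4 * (1 / t ^ 2) * (n : ℝ) := by
          unfold kr
          refine Finset.sum_le_sum fun n hn => ?_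
          have hn0 : 0 < n := pos_of_mem hn
          have hn1 : (0 : ℝ) < n := by exact_mod_cast hn0
          calc (n : ℝ) ^ 2 * ‖un n (1 / 2 + t * I) / (1 / 2 + t * I)‖ ^ 2
              ≤ (n : ℝ) ^ 2 * (4 / n * (1 / t ^ 2)) :=
                mul_le_mul_of_nonneg_left (un_b2 hn0 ht) (by positivity)
            _ = 4 * (1 / t ^ 2) * (n : ℝ) := by field_simp
      _ = 4 * (1 / t ^ 2) * ∑ n ∈ Finset.Icc 1 N, (n : ℝ) := by rw [Finset.mul_sum]
      _ ≤ 4 * (1 / t ^ 2) * (N : ℝ) ^ 2 :=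
          mul_le_mul_of_nonneg_left (gauss N hN) (by positivity)
      _ = 4 * (N : ℝ) ^ 2 / t ^ 2 := by ring

end Pool.Agent.NBM
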