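import Pool.Agent.NBM.Targets

set_option autoImplicit false

open MeasureTheory Set
open scoped InnerProductSpace

namespace Pool.Agent.NBM

open Pool.Agent.NBL

namespace LBF_

theorem Z_cont : Continuous Z := by
  unfold Z
  refine Continuous.norm ?_
  refine continuous_iff_continuousAt.2 fun t => ?_
  have h1 : (1 / 2 + (t : ℂ) * Complex.I : ℂ) ≠ 1 := by
    intro h
    have := congrArg Complex.re h
    simp at this
  have h2 : ContinuousAt riemannZeta (1 / 2 + (t : ℂ) * Complex.I) :=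
    (differentiableAt_riemannZeta h1).continuousAt
  have h3 : ContinuousAt (fun t : ℝ => (1 / 2 + (t : ℂ) * Complex.I : ℂ)) t := by fun_prop
  exact ContinuousAt.comp (f := fun t : ℝ => (1 / 2 + (t : ℂ) * Complex.I : ℂ)) h2 h3

theorem w_eq (t : ℝ) : w t = (∫ u in (0 : ℝ)..(t + 1 / 10), Z u ^ 2) -
    ∫ u in (0 : ℝ)..(t - 1 / 10), Z u ^ 2 := by
  have hc : Continuous fun u => Z u ^ 2 := Z_cont.pow 2
  unfold w
  rw [integral_Icc_eq_integral_Ioc,
    ← intervalIntegral.integral_of_le (by linarith : t - 1 / 10 ≤ t + 1 / 10)]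
  rw [intervalIntegral.integral_interval_sub_left (hc.intervalIntegrable _ _)
    (hc.intervalIntegrable _ _)]

theorem w_cont : Continuous w := by
  have hc : Continuous fun u => Z u ^ 2 := Z_cont.pow 2
  have hF : Continuous fun x : ℝ => ∫ u in (0 : ℝ)..x, Z u ^ 2 :=
    intervalIntegral.continuous_primitive (fun a b => hc.intervalIntegrable a b) 0
  have : w = fun t => (∫ u in (0 : ℝ)..(t + 1 / 10), Z u ^ 2) -
    ∫ u in (0 : ℝ)..(t - 1 / 10), Z u ^ 2 := funext w_eq
  rw [this]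
  exact (hF.comp (by fun_prop : Continuous fun t : ℝ => t + 1 / 10)).sub
    (hF.comp (by fun_prop : Continuous fun t : ℝ => t - 1 / 10))

theorem w_nonneg (t : ℝ) : 0 ≤ w t := by
  unfold w
  exact setIntegral_nonneg measurableSet_Icc fun u _ => sq_nonneg _

theorem log_pow_le (k : ℕ) (hk : 1 ≤ k) (ε : ℝ) (hε : 0 < ε) : ∃ C : ℝ, 0 < C ∧ ∀ T : ℝ,
    1 ≤ T → Real.log T ^ (2 * k) ≤ C * T ^ (ε / 2) := by
  have hk' : (0 : ℝ) < k := by exact_mod_cast hk
  refine ⟨(1 / (ε / (4 * k))) ^ (2 * k), by positivity, fun T hT => ?_⟩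
  have hδ : 0 < ε / (4 * k) := by positivity
  have h1 := Real.log_le_rpow_div (by linarith : (0 : ℝ) ≤ T) hδ
  have h2 : Real.log T ^ (2 * k) ≤ (T ^ (ε / (4 * k)) / (ε / (4 * k))) ^ (2 * k) :=
    pow_le_pow_left₀ (Real.log_nonneg hT) h1 _
  refine h2.trans (le_of_eq ?_)
  have h3 : (T ^ (ε / (4 * k))) ^ (2 * k) = T ^ (ε / 2) := by
    rw [← Real.rpow_natCast, ← Real.rpow_mul (by linarith)]
    congr 1
    push_cast
    field_simp
    ring
  rw [div_eq_mul_one_div, mul_pow, h3]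
  ring

end LBF_

theorem p_LBF (hWSM : T_WSM) (hLBT : T_LBT) : T_LBF := by
  intro k θ hk hθ hTr ε hε
  obtain ⟨C1, T₀, hC1, hT₀, h1⟩ := hWSM k hk
  obtain ⟨C2, hC2, h2⟩ := hLBT k hk
  obtain ⟨C3', h3'⟩ := hTr (ε / 2) (by linarith)
  obtain ⟨C4, hC4, h4⟩ := LBF_.log_pow_le k hk ε hε
  set C3 : ℝ := max C3' 0 with hC3
  have hC30 : 0 ≤ C3 := le_max_right _ _
  have h3 : ∀ N : ℕ, 1 ≤ N → ((G N) ^ k).trace ≤ C3 * (N : ℝ) ^ (θ + ε / 2) := fun N hN =>
    (h3' N hN).trans (mul_le_mul_of_nonneg_right (le_max_left _ _) (by positivity))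
  set I0 : ℝ := ∫ t in (0 : ℝ)..T₀, Z t ^ (2 * k) with hI0
  have hnn : ∀ t, 0 ≤ Z t ^ (2 * k) := fun t => pow_nonneg (norm_nonneg _) _
  have hI0' : 0 ≤ I0 :=
    intervalIntegral.integral_nonneg (by linarith) fun t _ => hnn t
  set B : ℝ := C1 * C4 * (1 + C2 * C3 * 82 ^ (θ + ε / 2)) with hB
  have hB0 : 0 ≤ B := by positivity
  refine ⟨I0 + B, fun T hT => ?_⟩
  have hTp : (0 : ℝ) < T := by linarith
  have hone : 1 ≤ T ^ (θ + ε) := Real.one_le_rpow hT (by linarith)
  rcases le_total T T₀ with hTT | hTT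
  · have hle : ∫ t in (0 : ℝ)..T, Z t ^ (2 * k) ≤ I0 := by
      refine intervalIntegral.integral_mono_interval le_rfl hTp.le hTT
        (Filter.Eventually.of_forall hnn) ?_
      exact (LBF_.Z_cont.pow (2 * k)).intervalIntegrable _ _
    calc ∫ t in (0 : ℝ)..T, Z t ^ (2 * k) ≤ I0 + B := by linarith
      _ = (I0 + B) * 1 := by ring
      _ ≤ (I0 + B) * T ^ (θ + ε) := mul_le_mul_of_nonneg_left hone (by linarith)
  · set N : ℕ := ⌈40 * T⌉₊ with hN
    have hN1 : 40 * T ≤ N := Nat.le_ceil _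
    have hN2 : (N : ℝ) ≤ 41 * T := by
      have := (Nat.ceil_lt_add_one (by positivity : (0 : ℝ) ≤ 40 * T)).le
      linarith
    have hN20 : 20 ≤ N := by
      have : (20 : ℝ) ≤ N := by linarith
      exact_mod_cast this
    have hw : ∫ t in Icc (-(2 * T)) (2 * T), w t ^ k ≤
        ∫ t in Icc (-(N : ℝ) / 20) (N / 20), w t ^ k := by
      refine setIntegral_mono_set ?_ ?_ ?_
      · exact (LBF_.w_cont.pow k).continuousOn.integrableOn_Icc
      · exact Filter.Eventually.of_forall fun t => pow_nonneg (LBF_.w_nonneg t) k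
      · refine Filter.Eventually.of_forall ?_
        exact Icc_subset_Icc (by linarith) (by linarith)
    have ha : ∫ t in Icc (-(2 * T)) (2 * T), w t ^ k ≤
        C2 * (C3 * (82 ^ (θ + ε / 2) * T ^ (θ + ε / 2))) := by
      refine hw.trans ((h2 N hN20).trans (mul_le_mul_of_nonneg_left ?_ hC2.le))
      refine (h3 (2 * N) (by omega)).trans (mul_le_mul_of_nonneg_left ?_ hC30)
      rw [← Real.mul_rpow (by norm_num) hTp.le]
      refine Real.rpow_le_rpow (by positivity) ?_ (by linarith)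
      push_cast
      linarith
    have hb : T ≤ T ^ (θ + ε / 2) := by
      calc T = T ^ (1 : ℝ) := (Real.rpow_one T).symm
        _ ≤ T ^ (θ + ε / 2) := Real.rpow_le_rpow_of_exponent_le hT (by linarith)
    have hlog : 0 ≤ Real.log T ^ (2 * k) := pow_nonneg (Real.log_nonneg hT) _
    have hTθ : 0 ≤ T ^ (θ + ε / 2) := by positivity
    calc ∫ t in (0 : ℝ)..T, Z t ^ (2 * k)
        ≤ C1 * Real.log T ^ (2 * k) * (T + ∫ t in Icc (-(2 * T)) (2 * T), w t ^ k) := h1 T hTT
      _ ≤ C1 * Real.log T ^ (2 * k) * (T ^ (θ + ε / 2) +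
            C2 * (C3 * (82 ^ (θ + ε / 2) * T ^ (θ + ε / 2)))) := by
          refine mul_le_mul_of_nonneg_left (add_le_add hb ha) (by positivity)
      _ ≤ C1 * (C4 * T ^ (ε / 2)) * (T ^ (θ + ε / 2) +
            C2 * (C3 * (82 ^ (θ + ε / 2) * T ^ (θ + ε / 2)))) := by
          refine mul_le_mul_of_nonneg_right ?_ (by positivity)
          exact mul_le_mul_of_nonneg_left (h4 T hT) (by linarith)
      _ = B * (T ^ (ε / 2) * T ^ (θ + ε / 2)) := by rw [hB]; ring
      _ = B * T ^ (θ + ε) := by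
          rw [← Real.rpow_add hTp]
          congr 2
          ring
      _ ≤ (I0 + B) * T ^ (θ + ε) := mul_le_mul_of_nonneg_right (by linarith) (by positivity)

end Pool.Agent.NBM
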