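import Pool.Agent.NBM.Targets

set_option autoImplicit false

open MeasureTheory Set
open scoped InnerProductSpace

namespace Pool.Agent.NBM

open Pool.Agent.NBL

namespace LBJ_

theorem main (N k : ℕ) (v : OrthonormalBasis (Fin N) ℂ (EuclideanSpace ℂ (Fin N)))
  (lam : Fin N → ℝ) (e : EuclideanSpace ℂ (Fin N)) (hk : 1 ≤ k) (hl : ∀ i, 0 ≤ lam i) :
  (∑ i, lam i * ‖⟪v i, e⟫_ℂ‖ ^ 2) ^ k ≤
    (‖e‖ ^ 2) ^ (k - 1) * ∑ i, lam i ^ k * ‖⟪v i, e⟫_ℂ‖ ^ 2 := by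
  have hS : ∑ i, ‖⟪v i, e⟫_ℂ‖ ^ 2 = ‖e‖ ^ 2 := v.sum_sq_norm_inner_right e
  set c : Fin N → ℝ := fun i => ‖⟪v i, e⟫_ℂ‖ ^ 2 with hc
  have hc0 : ∀ i, 0 ≤ c i := fun i => by positivity
  rcases eq_or_lt_of_le (show 0 ≤ ‖e‖ ^ 2 by positivity) with h0 | h0
  · have hz : ∀ i, c i = 0 := by
      intro i
      have h1 : ∑ i, c i = 0 := by rw [h0]; exact hS
      exact (Finset.sum_eq_zero_iff_of_nonneg (fun i _ => hc0 i)).1 h1 i (Finset.mem_univ i)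
    have h1 : ∑ i, lam i * ‖⟪v i, e⟫_ℂ‖ ^ 2 = 0 :=
      Finset.sum_eq_zero fun i _ => by
        have := hz i
        simp only [hc] at this
        rw [this, mul_zero]
    rw [h1, zero_pow (by omega)]
    have : ∀ i, 0 ≤ lam i ^ k * ‖⟪v i, e⟫_ℂ‖ ^ 2 := fun i =>
      mul_nonneg (pow_nonneg (hl i) k) (by positivity)
    exact mul_nonneg (by positivity) (Finset.sum_nonneg fun i _ => this i)
  · have hj := Real.pow_arith_mean_le_arith_mean_pow Finset.univ (fun i => c i / ‖e‖ ^ 2) lam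
      (fun i _ => div_nonneg (hc0 i) h0.le)
      (by rw [← Finset.sum_div]; rw [show ∑ i, c i = ‖e‖ ^ 2 from hS]; exact div_self h0.ne')
      (fun i _ => hl i) k
    have e1 : ∑ i, (c i / ‖e‖ ^ 2) * lam i = (∑ i, lam i * ‖⟪v i, e⟫_ℂ‖ ^ 2) / ‖e‖ ^ 2 := by
      rw [Finset.sum_div]
      exact Finset.sum_congr rfl fun i _ => by simp only [hc]; ring
    have e2 : ∑ i, (c i / ‖e‖ ^ 2) * lam i ^ k =
        (∑ i, lam i ^ k * ‖⟪v i, e⟫_ℂ‖ ^ 2) / ‖e‖ ^ 2 := by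
      rw [Finset.sum_div]
      exact Finset.sum_congr rfl fun i _ => by simp only [hc]; ring
    rw [e1, e2, div_pow, div_le_div_iff₀ (by positivity) h0] at hj
    obtain ⟨m, rfl⟩ : ∃ m, k = m + 1 := ⟨k - 1, by omega⟩
    rw [Nat.add_sub_cancel]
    have h3 : (∑ i, lam i * ‖⟪v i, e⟫_ℂ‖ ^ 2) ^ (m + 1) * ‖e‖ ^ 2 ≤
        ((‖e‖ ^ 2) ^ m * ∑ i, lam i ^ (m + 1) * ‖⟪v i, e⟫_ℂ‖ ^ 2) * ‖e‖ ^ 2 := by
      refine hj.trans (le_of_eq ?_)
      ring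
    exact le_of_mul_le_mul_right h3 h0

end LBJ_

/-- finite Jensen inequality for the spectral measure -/
theorem p_LBJ : T_LBJ := fun N k v lam e hk hl => LBJ_.main N k v lam e hk hl

end Pool.Agent.NBM
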