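import Pool.Agent.NBM.Targets

set_option autoImplicit false

/-!
# NBM: the transform of a test vector near its frequency
-/

open MeasureTheory Complex Set Filter Topology

namespace Pool.Agent.NBM

open Pool.Agent.NBL

namespace LBK_

/-- `un n s / s` is an integral -/
theorem un_int {n : ℕ} (hn : 0 < n) (u : ℝ) :
    un n (1 / 2 + u * I) / (1 / 2 + u * I) =
      ∫ x in (n : ℝ)..(n + 1), (x : ℂ) ^ (-(1 / 2 + u * I) - 1) := by
  have hn0 : (0 : ℝ) < n := by exact_mod_cast hn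
  set s : ℂ := 1 / 2 + u * I with hs
  have hs0 : s ≠ 0 := half_ne u
  have h1 : (0 : ℝ) ∉ uIcc (n : ℝ) (n + 1) := by
    rw [uIcc_of_le (by linarith)]
    intro h
    linarith [h.1]
  rw [integral_cpow (Or.inr ⟨by
    intro h
    apply hs0
    linear_combination -h, h1⟩)]
  unfold un
  have e : (-s - 1 + 1 : ℂ) = -s := by ring
  rw [e]
  push_cast
  field_simp
  ring

/-- the integrand in exponential form -/
theorem integrand {N n : ℕ} (hN : 0 < N) (hn : 0 < n) (t u : ℝ) {x : ℝ} (hx : 0 < x) :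
    cexp (-(((t - u) * Real.log N : ℝ) : ℂ) * I) * ((n : ℂ) ^ (-(1 / 2) + t * I) * n) *
      (x : ℂ) ^ (-(1 / 2 + u * I) - 1) =
    ((x⁻¹ : ℝ) : ℂ) * (cexp (((Real.log (n / x) : ℝ) : ℂ) * (1 / 2 + t * I)) *
      cexp ((((t - u) * Real.log (x / N) : ℝ) : ℂ) * I)) := by
  have hn0 : (0 : ℝ) < n := by exact_mod_cast hn
  have hN0 : (0 : ℝ) < N := by exact_mod_cast hN
  have hn1 : (n : ℂ) ≠ 0 := by exact_mod_cast hn0.ne'
  have hx1 : (x : ℂ) ≠ 0 := by exact_mod_cast hx.ne'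
  have e1 : (n : ℂ) = cexp ((Real.log n : ℝ) : ℂ) := by
    rw [← ofReal_exp, Real.exp_log hn0]
    simp
  have e2 : ((x⁻¹ : ℝ) : ℂ) = cexp ((-Real.log x : ℝ) : ℂ) := by
    rw [← ofReal_exp, Real.exp_neg, Real.exp_log hx]
  have e3 : (n : ℂ) ^ (-(1 / 2) + t * I) =
      cexp (((Real.log n : ℝ) : ℂ) * (-(1 / 2) + t * I)) := by
    rw [cpow_def_of_ne_zero hn1, natCast_log]
  have e4 : (x : ℂ) ^ (-(1 / 2 + u * I) - 1) =
      cexp (((Real.log x : ℝ) : ℂ) * (-(1 / 2 + u * I) - 1)) := by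
    rw [cpow_def_of_ne_zero hx1, ofReal_log hx.le]
  have e5 : cexp (-(((t - u) * Real.log N : ℝ) : ℂ) * I) *
      ((n : ℂ) ^ (-(1 / 2) + t * I) * n) * (x : ℂ) ^ (-(1 / 2 + u * I) - 1) =
      cexp (-(((t - u) * Real.log N : ℝ) : ℂ) * I) *
      (cexp (((Real.log n : ℝ) : ℂ) * (-(1 / 2) + t * I)) * cexp ((Real.log n : ℝ) : ℂ)) *
      cexp (((Real.log x : ℝ) : ℂ) * (-(1 / 2 + u * I) - 1)) := by
    rw [e3, e4, ← e1]
  rw [e5, e2, ← Complex.exp_add, ← Complex.exp_add, ← Complex.exp_add, ← Complex.exp_add,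
    ← Complex.exp_add, Real.log_div hn0.ne' hx.ne', Real.log_div hx.ne' hN0.ne']
  congr 1
  push_cast
  ring

/-- the real part of the integrand -/
theorem re_ge {N n : ℕ} (hN : 20 ≤ N) (h1 : N ≤ n) (h2 : n ≤ 2 * N) {t u : ℝ}
    (ht : |t| ≤ (N : ℝ) / 20) (hu : |u - t| ≤ 1 / 10) {x : ℝ} (hx1 : (n : ℝ) ≤ x)
    (hx2 : x ≤ n + 1) :
    1 / 2 * (1 / ((n : ℝ) + 1)) ≤
      (((x⁻¹ : ℝ) : ℂ) * (cexp (((Real.log (n / x) : ℝ) : ℂ) * (1 / 2 + t * I)) *
        cexp ((((t - u) * Real.log (x / N) : ℝ) : ℂ) * I))).re := by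
  have hN' : (20 : ℝ) ≤ N := by exact_mod_cast hN
  have h1' : (N : ℝ) ≤ n := by exact_mod_cast h1
  have h2' : (n : ℝ) ≤ 2 * N := by exact_mod_cast h2
  have hN0 : (0 : ℝ) < N := by linarith
  have hn0 : (0 : ℝ) < n := by linarith
  have hx0 : 0 < x := by linarith
  rw [re_ofReal_mul]
  set E : ℂ := cexp (((Real.log (n / x) : ℝ) : ℂ) * (1 / 2 + t * I)) with hE
  set θ : ℝ := (t - u) * Real.log (x / N) with hθ
  -- `E` is close to one
  have hy : |Real.log (n / x)| ≤ 1 / N := by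
    have e : (n : ℝ) / x = (x / n)⁻¹ := by rw [inv_div]
    rw [e, Real.log_inv, abs_neg, abs_of_nonneg (Real.log_nonneg (by
      rw [le_div_iff₀ hn0]; linarith))]
    have h3 := Real.log_le_sub_one_of_pos (show 0 < x / n by positivity)
    have h4 : x / n - 1 ≤ 1 / n := by
      rw [div_sub_one hn0.ne', div_le_div_iff_of_pos_right hn0]
      linarith
    have h5 : 1 / (n : ℝ) ≤ 1 / N := one_div_le_one_div_of_le hN0 h1'
    linarith
  have hz : ‖(1 / 2 + t * I : ℂ)‖ ≤ 1 / 2 + |t| := by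
    refine (norm_add_le _ _).trans ?_
    rw [norm_mul, norm_I, mul_one, norm_real, Real.norm_eq_abs]
    have : ‖(1 / 2 : ℂ)‖ = 1 / 2 := by simp
    rw [this]
  have hyz : ‖((Real.log (n / x) : ℝ) : ℂ) * (1 / 2 + t * I)‖ ≤ 3 / 40 := by
    rw [norm_mul, norm_real, Real.norm_eq_abs]
    calc |Real.log (n / x)| * ‖(1 / 2 + t * I : ℂ)‖ ≤ 1 / N * (1 / 2 + N / 20) := by
          apply mul_le_mul hy (hz.trans (by linarith)) (norm_nonneg _) (by positivity)
      _ = 1 / (2 * N) + 1 / 20 := by field_simp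
      _ ≤ 1 / 40 + 1 / 20 := by
          have : 1 / (2 * (N : ℝ)) ≤ 1 / 40 :=
            one_div_le_one_div_of_le (by norm_num) (by linarith)
          linarith
      _ = 3 / 40 := by norm_num
  have hE1 : ‖E - 1‖ ≤ 3 / 20 := by
    have h3 := Complex.norm_exp_sub_one_le (x := ((Real.log (n / x) : ℝ) : ℂ) * (1 / 2 + t * I))
      (by linarith)
    rw [hE]
    linarith
  -- the cosine
  have hl : |Real.log (x / N)| ≤ 2 := by
    rw [abs_of_nonneg (Real.log_nonneg (by rw [le_div_iff₀ hN0]; linarith))]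
    have h3 := Real.log_le_sub_one_of_pos (show 0 < x / N by positivity)
    have h4 : x / N - 1 ≤ 2 := by
      rw [sub_le_iff_le_add, div_le_iff₀ hN0]
      linarith
    linarith
  have hθ1 : |θ| ≤ 1 / 5 := by
    rw [hθ, abs_mul, abs_sub_comm]
    calc |u - t| * |Real.log (x / N)| ≤ 1 / 10 * 2 :=
          mul_le_mul hu hl (abs_nonneg _) (by norm_num)
      _ = 1 / 5 := by norm_num
  have hcos : 49 / 50 ≤ Real.cos θ := by
    have h3 := Real.one_sub_sq_div_two_le_cos (x := θ)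
    have h4 : θ ^ 2 ≤ (1 / 5) ^ 2 := by
      rw [← sq_abs θ]
      exact pow_le_pow_left₀ (abs_nonneg _) hθ1 2
    linarith
  have hF : ‖cexp ((θ : ℂ) * I)‖ = 1 := norm_exp_ofReal_mul_I θ
  have hre : 1 / 2 ≤ (E * cexp ((θ : ℂ) * I)).re := by
    have e : E * cexp ((θ : ℂ) * I) = cexp ((θ : ℂ) * I) + (E - 1) * cexp ((θ : ℂ) * I) := by
      ring
    rw [e, add_re, exp_ofReal_mul_I_re]
    have h3 : -(3 / 20) ≤ ((E - 1) * cexp ((θ : ℂ) * I)).re := by
      have h4 := abs_re_le_norm ((E - 1) * cexp ((θ : ℂ) * I))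
      rw [norm_mul, hF, mul_one] at h4
      have h5 := (abs_le.1 h4).1
      linarith
    linarith
  have hxi : 1 / ((n : ℝ) + 1) ≤ x⁻¹ := by
    rw [← one_div]
    exact one_div_le_one_div_of_le hx0 hx2
  calc 1 / 2 * (1 / ((n : ℝ) + 1)) = 1 / ((n : ℝ) + 1) * (1 / 2) := by ring
    _ ≤ x⁻¹ * (E * cexp ((θ : ℂ) * I)).re :=
        mul_le_mul hxi hre (by norm_num) (by positivity)

/-- one term -/
theorem term_ge {N n : ℕ} (hN : 20 ≤ N) (h1 : N ≤ n) (h2 : n ≤ 2 * N) {t u : ℝ}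
    (ht : |t| ≤ (N : ℝ) / 20) (hu : |u - t| ≤ 1 / 10) :
    1 / 2 * (1 / ((n : ℝ) + 1)) ≤
      (cexp (-(((t - u) * Real.log N : ℝ) : ℂ) * I) * ((n : ℂ) ^ (-(1 / 2) + t * I) * n) *
        (un n (1 / 2 + u * I) / (1 / 2 + u * I))).re := by
  have hN' : (20 : ℝ) ≤ N := by exact_mod_cast hN
  have h1' : (N : ℝ) ≤ n := by exact_mod_cast h1
  have hn0 : (0 : ℝ) < n := by linarith
  have hn : 0 < n := by omega
  rw [un_int hn, ← intervalIntegral.integral_const_mul]
  have hle : (n : ℝ) ≤ n + 1 := by linarith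
  have hcont : ContinuousOn (fun x : ℝ => cexp (-(((t - u) * Real.log N : ℝ) : ℂ) * I) *
      ((n : ℂ) ^ (-(1 / 2) + t * I) * n) * (x : ℂ) ^ (-(1 / 2 + u * I) - 1))
      (uIcc (n : ℝ) (n + 1)) := by
    rw [uIcc_of_le hle]
    apply ContinuousOn.mul continuousOn_const
    intro x hx
    have hx0 : 0 < x := lt_of_lt_of_le hn0 hx.1
    exact (continuousAt_ofReal_cpow_const x _ (Or.inr hx0.ne')).continuousWithinAt
  have hint := hcont.intervalIntegrable (μ := volume)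
  have e := reCLM.intervalIntegral_comp_comm hint
  simp only [reCLM_apply] at e
  rw [← e]
  have h3 : ∫ _x in (n : ℝ)..(n + 1), 1 / 2 * (1 / ((n : ℝ) + 1)) =
      1 / 2 * (1 / ((n : ℝ) + 1)) := by
    rw [intervalIntegral.integral_const]
    simp
  rw [← h3]
  apply intervalIntegral.integral_mono_on hle
  · exact intervalIntegrable_const
  · exact (reCLM.continuous.comp_continuousOn hcont).intervalIntegrable
  · intro x hx
    have hx0 : 0 < x := lt_of_lt_of_le hn0 hx.1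
    have h4 := re_ge hN h1 h2 ht hu hx.1 hx.2
    rw [← integrand (by omega) hn t u hx0] at h4
    exact h4

end LBK_

open LBK_ in
theorem p_LBK : T_LBK := by
  intro N t u hN ht hu
  have hN' : (20 : ℝ) ≤ N := by exact_mod_cast hN
  set W : ℂ := cexp (-(((t - u) * Real.log N : ℝ) : ℂ) * I) with hW
  have hWn : ‖W‖ = 1 := by
    rw [hW, ← ofReal_neg]
    exact norm_exp_ofReal_mul_I _
  have e1 : tr (2 * N) (fun i => et N t i) u = ∑ n ∈ Finset.Icc 1 (2 * N),
      xs (2 * N) (fun i => et N t i) n * (un n (1 / 2 + u * I) / (1 / 2 + u * I)) := by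
    unfold tr Nm
    rw [Finset.sum_div]
    refine Finset.sum_congr rfl fun n _ => ?_
    rw [mul_div_assoc]
  have e2 : ∀ n ∈ Finset.Icc 1 (2 * N), xs (2 * N) (fun i => et N t i) n =
      if N ≤ n then (n : ℂ) ^ (-(1 / 2) + t * I) * n else 0 := by
    intro n hn
    rw [Finset.mem_Icc] at hn
    unfold xs
    rw [dif_pos (by omega)]
    have e3 : (((⟨n - 1, by omega⟩ : Fin (2 * N)) : ℕ) + 1) = n := by
      simp only
      omega
    change (if N ≤ ((⟨n - 1, by omega⟩ : Fin (2 * N)) : ℕ) + 1 then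
      ((((⟨n - 1, by omega⟩ : Fin (2 * N)) : ℕ) + 1 : ℕ) : ℂ) ^ (-(1 / 2) + t * I) else 0) *
        (n : ℂ) = _
    rw [e3]
    by_cases h : N ≤ n
    · rw [if_pos h, if_pos h]
    · rw [if_neg h, if_neg h, zero_mul]
  have e4 : W * tr (2 * N) (fun i => et N t i) u = ∑ n ∈ Finset.Icc N (2 * N),
      W * ((n : ℂ) ^ (-(1 / 2) + t * I) * n) * (un n (1 / 2 + u * I) / (1 / 2 + u * I)) := by
    rw [e1, Finset.mul_sum]
    have e5 : ∀ n ∈ Finset.Icc 1 (2 * N), W * (xs (2 * N) (fun i => et N t i) n *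
        (un n (1 / 2 + u * I) / (1 / 2 + u * I))) = if N ≤ n then
        W * ((n : ℂ) ^ (-(1 / 2) + t * I) * n) * (un n (1 / 2 + u * I) / (1 / 2 + u * I))
        else 0 := by
      intro n hn
      rw [e2 n hn]
      by_cases h : N ≤ n
      · rw [if_pos h, if_pos h]
        ring
      · rw [if_neg h, if_neg h]
        ring
    rw [Finset.sum_congr rfl e5, ← Finset.sum_filter]
    congr 1
    ext n
    rw [Finset.mem_filter, Finset.mem_Icc, Finset.mem_Icc]
    omega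
  have e6 : (1 / 4 : ℝ) ≤ (W * tr (2 * N) (fun i => et N t i) u).re := by
    rw [e4, re_sum]
    calc (1 / 4 : ℝ) ≤ ∑ _n ∈ Finset.Icc N (2 * N), 1 / 2 * (1 / (2 * (N : ℝ) + 1)) := by
          rw [Finset.sum_const, Nat.card_Icc, nsmul_eq_mul]
          have e7 : 2 * N + 1 - N = N + 1 := by omega
          rw [e7]
          push_cast
          rw [show ((N : ℝ) + 1) * (1 / 2 * (1 / (2 * (N : ℝ) + 1))) =
            ((N : ℝ) + 1) / (2 * (2 * (N : ℝ) + 1)) by field_simp,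
            div_le_div_iff₀ (by norm_num) (by positivity)]
          linarith
      _ ≤ _ := by
          refine Finset.sum_le_sum fun n hn => ?_
          rw [Finset.mem_Icc] at hn
          refine le_trans ?_ (term_ge hN hn.1 hn.2 ht hu)
          apply mul_le_mul_of_nonneg_left _ (by norm_num)
          have h2' : (n : ℝ) ≤ 2 * N := by exact_mod_cast hn.2
          exact one_div_le_one_div_of_le (by positivity) (by linarith)
  calc (1 / 4 : ℝ) ≤ (W * tr (2 * N) (fun i => et N t i) u).re := e6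
    _ ≤ ‖W * tr (2 * N) (fun i => et N t i) u‖ := re_le_norm _
    _ = _ := by rw [norm_mul, hWn, one_mul]

end Pool.Agent.NBM
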