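import Pool.Agent.NBM.Targets

/-!
# LBM: the test vectors
-/

set_option autoImplicit false

open MeasureTheory Set
open scoped InnerProductSpace

namespace Pool.Agent.NBM

open Pool.Agent.NBL

namespace LBM_

theorem sum_conv {E : Type*} [AddCommMonoid E] (N : ℕ) (hN : 1 ≤ N) (g : ℕ → E) :
    ∑ i : Fin (2 * N), (if N ≤ (i : ℕ) + 1 then g ((i : ℕ) + 1) else 0) =
      ∑ k ∈ Finset.Icc N (2 * N), g k := by
  rw [Fin.sum_univ_eq_sum_range (fun i => if N ≤ i + 1 then g (i + 1) else 0) (2 * N)]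
  rw [← Finset.sum_filter]
  refine Finset.sum_bij (fun i _ => i + 1) ?_ ?_ ?_ ?_
  · intro i hi
    simp only [Finset.mem_filter, Finset.mem_range, Finset.mem_Icc] at hi ⊢
    omega
  · intro i _ j _ h
    omega
  · intro k hk
    simp only [Finset.mem_Icc] at hk
    refine ⟨k - 1, ?_, by omega⟩
    simp only [Finset.mem_filter, Finset.mem_range]
    omega
  · intro i _
    rfl

theorem conj_pow (k : ℕ) (t : ℝ) :
    (starRingEnd ℂ) ((k : ℂ) ^ (-(1 / 2) + t * Complex.I)) =
      (k : ℂ) ^ (-(1 / 2 + t * Complex.I)) := by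
  have h1 : Complex.arg (k : ℂ) ≠ Real.pi := by
    rw [Complex.natCast_arg]
    exact Real.pi_pos.ne
  have h2 := Complex.cpow_conj (k : ℂ) (-(1 / 2) + t * Complex.I) h1
  rw [Complex.conj_natCast] at h2
  rw [← h2]
  congr 1
  simp only [map_add, map_neg, map_div₀, map_one, map_mul, Complex.conj_ofReal, Complex.conj_I,
    Complex.conj_ofNat]
  ring

end LBM_

theorem p_LBM : T_LBM := by
  intro N hN
  have hN' : (1 : ℝ) ≤ N := by exact_mod_cast hN
  have hN0 : (0 : ℝ) < N := by linarith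
  refine ⟨fun a => ?_, fun t => ?_⟩
  · set c : ℕ → ℂ := fun k => if hk : k - 1 < 2 * N then a ⟨k - 1, hk⟩ else 0 with hc
    have hci : ∀ i : Fin (2 * N), c ((i : ℕ) + 1) = a i := by
      intro i
      simp only [hc, Nat.add_sub_cancel, i.2, dif_pos, Fin.eta]
    have e : ∀ t : ℝ, ‖⟪a, et N t⟫_ℂ‖ₑ =
        ‖∑ k ∈ Finset.Icc N (2 * N), c k * (k : ℂ) ^ (-(1 / 2 + t * Complex.I))‖ₑ := by
      intro t
      have h1 : (starRingEnd ℂ) ⟪a, et N t⟫_ℂ =
          ∑ k ∈ Finset.Icc N (2 * N), c k * (k : ℂ) ^ (-(1 / 2 + t * Complex.I)) := by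
        rw [← LBM_.sum_conv N hN, PiLp.inner_apply, map_sum]
        refine Finset.sum_congr rfl (fun i _ => ?_)
        unfold et
        by_cases hi : N ≤ (i : ℕ) + 1
        · simp only [RCLike.inner_apply, if_pos hi, map_mul, Complex.conj_conj]
          rw [LBM_.conj_pow, hci i, mul_comm]
        · simp [if_neg hi]
      rw [← h1]
      simp only [enorm_eq_nnnorm]
      congr 1
      exact (NNReal.eq (RCLike.norm_conj _)).symm
    simp only [e]
    refine (mean_value hN (le_refl (N : ℝ)) c).trans (ENNReal.ofReal_le_ofReal ?_)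
    have h2 : ∑ k ∈ Finset.Icc N (2 * N), ‖c k‖ ^ 2 ≤ ‖a‖ ^ 2 := by
      rw [← LBM_.sum_conv N hN (fun k => ‖c k‖ ^ 2), EuclideanSpace.norm_sq_eq]
      refine Finset.sum_le_sum (fun i _ => ?_)
      rw [hci i]
      split_ifs
      · exact le_rfl
      · positivity
    have h3 : Kmv * N * ((1 / N) * ∑ k ∈ Finset.Icc N (2 * N), ‖c k‖ ^ 2) =
        Kmv * ∑ k ∈ Finset.Icc N (2 * N), ‖c k‖ ^ 2 := by
      field_simp
    rw [h3]
    exact mul_le_mul_of_nonneg_left h2 Kmv_pos.le
  · rw [EuclideanSpace.norm_sq_eq]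
    have h1 : ∑ i, ‖et N t i‖ ^ 2 = ∑ k ∈ Finset.Icc N (2 * N), (1 : ℝ) / k := by
      rw [← LBM_.sum_conv N hN]
      refine Finset.sum_congr rfl (fun i _ => ?_)
      unfold et
      by_cases hi : N ≤ (i : ℕ) + 1
      · simp only [if_pos hi]
        rw [Complex.norm_natCast_cpow_of_pos (Nat.succ_pos _)]
        have hre : (-(1 / 2) + (t : ℂ) * Complex.I).re = -(1 / 2 : ℝ) := by
          simp
        rw [hre, ← Real.rpow_natCast, ← Real.rpow_mul (by positivity)]
        norm_num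
        rw [Real.rpow_neg_one]
      · simp [if_neg hi]
    rw [h1]
    have h2 : ∑ k ∈ Finset.Icc N (2 * N), (1 : ℝ) / k ≤
        ∑ _k ∈ Finset.Icc N (2 * N), (1 : ℝ) / N := by
      refine Finset.sum_le_sum (fun k hk => ?_)
      rw [Finset.mem_Icc] at hk
      exact one_div_le_one_div_of_le hN0 (by exact_mod_cast hk.1)
    refine h2.trans ?_
    rw [Finset.sum_const, Nat.card_Icc, nsmul_eq_mul, mul_one_div, div_le_iff₀ hN0]
    have h3 : ((2 * N + 1 - N : ℕ) : ℝ) = N + 1 := by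
      rw [show 2 * N + 1 - N = N + 1 by omega]
      push_cast
      ring
    rw [h3]
    linarith

end Pool.Agent.NBM
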