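import Pool.Agent.NBM.Targets

set_option autoImplicit false

/-!
# NBM-LBT: the second Berezin-Lieb inequality
-/

open MeasureTheory Set
open scoped InnerProductSpace

namespace Pool.Agent.NBM

open Pool.Agent.NBL

namespace LBT_

theorem Z_cont : Continuous Z := by
  rw [continuous_iff_continuousAt]
  intro t
  unfold Z
  have h1 : (1 / 2 + (t : ℂ) * Complex.I) ≠ 1 := by
    intro h
    have := congrArg Complex.re h
    norm_num at this
  have h2 : ContinuousAt riemannZeta (1 / 2 + (t : ℂ) * Complex.I) :=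
    (differentiableAt_riemannZeta h1).continuousAt
  have h3 : ContinuousAt (fun t : ℝ => (1 / 2 + (t : ℂ) * Complex.I)) t := by
    fun_prop
  exact (ContinuousAt.comp (f := fun t : ℝ => (1 / 2 + (t : ℂ) * Complex.I)) h2 h3).norm

theorem w_nonneg (t : ℝ) : 0 ≤ w t :=
  integral_nonneg fun _ => sq_nonneg _

theorem Qf_nonneg (N : ℕ) (a : Fin N → ℂ) : 0 ≤ Qf N a :=
  integral_nonneg fun _ => sq_nonneg _

/-- lower bound for the quadratic form at a test vector -/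
theorem lower (hPLN : T_PLN) (hLBK : T_LBK) {N : ℕ} (hN : 20 ≤ N) {t : ℝ}
    (ht : |t| ≤ (N : ℝ) / 20) :
    w t ≤ 32 * Real.pi * Qf (2 * N) (fun i => et N t i) := by
  have h1 := (hPLN (2 * N) fun i => et N t i).1
  have h2 : ENNReal.ofReal (w t) * ENNReal.ofReal (1 / 16) ≤
      ∫⁻ u : ℝ, ENNReal.ofReal (Z u ^ 2) * ‖tr (2 * N) (fun i => et N t i) u‖ₑ ^ 2 := by
    have h3 : ENNReal.ofReal (w t) =
        ∫⁻ u in Icc (t - 1 / 10) (t + 1 / 10), ENNReal.ofReal (Z u ^ 2) := by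
      unfold w
      refine ofReal_integral_eq_lintegral_ofReal ?_ ?_
      · exact (Z_cont.pow 2).continuousOn.integrableOn_Icc
      · exact Filter.Eventually.of_forall fun _ => sq_nonneg _
    rw [h3, ← lintegral_mul_const' _ _ ENNReal.ofReal_ne_top]
    refine le_trans ?_ (setLIntegral_le_lintegral (Icc (t - 1 / 10) (t + 1 / 10)) _)
    refine setLIntegral_mono' measurableSet_Icc fun u hu => ?_
    gcongr
    have h4 : |u - t| ≤ 1 / 10 := by
      rw [abs_le]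
      exact ⟨by linarith [hu.1], by linarith [hu.2]⟩
    have h5 := hLBK N t u hN ht h4
    have h6 : ENNReal.ofReal (1 / 16) = ENNReal.ofReal (1 / 4) ^ 2 := by
      rw [← ENNReal.ofReal_pow (by norm_num)]
      norm_num
    rw [h6, ← ofReal_norm]
    gcongr
  have h3 : ENNReal.ofReal (1 / (2 * Real.pi)) * (ENNReal.ofReal (w t) *
      ENNReal.ofReal (1 / 16)) ≤ ENNReal.ofReal (Qf (2 * N) fun i => et N t i) := by
    rw [h1]
    gcongr
  rw [← ENNReal.ofReal_mul (w_nonneg t), ← ENNReal.ofReal_mul (by positivity),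
    ENNReal.ofReal_le_ofReal_iff (Qf_nonneg _ _)] at h3
  have h4 := mul_le_mul_of_nonneg_left h3 (by positivity : (0 : ℝ) ≤ 32 * Real.pi)
  refine le_trans (le_of_eq ?_) h4
  field_simp
  ring

theorem et_cont (N : ℕ) : Continuous fun t : ℝ => et N t := by
  unfold et
  refine (PiLp.continuous_toLp 2 _).comp (continuous_pi fun i => ?_)
  by_cases hi : N ≤ (i : ℕ) + 1
  · simp only [hi, if_true]
    refine Continuous.const_cpow (by fun_prop) (Or.inl ?_)
    exact_mod_cast Nat.succ_ne_zero (i : ℕ)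
  · simp only [hi, if_false]
    exact continuous_const

end LBT_

open LBT_ in
theorem p_LBT (hSPE : T_SPE) (hPLN : T_PLN) (hLBJ : T_LBJ) (hLBM : T_LBM) (hLBK : T_LBK) :
    T_LBT := by
  intro k hk
  refine ⟨(32 * Real.pi) ^ k * 2 ^ (k - 1) * (Kmv + 1), ?_, fun N hN => ?_⟩
  · have := Kmv_pos
    positivity
  obtain ⟨v, lam, h0, hQ, htr⟩ := hSPE (2 * N)
  have hN1 : 1 ≤ N := by omega
  obtain ⟨hM1, hM2⟩ := hLBM N hN1
  have hNr : (20 : ℝ) ≤ N := by exact_mod_cast hN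
  -- the functions `‖⟪v i, et N t⟫‖ ^ 2`
  have hc : ∀ i, Continuous fun t : ℝ => ‖⟪v i, et N t⟫_ℂ‖ ^ 2 := fun i =>
    ((continuous_const.inner (et_cont N)).norm).pow 2
  have hint : ∀ i, ∫ t in Icc (-(N : ℝ) / 20) (N / 20), ‖⟪v i, et N t⟫_ℂ‖ ^ 2 ≤ Kmv := by
    intro i
    have h1 : ENNReal.ofReal (∫ t in Icc (-(N : ℝ) / 20) (N / 20), ‖⟪v i, et N t⟫_ℂ‖ ^ 2) ≤
        ENNReal.ofReal Kmv := by
      rw [ofReal_integral_eq_lintegral_ofReal (hc i).continuousOn.integrableOn_Icc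
        (Filter.Eventually.of_forall fun _ => sq_nonneg _)]
      have h2 := hM1 (v i)
      rw [v.orthonormal.1 i, one_pow, mul_one] at h2
      refine le_trans ?_ h2
      have h3 : ∀ t : ℝ, ENNReal.ofReal (‖⟪v i, et N t⟫_ℂ‖ ^ 2) = ‖⟪v i, et N t⟫_ℂ‖ₑ ^ 2 := by
        intro t
        rw [ENNReal.ofReal_pow (norm_nonneg _), ofReal_norm]
      simp only [h3]
      refine lintegral_mono_set ?_
      refine Icc_subset_Icc ?_ ?_
      · linarith
      · linarith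
    exact (ENNReal.ofReal_le_ofReal_iff Kmv_pos.le).1 h1
  have hpt : ∀ t ∈ Icc (-(N : ℝ) / 20) (N / 20), w t ^ k ≤
      (32 * Real.pi) ^ k * 2 ^ (k - 1) * ∑ i, lam i ^ k * ‖⟪v i, et N t⟫_ℂ‖ ^ 2 := by
    intro t ht
    have ht' : |t| ≤ (N : ℝ) / 20 := abs_le.2 ⟨by linarith [ht.1], ht.2⟩
    have h1 := lower hPLN hLBK hN ht'
    have h2 := hLBJ (2 * N) k v lam (et N t) hk h0
    have h3 : Qf (2 * N) (fun i => et N t i) = ∑ i, lam i * ‖⟪v i, et N t⟫_ℂ‖ ^ 2 :=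
      hQ (et N t)
    have h4 : 0 ≤ ∑ i, lam i ^ k * ‖⟪v i, et N t⟫_ℂ‖ ^ 2 :=
      Finset.sum_nonneg fun i _ => mul_nonneg (pow_nonneg (h0 i) k) (sq_nonneg _)
    calc w t ^ k ≤ (32 * Real.pi * Qf (2 * N) (fun i => et N t i)) ^ k :=
          pow_le_pow_left₀ (w_nonneg t) h1 k
      _ = (32 * Real.pi) ^ k * (∑ i, lam i * ‖⟪v i, et N t⟫_ℂ‖ ^ 2) ^ k := by
          rw [mul_pow, h3]
      _ ≤ (32 * Real.pi) ^ k * ((‖et N t‖ ^ 2) ^ (k - 1) *
            ∑ i, lam i ^ k * ‖⟪v i, et N t⟫_ℂ‖ ^ 2) := by gcongr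
      _ ≤ (32 * Real.pi) ^ k * (2 ^ (k - 1) *
            ∑ i, lam i ^ k * ‖⟪v i, et N t⟫_ℂ‖ ^ 2) := by
          have h5 : (‖et N t‖ ^ 2) ^ (k - 1) ≤ 2 ^ (k - 1) :=
            pow_le_pow_left₀ (sq_nonneg _) (hM2 t) _
          gcongr
      _ = _ := by ring
  have hg : ∀ i, IntegrableOn (fun t : ℝ => lam i ^ k * ‖⟪v i, et N t⟫_ℂ‖ ^ 2)
      (Icc (-(N : ℝ) / 20) (N / 20)) := fun i =>
    (continuous_const.mul (hc i)).continuousOn.integrableOn_Icc
  calc ∫ t in Icc (-(N : ℝ) / 20) (N / 20), w t ^ k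
      ≤ ∫ t in Icc (-(N : ℝ) / 20) (N / 20), (32 * Real.pi) ^ k * 2 ^ (k - 1) *
          ∑ i, lam i ^ k * ‖⟪v i, et N t⟫_ℂ‖ ^ 2 := by
        refine integral_mono_of_nonneg ?_ ?_ ?_
        · exact Filter.Eventually.of_forall fun t => pow_nonneg (w_nonneg t) k
        · exact (integrable_finsetSum _ fun i _ => hg i).const_mul _
        · exact ae_restrict_of_forall_mem measurableSet_Icc hpt
    _ = (32 * Real.pi) ^ k * 2 ^ (k - 1) *
          ∑ i, lam i ^ k * ∫ t in Icc (-(N : ℝ) / 20) (N / 20), ‖⟪v i, et N t⟫_ℂ‖ ^ 2 := by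
        rw [integral_const_mul, integral_finsetSum _ fun i _ => hg i]
        simp only [integral_const_mul]
    _ ≤ (32 * Real.pi) ^ k * 2 ^ (k - 1) * ∑ i, lam i ^ k * (Kmv + 1) := by
        gcongr with i _
        · exact pow_nonneg (h0 i) k
        · linarith [hint i]
    _ = (32 * Real.pi) ^ k * 2 ^ (k - 1) * (Kmv + 1) * ((G (2 * N)) ^ k).trace := by
        rw [htr k, ← Finset.sum_mul]
        ring

end Pool.Agent.NBM
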