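import Pool.Agent.NBM.Targets
import Pool.Agent.NBL.Small

/-!
# The Lindelöf hypothesis and all the moments

Adapted from `Pool/Agent/MDY/P_LHK.lean`.
-/

set_option autoImplicit false

open MeasureTheory Complex Set Filter Topology

namespace Pool.Agent.NBM

open Pool.Agent.NBL

namespace LHK_

lemma z_cont : Continuous Z := Pool.Agent.Lib.ThickFailure.continuous_zeta_line.norm

lemma z_nonneg (t : ℝ) : 0 ≤ Z t := norm_nonneg _

lemma z_neg (t : ℝ) : Z (-t) = Z t := norm_zeta_neg t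

lemma z_int (k : ℕ) (a b : ℝ) : IntervalIntegrable (fun t => Z t ^ k) volume a b :=
  (z_cont.pow k).intervalIntegrable a b

/-- from the pointwise bound to the moments -/
lemma moments (h : Mu 0) (k : ℕ) (hk : 1 ≤ k) : Mom k 1 := by
  intro ε hε
  have hk0 : (0 : ℝ) < 2 * (k : ℝ) := by
    have : (1 : ℝ) ≤ k := by exact_mod_cast hk
    linarith
  obtain ⟨C, hC⟩ := h (ε / (2 * k)) (by positivity)
  have hC0 : 0 ≤ C := by
    have h1 := hC 0
    simp only [abs_zero, add_zero, Real.one_rpow, mul_one] at h1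
    exact (norm_nonneg _).trans h1
  refine ⟨C ^ (2 * k) * (2 : ℝ) ^ ε, fun T hT => ?_⟩
  have h2 : ∀ t ∈ Icc (0 : ℝ) T, Z t ^ (2 * k) ≤ C ^ (2 * k) * (2 * T) ^ ε := by
    intro t ht
    have h3 : Z t ≤ C * (1 + |t|) ^ (ε / (2 * k)) := by
      have := hC t
      rwa [zero_add] at this
    have h4 : |t| = t := abs_of_nonneg ht.1
    rw [h4] at h3
    have h5 : (1 + t) ^ (ε / (2 * k)) ≤ (2 * T) ^ (ε / (2 * k)) :=
      Real.rpow_le_rpow (by linarith [ht.1]) (by linarith [ht.2]) (by positivity)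
    have h6 : Z t ≤ C * (2 * T) ^ (ε / (2 * k)) :=
      h3.trans (mul_le_mul_of_nonneg_left h5 hC0)
    have h7 : Z t ^ (2 * k) ≤ (C * (2 * T) ^ (ε / (2 * k))) ^ (2 * k) :=
      pow_le_pow_left₀ (z_nonneg t) h6 _
    rw [mul_pow, ← Real.rpow_natCast ((2 * T) ^ (ε / (2 * k))) (2 * k),
      ← Real.rpow_mul (by linarith)] at h7
    have h8 : ε / (2 * (k : ℝ)) * ((2 * k : ℕ) : ℝ) = ε := by
      push_cast
      field_simp
    rwa [h8] at h7
  have h9 : ∫ t in (0 : ℝ)..T, Z t ^ (2 * k) ≤ ∫ _ in (0 : ℝ)..T, C ^ (2 * k) * (2 * T) ^ ε :=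
    intervalIntegral.integral_mono_on (by linarith) (z_int _ _ _)
      (continuous_const.intervalIntegrable _ _) h2
  have h10 : ∫ _ in (0 : ℝ)..T, C ^ (2 * k) * (2 * T) ^ ε = C ^ (2 * k) * 2 ^ ε * T ^ (1 + ε) := by
    rw [intervalIntegral.integral_const, smul_eq_mul, sub_zero,
      Real.mul_rpow (by norm_num) (by linarith), Real.rpow_add (by linarith), Real.rpow_one]
    ring
  rw [h10] at h9
  exact h9

/-- splitting at a threshold -/
lemma split (k : ℕ) (x lam : ℝ) (hx : 0 ≤ x) (hl : 0 < lam) :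
    x ^ 2 ≤ lam + (lam ^ k)⁻¹ * x ^ (2 * (k + 1)) := by
  rcases le_total (x ^ 2) lam with h | h
  · have : 0 ≤ (lam ^ k)⁻¹ * x ^ (2 * (k + 1)) := by positivity
    linarith
  · have h1 : lam ^ k ≤ (x ^ 2) ^ k := pow_le_pow_left₀ hl.le h k
    have h2 : x ^ (2 * (k + 1)) = (x ^ 2) ^ k * x ^ 2 := by
      rw [← pow_mul, ← pow_add]
      ring_nf
    have h3 : x ^ 2 ≤ (lam ^ k)⁻¹ * x ^ (2 * (k + 1)) := by
      rw [h2, ← mul_assoc]
      have h4 : 1 ≤ (lam ^ k)⁻¹ * (x ^ 2) ^ k := by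
        rw [inv_mul_eq_div, le_div_iff₀ (by positivity), one_mul]
        exact h1
      nlinarith [sq_nonneg x]
    linarith

lemma log_half {T : ℝ} (hT : 0 < T) : 2 * Real.log T ≤ T := by
  have h1 := Real.log_le_sub_one_of_pos (show 0 < T / 2 by positivity)
  rw [Real.log_div hT.ne' (by norm_num)] at h1
  have h2 := Real.log_two_lt_d9
  linarith

/-- the mean square over a window -/
lemma mean (ε : ℝ) (hε : 0 < ε) (h : ∀ k : ℕ, 1 ≤ k → Mom k 1) :
    ∃ D : ℝ, 0 ≤ D ∧ ∀ T : ℝ, 20 ≤ T →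
      ∫ v in Icc (T - 2 * Real.log T) (T + 2 * Real.log T), Z v ^ 2 ≤ D * T ^ (2 * ε) := by
  obtain ⟨k, hk⟩ := exists_nat_ge (2 / ε)
  have hk2 : 2 ≤ ε * k := by
    rw [div_le_iff₀ hε] at hk
    linarith
  obtain ⟨C, hC⟩ := h (k + 1) (by omega) 1 one_pos
  have hC' : ∀ T : ℝ, 1 ≤ T → ∫ t in (0 : ℝ)..T, Z t ^ (2 * (k + 1)) ≤ C * T ^ 2 := by
    intro T hT
    have h1 := hC T hT
    have h2 : T ^ ((1 : ℝ) + 1) = T ^ 2 := by
      rw [show (1 : ℝ) + 1 = ((2 : ℕ) : ℝ) by norm_num, Real.rpow_natCast]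
    rw [h2] at h1
    exact h1
  have hC0 : 0 ≤ C := by
    have h1 := hC' 1 le_rfl
    have h2 : 0 ≤ ∫ t in (0 : ℝ)..1, Z t ^ (2 * (k + 1)) :=
      intervalIntegral.integral_nonneg (by norm_num) fun t _ => pow_nonneg (z_nonneg t) _
    linarith
  refine ⟨4 / ε + 4 * C, by positivity, fun T hT => ?_⟩
  have hT0 : 0 < T := by linarith
  have hT1 : 1 ≤ T := by linarith
  have hlog : 0 ≤ Real.log T := Real.log_nonneg hT1
  have hlh := log_half hT0
  set lam : ℝ := T ^ ε with hlam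
  have hl1 : 1 ≤ lam := Real.one_le_rpow hT1 hε.le
  have hl0 : 0 < lam := by linarith
  have hll : T ^ (2 * ε) = lam * lam := by
    rw [hlam, ← Real.rpow_add hT0]
    congr 1
    ring
  have hlk : T ^ 2 ≤ lam ^ k := by
    rw [hlam, ← Real.rpow_natCast (T ^ ε) k, ← Real.rpow_mul hT0.le, ← Real.rpow_natCast T 2]
    exact Real.rpow_le_rpow_of_exponent_le hT1 (by exact_mod_cast hk2)
  have hlogT : Real.log T ≤ lam / ε := Real.log_le_rpow_div hT0.le hε
  set a : ℝ := T - 2 * Real.log T with ha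
  set b : ℝ := T + 2 * Real.log T with hb
  have hab : a ≤ b := by linarith
  rw [integral_Icc_eq_integral_Ioc, ← intervalIntegral.integral_of_le hab]
  have h1 : ∫ t in a..b, Z t ^ 2 ≤
      ∫ t in a..b, (lam + (lam ^ k)⁻¹ * Z t ^ (2 * (k + 1))) :=
    intervalIntegral.integral_mono_on hab (z_int _ _ _)
      ((continuous_const.add (continuous_const.mul (z_cont.pow _))).intervalIntegrable _ _)
      fun t _ => split k _ lam (z_nonneg _) hl0
  have h2 : ∫ t in a..b, (lam + (lam ^ k)⁻¹ * Z t ^ (2 * (k + 1))) =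
      (b - a) * lam + (lam ^ k)⁻¹ * ∫ t in a..b, Z t ^ (2 * (k + 1)) := by
    have i1 : IntervalIntegrable (fun _ : ℝ => lam) volume a b :=
      continuous_const.intervalIntegrable _ _
    have i2 : IntervalIntegrable (fun t : ℝ => (lam ^ k)⁻¹ * Z t ^ (2 * (k + 1)))
        volume a b := (continuous_const.mul (z_cont.pow _)).intervalIntegrable _ _
    rw [intervalIntegral.integral_add i1 i2, intervalIntegral.integral_const,
      intervalIntegral.integral_const_mul, smul_eq_mul]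
  have h3 : ∫ t in a..b, Z t ^ (2 * (k + 1)) ≤ C * (2 * T) ^ 2 := by
    refine le_trans ?_ (hC' (2 * T) (by linarith))
    exact intervalIntegral.integral_mono_interval (by linarith) hab (by linarith)
      (ae_of_all _ fun t => pow_nonneg (z_nonneg t) _) (z_int _ _ _)
  have h4 : (lam ^ k)⁻¹ * ∫ t in a..b, Z t ^ (2 * (k + 1)) ≤ 4 * C := by
    have h5 : (lam ^ k)⁻¹ * ∫ t in a..b, Z t ^ (2 * (k + 1)) ≤
        (lam ^ k)⁻¹ * (C * (2 * T) ^ 2) := mul_le_mul_of_nonneg_left h3 (by positivity)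
    have h6 : (lam ^ k)⁻¹ * T ^ 2 ≤ 1 := by
      rw [inv_mul_eq_div, div_le_one (by positivity)]
      exact hlk
    nlinarith
  have h7 : (b - a) * lam ≤ 4 / ε * (lam * lam) := by
    have h8 : b - a = 4 * Real.log T := by rw [ha, hb]; ring
    rw [h8]
    calc 4 * Real.log T * lam ≤ 4 * (lam / ε) * lam := by gcongr
      _ = _ := by ring
  have h9 : 4 * C ≤ 4 * C * (lam * lam) := by
    have : 1 ≤ lam * lam := by nlinarith
    nlinarith
  rw [hll]
  linarith

end LHK_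

open LHK_ in
/-- the Lindelöf hypothesis and all the moments -/
theorem p_LHK (hPMX : T_PMX) : (∀ k : ℕ, 1 ≤ k → Mom k 1) ↔ Mu 0 := by
  refine ⟨fun h ε hε => ?_, fun h k hk => moments h k hk⟩
  obtain ⟨C, T₀, hC1, hT20, hP⟩ := hPMX
  have hε4 : 0 < ε / 2 := by positivity
  obtain ⟨D, hD0, hD⟩ := mean (ε / 2) hε4 h
  -- compactness
  obtain ⟨B, hB⟩ := (isCompact_Icc (a := (0 : ℝ)) (b := T₀)).exists_bound_of_continuousOn
    z_cont.continuousOn
  have hpos : ∀ y : ℝ, T₀ ≤ y → Z y ^ 2 ≤ (C / (ε / 2) * (1 + D)) * (y ^ ε) ^ 2 := by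
    intro y hy
    have hy1 : 1 ≤ y := by linarith
    have hy0 : 0 < y := by linarith
    have h1 := hP y hy
    have h2 := hD y (by linarith)
    have h3 : Real.log y ≤ y ^ (ε / 2) / (ε / 2) := Real.log_le_rpow_div hy0.le hε4
    have h4 : 1 ≤ y ^ (2 * (ε / 2)) := Real.one_le_rpow hy1 (by positivity)
    have h5 : 1 + ∫ v in Icc (y - 2 * Real.log y) (y + 2 * Real.log y), Z v ^ 2 ≤
        (1 + D) * y ^ (2 * (ε / 2)) := by linarith
    have h6 : 0 ≤ 1 + ∫ v in Icc (y - 2 * Real.log y) (y + 2 * Real.log y), Z v ^ 2 := by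
      have : 0 ≤ ∫ v in Icc (y - 2 * Real.log y) (y + 2 * Real.log y), Z v ^ 2 :=
        integral_nonneg fun v => by positivity
      linarith
    calc Z y ^ 2 ≤ C * Real.log y *
          (1 + ∫ v in Icc (y - 2 * Real.log y) (y + 2 * Real.log y), Z v ^ 2) := h1
      _ ≤ C * (y ^ (ε / 2) / (ε / 2)) * ((1 + D) * y ^ (2 * (ε / 2))) := by
          apply mul_le_mul _ h5 h6 (by positivity)
          exact mul_le_mul_of_nonneg_left h3 (by linarith)
      _ = (C / (ε / 2) * (1 + D)) * (y ^ (ε / 2) * y ^ (2 * (ε / 2))) := by ring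
      _ ≤ (C / (ε / 2) * (1 + D)) * (y ^ ε) ^ 2 := by
          apply mul_le_mul_of_nonneg_left _ (by positivity)
          rw [← Real.rpow_add hy0, ← Real.rpow_natCast (y ^ ε) 2, ← Real.rpow_mul hy0.le]
          apply Real.rpow_le_rpow_of_exponent_le hy1
          push_cast
          linarith
  have hnn : ∀ y : ℝ, 0 ≤ y →
      Z y ≤ (max B 0 + √(C / (ε / 2) * (1 + D))) * (1 + y) ^ ε := by
    intro y hy
    have h1 : 1 ≤ (1 + y) ^ ε := Real.one_le_rpow (by linarith) hε.le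
    have h2 : 0 ≤ √(C / (ε / 2) * (1 + D)) := Real.sqrt_nonneg _
    have h3 : 0 ≤ max B 0 := le_max_right _ _
    rcases le_total y T₀ with h | h
    · have h4 := hB y ⟨hy, h⟩
      rw [Real.norm_of_nonneg (z_nonneg y)] at h4
      have h5 : Z y ≤ max B 0 := h4.trans (le_max_left _ _)
      nlinarith
    · have h4 := hpos y h
      have h5 : 0 ≤ y ^ ε := by positivity
      have h6 : Z y ≤ √(C / (ε / 2) * (1 + D)) * y ^ ε := by
        have h9 := Real.le_sqrt_of_sq_le h4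
        rwa [Real.sqrt_mul (by positivity), Real.sqrt_sq h5] at h9
      have h7 : y ^ ε ≤ (1 + y) ^ ε := Real.rpow_le_rpow hy (by linarith) hε.le
      calc Z y ≤ √(C / (ε / 2) * (1 + D)) * y ^ ε := h6
        _ ≤ √(C / (ε / 2) * (1 + D)) * (1 + y) ^ ε := mul_le_mul_of_nonneg_left h7 h2
        _ ≤ _ := by
            apply mul_le_mul_of_nonneg_right _ (by linarith)
            linarith
  refine ⟨max B 0 + √(C / (ε / 2) * (1 + D)), fun y => ?_⟩
  rw [zero_add]
  rcases le_total 0 y with h1 | h1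
  · rw [abs_of_nonneg h1]
    exact hnn y h1
  · have h2 := hnn (-y) (by linarith)
    rw [z_neg] at h2
    rw [abs_of_nonpos h1]
    exact h2

end Pool.Agent.NBM
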