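import Pool.Agent.NBM.Targets

/-! # NBM: Mellin-Plancherel -/

set_option autoImplicit false

open MeasureTheory Set
open scoped ENNReal

namespace Pool.Agent.NBM

open Pool.Agent.NBL

namespace PLN_

theorem enorm_sq' (z : ℂ) : ‖z‖ₑ ^ 2 = ENNReal.ofReal (‖z‖ ^ 2) := by
  rw [ENNReal.ofReal_pow (norm_nonneg _), ofReal_norm]

theorem Hs_eq (N : ℕ) (a : Fin N → ℂ) (t : ℝ) :
    Hs (xs N a) (Finset.Icc 1 N) t =
      ∑ j : Fin N, a j * (((((j : ℕ) + 1 : ℕ) : ℝ) * h (j + 1) t : ℝ) : ℂ) := by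
  unfold Hs
  rw [xs_sum (fun n z => z * (h n t : ℂ)) a]
  refine Finset.sum_congr rfl fun j _ => ?_
  push_cast
  ring

theorem adm (N : ℕ) (a : Fin N → ℂ) : Adm (Hs (xs N a) (Finset.Icc 1 N)) :=
  adm_Hs (xs N a) fun _ hn => pos_of_mem hn

end PLN_

theorem p_PLN : T_PLN := by
  intro N a
  have hpi := Real.pi_pos
  constructor
  · have hg := PLN_.adm N a
    have hint : Integrable (fun t => ‖Hs (xs N a) (Finset.Icc 1 N) t‖ ^ 2)
        (volume.restrict (Ioi 0)) :=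
      (memLp_two_iff_integrable_sq_norm hg.1.aestronglyMeasurable).1 hg.memLp
    have h1 : Qf N a = ∫ t in Ioi (0 : ℝ), ‖Hs (xs N a) (Finset.Icc 1 N) t‖ ^ 2 := by
      unfold Qf
      simp_rw [PLN_.Hs_eq]
    rw [h1, ofReal_integral_eq_lintegral_ofReal hint
      (Filter.Eventually.of_forall fun _ => by positivity)]
    simp_rw [← PLN_.enorm_sq']
    rw [plancherel hg]
    congr 1
    refine lintegral_congr fun t => ?_
    rw [mellin_Hs, enorm_neg, enorm_mul, mul_pow, PLN_.enorm_sq' (riemannZeta _)]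
    rfl
  · have h1 := plancherel (adm_Fs N (xs N a))
    rw [Fs_sq] at h1
    have h2 : ∀ t : ℝ, mellin (Fs N (xs N a)) (1 / 2 + t * Complex.I) = tr N a t := by
      intro t
      rw [mellin_Fs N (xs N a) (by simp) (by simp; norm_num)]
      rfl
    simp_rw [h2] at h1
    have h3 : ENNReal.ofReal (2 * Real.pi) * ENNReal.ofReal (1 / (2 * Real.pi)) = 1 := by
      rw [← ENNReal.ofReal_mul (by positivity), mul_one_div_cancel (by positivity),
        ENNReal.ofReal_one]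
    have h4 : ∫⁻ t : ℝ, ‖tr N a t‖ₑ ^ 2 = ENNReal.ofReal (2 * Real.pi) *
        ENNReal.ofReal (∑ n ∈ Finset.Icc 1 N, ‖xs N a n‖ ^ 2 * (1 / n - 1 / ((n : ℝ) + 1))) := by
      rw [h1, ← mul_assoc, h3, one_mul]
    rw [h4, ← ENNReal.ofReal_mul (by positivity)]
    refine ENNReal.ofReal_le_ofReal (mul_le_mul_of_nonneg_left ?_ (by positivity))
    rw [xs_sum (fun n z => ‖z‖ ^ 2 * (1 / n - 1 / ((n : ℝ) + 1))) a]
    refine Finset.sum_le_sum fun j _ => ?_
    have h5 : (1 : ℝ) ≤ (((j : ℕ) + 1 : ℕ) : ℝ) := by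
      exact_mod_cast Nat.succ_le_succ (Nat.zero_le _)
    rw [norm_mul, mul_pow, Complex.norm_natCast]
    set x : ℝ := (((j : ℕ) + 1 : ℕ) : ℝ) with hx
    have h6 : x ^ 2 * (1 / x - 1 / (x + 1)) = x / (x + 1) := by
      field_simp
      ring
    have h7 : x / (x + 1) ≤ 1 := by
      rw [div_le_one (by linarith)]
      linarith
    calc ‖a j‖ ^ 2 * x ^ 2 * (1 / x - 1 / (x + 1)) = ‖a j‖ ^ 2 * (x / (x + 1)) := by
          rw [mul_assoc, h6]
      _ ≤ ‖a j‖ ^ 2 * 1 := mul_le_mul_of_nonneg_left h7 (by positivity)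
      _ = ‖a j‖ ^ 2 := mul_one _

end Pool.Agent.NBM
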