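import Pool.Agent.NBM.Targets

set_option autoImplicit false

/-!
# NBM: zeta to the right of the critical line and the local mean square
-/

open MeasureTheory Complex Set Filter Topology
open Pool.Agent.Lib.TwoConst Pool.Agent.Lib.ZetaLine Pool.Agent.Lib.ThickFailure

namespace Pool.Agent.NBM

open Pool.Agent.NBL

namespace PRP_

theorem Z_cont : Continuous Z := by
  unfold Z
  have h : Continuous fun t : ℝ => riemannZeta (1 / 2 + t * I) := by
    rw [continuous_iff_continuousAt]
    intro t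
    have h1 : (1 / 2 + t * I : ℂ) ≠ 1 := by
      intro h
      have := congrArg Complex.re h
      norm_num at this
    exact ContinuousAt.comp (f := fun t : ℝ => (1 / 2 + t * I : ℂ))
      (differentiableAt_riemannZeta h1).continuousAt (by fun_prop)
  exact h.norm

/-- the comparison of `ζ` and `fz` away from the pole -/
theorem ratio_ge {z : ℂ} (hz : 0 ≤ z.re) (hi : 10 ≤ |z.im|) :
    ‖riemannZeta (1 / 2 + z)‖ ≤ 2 * ‖fz z‖ := by
  have h1 : (1 / 2 + z : ℂ) ≠ 1 := by
    intro h
    have h2 := congrArg Complex.im h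
    simp at h2
    rw [h2] at hi
    norm_num at hi
  rw [fz_norm h1]
  have h0 : 0 < ‖(3 / 2 + z : ℂ)‖ := norm_pos_iff.2 (fz_den hz)
  have h2 : 1 / 2 ≤ ‖(-1 / 2 + z : ℂ)‖ / ‖(3 / 2 + z : ℂ)‖ := by
    rw [le_div_iff₀ h0]
    have h3 : ‖(3 / 2 + z : ℂ)‖ ≤ ‖(-1 / 2 + z : ℂ)‖ + 2 := by
      calc ‖(3 / 2 + z : ℂ)‖ = ‖(-1 / 2 + z : ℂ) + 2‖ := by
            congr 1
            ring
        _ ≤ _ := (norm_add_le _ _).trans (by simp)
    have h4 : 10 ≤ ‖(-1 / 2 + z : ℂ)‖ := by
      refine hi.trans ?_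
      have := abs_im_le_norm (-1 / 2 + z : ℂ)
      have e : (-1 / 2 + z : ℂ).im = z.im := by simp
      rwa [e] at this
    linarith
  calc ‖riemannZeta (1 / 2 + z)‖ = 2 * (‖riemannZeta (1 / 2 + z)‖ * (1 / 2)) := by ring
    _ ≤ _ := by gcongr

theorem main (C : ℝ) (hC : 1 ≤ C) (hb : ∀ z : ℂ, 0 ≤ z.re → ‖fz z‖ ≤ C * (2 + ‖z‖)) {T : ℝ}
    (hT : 20 ≤ T) (hl3 : 4 ≤ Real.log T) (hbig : C * (2 + (1 + 2 * Real.log T) +
      (1 + 2 * Real.log T) + 2 * T) ≤ T ^ 2) {u : ℝ} (hu : |u - T| ≤ T / 2) :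
    ‖riemannZeta ((1 / 2 + 1 / Real.log T : ℝ) + u * I)‖ ^ 2 ≤
      (8 * Real.exp 10) * (1 + Real.log T * ∫ v in Icc (u - 1) (u + 1), Z v ^ 2) := by
  have hpi := Real.pi_gt_three
  have hu2 := abs_le.1 hu
  have hT0 : 0 < T := by linarith
  have hu0 : 10 ≤ u := by linarith
  set l : ℝ := Real.log T with hl
  have hl0 : 0 < l := by linarith
  set K : ℝ := 1 + 2 * l with hK
  have hK1 : 1 < K := by rw [hK]; linarith
  set f : ℂ → ℂ := fun z => fz (z + u * I) with hf
  have hre : ∀ z : ℂ, (z + u * I : ℂ).re = z.re := by intro z; simp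
  have hfd : ∀ z : ℂ, 0 ≤ z.re → DifferentiableAt ℂ f z := by
    intro z hz
    have h1 : DifferentiableAt ℂ fz (z + u * I) := fz_diff (by rw [hre]; exact hz)
    exact DifferentiableAt.comp (f := fun z : ℂ => z + u * I) z h1 (by fun_prop)
  have hfl : ∀ t : ℝ, f (t * I) = fz (((t + u : ℝ) : ℂ) * I) := by
    intro t
    simp only [hf]
    congr 1
    push_cast
    ring
  have hfc : Continuous fun t : ℝ => f (t * I) := by
    have h1 : (fun t : ℝ => f (t * I)) = fun t : ℝ => fz (((t + u : ℝ) : ℂ) * I) :=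
      funext hfl
    rw [h1]
    exact fz_cont.comp (by fun_prop : Continuous fun t : ℝ => t + u)
  have hM : ∀ z : ℂ, 0 ≤ z.re → z.re ≤ K → |z.im| ≤ K → ‖f z‖ ≤ T ^ 2 := by
    intro z h1 h2 h3
    refine (hb _ (by rw [hre]; exact h1)).trans (le_trans ?_ hbig)
    apply mul_le_mul_of_nonneg_left _ (by linarith)
    have h4 : ‖z + u * I‖ ≤ ‖z‖ + u := by
      refine (norm_add_le _ _).trans ?_
      rw [norm_mul, norm_I, mul_one, norm_real, Real.norm_of_nonneg (by linarith)]
    have h5 : ‖z‖ ≤ K + K := by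
      refine (norm_le_abs_re_add_abs_im z).trans ?_
      rw [abs_of_nonneg h1]
      linarith
    linarith
  have hT2 : (1 : ℝ) < T ^ 2 := by nlinarith
  have hlog : Real.log (T ^ 2) = 2 * l := by
    rw [Real.log_pow, ← hl]
    norm_num
  obtain ⟨x₀, hx₀, hxa, hmain⟩ := jen (f := f) (L := 1) (K := K) (κ := 1 / (2 * l))
    (a := 1 / l) (M₀ := T ^ 2) (P₀ := 1) one_pos (by positivity) (by positivity)
    (by
      have e : K - 1 = 2 * l := by rw [hK]; ring
      rw [e, div_le_div_iff₀ (by positivity) (by positivity)]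
      nlinarith) hK1 one_pos hT2 hfc (fun z h1 _ _ => hfd z h1) hM
  have hx1 : 1 / l < K := by
    rw [div_lt_iff₀ hl0]
    nlinarith
  have h1 := hmain (1 / l) (by positivity) hx1
  set g : ℝ → ℝ := fun t => (max ‖f (t * I)‖ 1) ^ 2 with hg
  have hgc : Continuous g := (hfc.norm.max continuous_const).pow 2
  have hmax1 : ∀ t : ℝ, 1 ≤ max ‖f (t * I)‖ 1 := fun t => le_max_right _ _
  have hg1 : ∀ t, 1 ≤ g t := fun t => one_le_pow₀ (hmax1 t)
  set x' : ℝ := 1 / l + x₀ with hx'
  have hx'0 : 0 < x' := by positivity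
  have hx'1 : x' ≤ 2 / l := by
    rw [hx']
    have : (2 : ℝ) / l = 1 / l + 1 / l := by ring
    rw [this]
    linarith
  have hx'2 : 1 / l ≤ x' := by rw [hx']; linarith
  have hPc := continuous_P hx'0 0
  set m : ℝ := 1 / Real.pi * ∫ t in (-1 : ℝ)..1, P x' 0 t with hm
  have hm1 : 1 - 2 / l ≤ m := by
    have h2 := IP_ge (x := x') (L := 1) (κ := 2 / l) hx'0 one_pos (by simpa using hx'1)
    rw [hm, one_div_mul_eq_div, le_div_iff₀ Real.pi_pos]
    linarith
  have hm2 : m ≤ 1 := by
    have h2 := integral_P_le hx'0 0 (-1) 1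
    rw [hm, one_div_mul_eq_div, div_le_one Real.pi_pos]
    exact h2
  have hl23 : 2 / l ≤ 2 / 4 := div_le_div_of_nonneg_left (by norm_num) (by norm_num) hl3
  have hW := jensen_w (L := 1) (x' := x') one_pos hx'0 hgc one_pos hg1 (by linarith)
  rw [Real.log_one, mul_zero, sub_zero] at hW
  set W : ℝ := 1 / Real.pi * ∫ t in (-1 : ℝ)..1, g t * P x' 0 t with hWd
  have hPint : IntervalIntegrable (fun t => P x' 0 t) volume (-1) 1 :=
    hPc.intervalIntegrable _ _
  have hlg : ∀ t : ℝ, Real.log (g t) = 2 * Real.log (max ‖f (t * I)‖ 1) := by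
    intro t
    simp only [hg]
    rw [Real.log_pow]
    norm_num
  have hlc : Continuous fun t : ℝ => Real.log (max ‖f (t * I)‖ 1) :=
    Continuous.log (hfc.norm.max continuous_const)
      fun t => (lt_of_lt_of_le one_pos (hmax1 t)).ne'
  -- the integral in `h1`
  have e1 : 1 / Real.pi * ∫ t in (-1 : ℝ)..1,
      (Real.log (T ^ 2) - Real.log (max ‖f (t * I)‖ 1)) * P (1 / l + x₀) 0 t =
      2 * l * m - 1 / Real.pi * ∫ t in (-1 : ℝ)..1,
        Real.log (max ‖f (t * I)‖ 1) * P x' 0 t := by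
    have h2 : ∫ t in (-1 : ℝ)..1,
        (Real.log (T ^ 2) - Real.log (max ‖f (t * I)‖ 1)) * P (1 / l + x₀) 0 t =
        2 * l * (∫ t in (-1 : ℝ)..1, P x' 0 t) -
          ∫ t in (-1 : ℝ)..1, Real.log (max ‖f (t * I)‖ 1) * P x' 0 t := by
      rw [← intervalIntegral.integral_const_mul, ← intervalIntegral.integral_sub]
      · apply intervalIntegral.integral_congr
        intro t _
        simp only
        rw [hlog, ← hx']
        ring
      · exact (continuous_const.mul hPc).intervalIntegrable _ _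
      · exact (hlc.mul hPc).intervalIntegrable _ _
    rw [h2, hm]
    ring
  have e2 : 1 / Real.pi * ∫ t in (-1 : ℝ)..1, Real.log (g t) * P x' 0 t =
      2 * (1 / Real.pi * ∫ t in (-1 : ℝ)..1, Real.log (max ‖f (t * I)‖ 1) * P x' 0 t) := by
    have h2 : ∫ t in (-1 : ℝ)..1, Real.log (g t) * P x' 0 t =
        2 * ∫ t in (-1 : ℝ)..1, Real.log (max ‖f (t * I)‖ 1) * P x' 0 t := by
      rw [← intervalIntegral.integral_const_mul]
      apply intervalIntegral.integral_congr
      intro t _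
      simp only
      rw [hlg]
      ring
    rw [h2]
    ring
  rw [e2] at hW
  set Q : ℝ := 1 / Real.pi * ∫ t in (-1 : ℝ)..1,
    Real.log (max ‖f (t * I)‖ 1) * P x' 0 t with hQ
  have hW0 : 0 < W := by
    have h2 : 1 / Real.pi * ∫ t in (-1 : ℝ)..1, (1 : ℝ) * P x' 0 t ≤ W := by
      rw [hWd]
      apply mul_le_mul_of_nonneg_left _ (by positivity)
      apply intervalIntegral.integral_mono_on (by norm_num)
      · exact (continuous_const.mul hPc).intervalIntegrable _ _
      · exact (hgc.mul hPc).intervalIntegrable _ _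
      · intro t _
        exact mul_le_mul_of_nonneg_right (hg1 t) (P_nonneg hx'0.le 0 t)
    simp only [one_mul] at h2
    have h3 : 0 < m := by linarith
    rw [hm] at h3
    linarith
  -- the bound for `f`
  have hf1 : ‖f ((1 / l : ℝ) : ℂ)‖ ≤ Real.exp (5 + Q) := by
    have h2 : (Real.log (T ^ 2) - Real.log 1) * (1 / (2 * l)) = 1 := by
      rw [hlog, Real.log_one, sub_zero]
      field_simp
    rw [e1, h2] at h1
    have h3 : ‖f ((1 / l : ℝ) : ℂ)‖ ≤ T ^ 2 * Real.exp 1 * Real.exp (-(2 * l * m - Q)) := by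
      rw [Real.exp_neg, ← div_eq_mul_inv, le_div_iff₀ (Real.exp_pos _)]
      exact h1
    refine h3.trans ?_
    have h4 : T ^ 2 = Real.exp (2 * l) := by
      rw [← hlog, Real.exp_log (by positivity)]
    rw [h4, ← Real.exp_add, ← Real.exp_add]
    apply Real.exp_le_exp.2
    have h5 : 2 * l * (1 - m) ≤ 4 := by
      calc 2 * l * (1 - m) ≤ 2 * l * (2 / l) :=
            mul_le_mul_of_nonneg_left (by linarith) (by positivity)
        _ = 4 := by field_simp; norm_num
    linarith
  have hf2 : ‖f ((1 / l : ℝ) : ℂ)‖ ^ 2 ≤ Real.exp 10 * (2 * W) := by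
    calc ‖f ((1 / l : ℝ) : ℂ)‖ ^ 2 ≤ Real.exp (5 + Q) ^ 2 :=
          pow_le_pow_left₀ (norm_nonneg _) hf1 2
      _ = Real.exp 10 * Real.exp (2 * Q) := by
          rw [← Real.exp_nat_mul, ← Real.exp_add]
          congr 1
          push_cast
          ring
      _ ≤ Real.exp 10 * Real.exp (Real.log W + Real.log 2) := by
          gcongr
      _ = Real.exp 10 * (2 * W) := by
          rw [Real.exp_add, Real.exp_log hW0, Real.exp_log (by norm_num)]
          ring
  -- the mean square
  have hZc : Continuous fun t : ℝ => Z (t + u) ^ 2 :=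
    (Z_cont.comp (by fun_prop : Continuous fun t : ℝ => t + u)).pow 2
  have hW2 : W ≤ 1 + l * ∫ t in (-1 : ℝ)..1, Z (t + u) ^ 2 := by
    have h2 : ∫ t in (-1 : ℝ)..1, g t * P x' 0 t ≤
        ∫ t in (-1 : ℝ)..1, (P x' 0 t + l * Z (t + u) ^ 2) := by
      apply intervalIntegral.integral_mono_on (by norm_num)
      · exact (hgc.mul hPc).intervalIntegrable _ _
      · exact (hPc.add (continuous_const.mul hZc)).intervalIntegrable _ _
      · intro t _
        have h3 : g t ≤ 1 + Z (t + u) ^ 2 := by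
          simp only [hg]
          have h4 : ‖f (t * I)‖ ≤ Z (t + u) := by
            rw [hfl]
            exact fz_line _
          rcases le_total ‖f (t * I)‖ 1 with h5 | h5
          · rw [max_eq_right h5]
            nlinarith [sq_nonneg (Z (t + u))]
          · rw [max_eq_left h5]
            have := pow_le_pow_left₀ (norm_nonneg _) h4 2
            linarith
        have h6 : P x' 0 t ≤ l := by
          unfold P
          rw [div_le_iff₀ (by positivity)]
          have h7 : 1 ≤ l * x' := by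
            rw [div_le_iff₀ hl0] at hx'2
            linarith
          have h8 : x' * 1 ≤ x' * (l * x') := mul_le_mul_of_nonneg_left h7 hx'0.le
          have h9 : 0 ≤ l * (0 - t) ^ 2 := by positivity
          nlinarith
        have h10 := P_nonneg hx'0.le 0 t
        calc g t * P x' 0 t ≤ (1 + Z (t + u) ^ 2) * P x' 0 t :=
              mul_le_mul_of_nonneg_right h3 h10
          _ = P x' 0 t + P x' 0 t * Z (t + u) ^ 2 := by ring
          _ ≤ _ := by
              have := mul_le_mul_of_nonneg_right h6 (sq_nonneg (Z (t + u)))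
              linarith
    have hZi : IntervalIntegrable (fun t => l * Z (t + u) ^ 2) volume (-1) 1 :=
      (continuous_const.mul hZc).intervalIntegrable _ _
    rw [intervalIntegral.integral_add hPint hZi, intervalIntegral.integral_const_mul] at h2
    have h11 : 0 ≤ ∫ t in (-1 : ℝ)..1, Z (t + u) ^ 2 :=
      intervalIntegral.integral_nonneg (by norm_num) fun t _ => by positivity
    rw [hWd]
    have h12 : 1 / Real.pi ≤ 1 := by
      rw [div_le_one Real.pi_pos]
      linarith
    calc 1 / Real.pi * ∫ t in (-1 : ℝ)..1, g t * P x' 0 t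
        ≤ 1 / Real.pi * ((∫ t in (-1 : ℝ)..1, P x' 0 t) +
          l * ∫ t in (-1 : ℝ)..1, Z (t + u) ^ 2) :=
          mul_le_mul_of_nonneg_left h2 (by positivity)
      _ = m + 1 / Real.pi * (l * ∫ t in (-1 : ℝ)..1, Z (t + u) ^ 2) := by
          rw [hm]
          ring
      _ ≤ 1 + 1 * (l * ∫ t in (-1 : ℝ)..1, Z (t + u) ^ 2) := by
          apply add_le_add hm2
          exact mul_le_mul_of_nonneg_right h12 (by positivity)
      _ = _ := by ring
  have e3 : ∫ t in (-1 : ℝ)..1, Z (t + u) ^ 2 = ∫ v in Icc (u - 1) (u + 1), Z v ^ 2 := by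
    rw [intervalIntegral.integral_comp_add_right (fun v => Z v ^ 2) u,
      integral_Icc_eq_integral_Ioc, ← intervalIntegral.integral_of_le (by linarith)]
    congr 1
    · ring
    · ring
  rw [e3] at hW2
  -- zeta and `f`
  have e4 : ‖riemannZeta ((1 / 2 + 1 / l : ℝ) + u * I)‖ ≤ 2 * ‖f ((1 / l : ℝ) : ℂ)‖ := by
    have h2 := ratio_ge (z := ((1 / l : ℝ) : ℂ) + u * I) (by simp; positivity)
      (by
        have : (((1 / l : ℝ) : ℂ) + u * I).im = u := by simp
        rw [this, abs_of_pos (by linarith)]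
        exact hu0)
    have h3 : ((1 / 2 + 1 / l : ℝ) : ℂ) + u * I = 1 / 2 + (((1 / l : ℝ) : ℂ) + u * I) := by
      push_cast
      ring
    rw [h3]
    exact h2
  calc ‖riemannZeta ((1 / 2 + 1 / l : ℝ) + u * I)‖ ^ 2 ≤ (2 * ‖f ((1 / l : ℝ) : ℂ)‖) ^ 2 :=
        pow_le_pow_left₀ (norm_nonneg _) e4 2
    _ = 4 * ‖f ((1 / l : ℝ) : ℂ)‖ ^ 2 := by ring
    _ ≤ 4 * (Real.exp 10 * (2 * W)) := by gcongr
    _ = 8 * Real.exp 10 * W := by ring
    _ ≤ _ := mul_le_mul_of_nonneg_left hW2 (by positivity)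

end PRP_

open PRP_ in
theorem p_PRP : T_PRP := by
  obtain ⟨C, hC, hb⟩ := fz_bound
  have t1 : Tendsto (fun T : ℝ => Real.log T) atTop atTop := Real.tendsto_log_atTop
  obtain ⟨T₁, hT₁⟩ := eventually_atTop.1 (t1.eventually_ge_atTop 4)
  refine ⟨8 * Real.exp 10, max (max 20 T₁) (10 * C), ?_, ?_, ?_⟩
  · have := Real.one_le_exp (show (0 : ℝ) ≤ 10 by norm_num)
    linarith
  · exact (le_max_left _ _).trans (le_max_left _ _)
  · intro T hT u hu
    have h20 : 20 ≤ T := (le_max_left _ _).trans ((le_max_left _ _).trans hT)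
    have h3 : 4 ≤ Real.log T := hT₁ T ((le_max_right _ _).trans ((le_max_left _ _).trans hT))
    have hC10 : 10 * C ≤ T := (le_max_right _ _).trans hT
    refine main C hC hb h20 h3 ?_ hu
    have h4 : Real.log T ≤ T - 1 := Real.log_le_sub_one_of_pos (by linarith)
    calc C * (2 + (1 + 2 * Real.log T) + (1 + 2 * Real.log T) + 2 * T) ≤ C * (10 * T) := by
          apply mul_le_mul_of_nonneg_left _ (by linarith)
          linarith
      _ = 10 * C * T := by ring
      _ ≤ T * T := mul_le_mul_of_nonneg_right hC10 (by linarith)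
      _ = T ^ 2 := by ring

end Pool.Agent.NBM
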