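import Pool.Agent.NBM.Targets

set_option autoImplicit false

/-!
# NBM: the target `T_SPE`
-/

open MeasureTheory Complex Set Filter Topology
open scoped ENNReal InnerProductSpace ComplexConjugate

namespace Pool.Agent.NBM

open Pool.Agent.NBL

namespace SPE_

/-- the functions, complex valued -/
noncomputable def g (N : ℕ) (i : Fin N) (t : ℝ) : ℂ :=
  (((((i : ℕ) + 1 : ℕ) : ℝ) * h (i + 1) t : ℝ) : ℂ)

lemma gadm (N : ℕ) (i : Fin N) : Adm (g N i) := adm_g (n := i + 1) (by omega)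

/-- the trace of a matrix in any orthonormal basis -/
lemma trace_lin {N : ℕ} (A : Matrix (Fin N) (Fin N) ℂ) :
    LinearMap.trace ℂ _ A.toEuclideanLin = A.trace := by
  rw [Matrix.toEuclideanLin, Matrix.toLpLin_eq_toLin]
  exact Matrix.trace_toLin_eq A _

lemma gram (N : ℕ) : (Matrix.of fun i j => ∫ t in Ioi (0 : ℝ), conj (g N i t) * g N j t) =
    (G N).map (algebraMap ℝ ℂ) := by
  ext i j
  rw [Matrix.map_apply, G, Matrix.of_apply, Matrix.of_apply]
  change _ = ((∫ t in Ioi (0 : ℝ), _ : ℝ) : ℂ)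
  rw [← integral_complex_ofReal]
  refine integral_congr_ae (Eventually.of_forall fun t => ?_)
  simp only [g]
  rw [conj_ofReal]
  push_cast
  rfl

end SPE_

open SPE_

theorem p_SPE : T_SPE := by
  intro N
  have hg : ∀ i, Adm (g N i) := gadm N
  set G' : Matrix (Fin N) (Fin N) ℂ :=
    Matrix.of fun i j => ∫ t in Ioi (0 : ℝ), conj (g N i t) * g N j t with hG
  have hH : G'.IsHermitian := by
    ext i j
    rw [Matrix.conjTranspose_apply, hG, Matrix.of_apply, Matrix.of_apply]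
    change conj (∫ t in Ioi (0 : ℝ), conj (g N j t) * g N i t) = _
    rw [← integral_conj]
    refine integral_congr_ae (Eventually.of_forall fun t => ?_)
    simp only [map_mul, conj_conj]
    ring
  have hT := Matrix.isSymmetric_toEuclideanLin_iff.2 hH
  set T := G'.toEuclideanLin with hTd
  have hn : Module.finrank ℂ (EuclideanSpace ℂ (Fin N)) = N := by simp
  set v := hT.eigenvectorBasis hn with hv
  set lam := hT.eigenvalues hn with hlam
  have hq : ∀ a : EuclideanSpace ℂ (Fin N), ((Qf N a : ℝ) : ℂ) = ⟪a, T a⟫_ℂ := by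
    intro a
    have hQ : Qf N a = ∫ t in Ioi (0 : ℝ), ‖∑ j, a j * g N j t‖ ^ 2 := rfl
    rw [hQ, quad_int hg (fun j => a j), PiLp.inner_apply]
    refine Finset.sum_congr rfl fun i _ => ?_
    have : (T a) i = ∑ j, (∫ t in Ioi (0 : ℝ), conj (g N i t) * g N j t) * a j := by
      rw [hTd]
      rfl
    rw [this]
    rw [mul_comm]
    rfl
  have hq2 : ∀ a : EuclideanSpace ℂ (Fin N), Qf N a = ∑ i, lam i * ‖⟪v i, a⟫_ℂ‖ ^ 2 := by
    intro a
    have h1 := hq a
    have h2 : ⟪a, T a⟫_ℂ = ((∑ i, lam i * ‖⟪v i, a⟫_ℂ‖ ^ 2 : ℝ) : ℂ) := by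
      rw [← v.sum_inner_mul_inner a (T a)]
      push_cast
      refine Finset.sum_congr rfl fun i _ => ?_
      have h3 : ⟪v i, T a⟫_ℂ = (lam i : ℂ) * ⟪v i, a⟫_ℂ := by
        rw [← hT (v i) a, hv, hT.apply_eigenvectorBasis hn i, inner_smul_left]
        rw [hlam]
        simp
      rw [h3, ← inner_conj_symm a (v i)]
      have h4 : conj ⟪v i, a⟫_ℂ * ⟪v i, a⟫_ℂ = ((‖⟪v i, a⟫_ℂ‖ ^ 2 : ℝ) : ℂ) := by
        rw [← normSq_eq_conj_mul_self, normSq_eq_norm_sq]
      calc conj ⟪v i, a⟫_ℂ * ((lam i : ℂ) * ⟪v i, a⟫_ℂ) =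
            (lam i : ℂ) * (conj ⟪v i, a⟫_ℂ * ⟪v i, a⟫_ℂ) := by ring
        _ = (lam i : ℂ) * (‖⟪v i, a⟫_ℂ‖ : ℂ) ^ 2 := by
            rw [h4]
            push_cast
            rfl
    rw [h2] at h1
    exact_mod_cast h1
  refine ⟨v, lam, fun i => ?_, hq2, fun k => ?_⟩
  · have h1 := hq2 (v i)
    have h2 : ∑ j, lam j * ‖⟪v j, v i⟫_ℂ‖ ^ 2 = lam i := by
      rw [Finset.sum_eq_single i]
      · rw [OrthonormalBasis.inner_eq_one]
        simp
      · intro j _ hj
        rw [OrthonormalBasis.inner_eq_zero _ hj]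
        simp
      · intro hi
        exact absurd (Finset.mem_univ i) hi
    rw [h2] at h1
    rw [← h1]
    exact integral_nonneg fun t => by positivity
  · have h1 : LinearMap.trace ℂ _ (T ^ k) = (((G N) ^ k).trace : ℂ) := by
      have e1 : T ^ k = (G' ^ k).toEuclideanLin := (Matrix.toLpLin_pow 2 G' k).symm
      rw [e1, trace_lin, hG, gram, ← Matrix.map_pow, ← AddMonoidHom.map_trace]
      rfl
    have h2 : ∀ (k : ℕ) (i : Fin N), (T ^ k) (v i) = ((lam i : ℂ) ^ k) • v i := by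
      intro k i
      induction k with
      | zero => simp
      | succ k ih =>
        rw [pow_succ', Module.End.mul_apply, ih, map_smul, hv, hT.apply_eigenvectorBasis hn i,
          smul_smul, pow_succ]
        rfl
    have h3 : LinearMap.trace ℂ _ (T ^ k) = ∑ i, (lam i : ℂ) ^ k := by
      rw [LinearMap.trace_eq_sum_inner _ v]
      refine Finset.sum_congr rfl fun i _ => ?_
      rw [h2, inner_smul_right, OrthonormalBasis.inner_eq_one, mul_one]
    rw [h1] at h3
    exact_mod_cast h3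

end Pool.Agent.NBM
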