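import Pool.Agent.NBM.Targets

/-!
# NBM: TRI, the trivial moment bound (MP_4e5e8a_nt)
-/

set_option autoImplicit false

open MeasureTheory Set

namespace Pool.Agent.NBM

open Pool.Agent.NBL

namespace TRI_

theorem cont_Z : Continuous Z := Pool.Agent.Lib.ThickFailure.continuous_zeta_line.norm

theorem Z_nonneg (t : ℝ) : 0 ≤ Z t := norm_nonneg _

theorem ms_nat {N : ℕ} (hN : 1 ≤ N) :
    ∫ t in (-(N : ℝ))..N, Z t ^ 2 ≤ 480 * Real.pi * N * (1 + Real.log N) := mean_sq_int hN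

/-- the mean square up to height `x` -/
theorem ms {δ : ℝ} (hδ : 0 < δ) : ∃ A : ℝ, 0 ≤ A ∧ ∀ x : ℝ, 1 ≤ x →
    ∫ t in Icc (-x) x, Z t ^ 2 ≤ A * x ^ (1 + δ) := by
  refine ⟨960 * Real.pi * (1 + 2 ^ δ / δ), by positivity, ?_⟩
  intro x hx
  have hx0 : 0 < x := by linarith
  obtain ⟨N, hN⟩ : ∃ N : ℕ, N = ⌈x⌉₊ := ⟨_, rfl⟩
  have hxN : x ≤ N := by rw [hN]; exact Nat.le_ceil x
  have hN2 : (N : ℝ) ≤ 2 * x := by
    have := Nat.ceil_lt_add_one hx0.le
    rw [← hN] at this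
    linarith
  have hN1' : (1 : ℝ) ≤ N := by linarith
  have hN1 : 1 ≤ N := by exact_mod_cast hN1'
  have hc : Continuous fun t : ℝ => Z t ^ 2 := cont_Z.pow 2
  have h1 : ∫ t in Icc (-x) x, Z t ^ 2 ≤ ∫ t in Icc (-(N : ℝ)) N, Z t ^ 2 := by
    apply setIntegral_mono_set hc.continuousOn.integrableOn_Icc
    · exact Filter.Eventually.of_forall fun t => by positivity
    · exact (Icc_subset_Icc (by linarith) hxN).eventuallyLE
  have h2 := ms_nat hN1
  rw [intervalIntegral.integral_of_le (by linarith), ← integral_Icc_eq_integral_Ioc] at h2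
  refine h1.trans (h2.trans ?_)
  have hlog : Real.log N ≤ (2 * x) ^ δ / δ :=
    (Real.log_le_log (by linarith) hN2).trans (Real.log_le_rpow_div (by linarith) hδ)
  rw [Real.mul_rpow (by norm_num) hx0.le] at hlog
  have hxδ : 1 ≤ x ^ δ := Real.one_le_rpow hx hδ.le
  have h3 : 1 + Real.log N ≤ (1 + 2 ^ δ / δ) * x ^ δ := by
    have h4 : (1 + (2 : ℝ) ^ δ / δ) * x ^ δ = x ^ δ + 2 ^ δ * x ^ δ / δ := by ring
    rw [h4]
    linarith
  have hl0 : 0 ≤ 1 + Real.log N := by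
    have := Real.log_nonneg hN1'
    linarith
  calc 480 * Real.pi * N * (1 + Real.log N)
      ≤ 480 * Real.pi * (2 * x) * ((1 + 2 ^ δ / δ) * x ^ δ) := by
        apply mul_le_mul _ h3 hl0 (by positivity)
        exact mul_le_mul_of_nonneg_left hN2 (by positivity)
    _ = 960 * Real.pi * (1 + 2 ^ δ / δ) * x ^ (1 + δ) := by
        rw [Real.rpow_add hx0, Real.rpow_one]
        ring

/-- the pointwise bound -/
theorem pt (hPMX : T_PMX) {δ : ℝ} (hδ : 0 < δ) : ∃ D : ℝ, 0 ≤ D ∧ ∀ T : ℝ, 1 ≤ T →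
    ∀ t ∈ Icc (0 : ℝ) T, Z t ^ 2 ≤ D * T ^ (1 + 2 * δ) := by
  obtain ⟨A, hA0, hA⟩ := ms hδ
  obtain ⟨C, T₀, hC, hT₀, hP⟩ := hPMX
  have hC0 : 0 ≤ C := by linarith
  have hc : Continuous fun t : ℝ => Z t ^ 2 := cont_Z.pow 2
  obtain ⟨B, hB⟩ := (isCompact_Icc (a := (0 : ℝ)) (b := T₀)).exists_bound_of_continuousOn
    hc.continuousOn
  obtain ⟨D₁, hD₁⟩ : ∃ D₁ : ℝ, D₁ = C / δ * (1 + A * 3 ^ (1 + δ)) := ⟨_, rfl⟩
  have hD₁0 : 0 ≤ D₁ := by rw [hD₁]; positivity
  refine ⟨max D₁ B, le_trans hD₁0 (le_max_left _ _), ?_⟩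
  intro T hT t ht
  have hTp : 1 ≤ T ^ (1 + 2 * δ) := Real.one_le_rpow hT (by linarith)
  by_cases h : t ≤ T₀
  · have h1 : ‖Z t ^ 2‖ ≤ B := hB t ⟨ht.1, h⟩
    rw [Real.norm_of_nonneg (by positivity)] at h1
    have hB0 : 0 ≤ B := le_trans (by positivity) h1
    calc Z t ^ 2 ≤ B := h1
      _ ≤ max D₁ B := le_max_right _ _
      _ ≤ max D₁ B * T ^ (1 + 2 * δ) :=
        le_mul_of_one_le_right (le_trans hD₁0 (le_max_left _ _)) hTp
  · rw [not_le] at h
    have ht1 : 1 ≤ t := by linarith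
    have ht0 : 0 < t := by linarith
    have hlog0 : 0 ≤ Real.log t := Real.log_nonneg ht1
    have hlogt : Real.log t ≤ t := by
      have := Real.log_le_sub_one_of_pos ht0
      linarith
    have h2 : ∫ v in Icc (t - 2 * Real.log t) (t + 2 * Real.log t), Z v ^ 2 ≤
        ∫ v in Icc (-(3 * t)) (3 * t), Z v ^ 2 := by
      apply setIntegral_mono_set hc.continuousOn.integrableOn_Icc
      · exact Filter.Eventually.of_forall fun t => by positivity
      · exact (Icc_subset_Icc (by linarith) (by linarith)).eventuallyLE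
    have h3 := hA (3 * t) (by linarith)
    rw [Real.mul_rpow (by norm_num) ht0.le] at h3
    have h4 := hP t h.le
    have h5 : Real.log t ≤ t ^ δ / δ := Real.log_le_rpow_div ht0.le hδ
    have htδ : 1 ≤ t ^ (1 + δ) := Real.one_le_rpow ht1 (by linarith)
    have hint0 : 0 ≤ ∫ v in Icc (t - 2 * Real.log t) (t + 2 * Real.log t), Z v ^ 2 :=
      integral_nonneg fun v => by positivity
    calc Z t ^ 2 ≤ C * Real.log t *
          (1 + ∫ v in Icc (t - 2 * Real.log t) (t + 2 * Real.log t), Z v ^ 2) := h4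
      _ ≤ C * (t ^ δ / δ) * (t ^ (1 + δ) + A * (3 ^ (1 + δ) * t ^ (1 + δ))) := by
          apply mul_le_mul
          · exact mul_le_mul_of_nonneg_left h5 (by linarith)
          · linarith
          · linarith
          · positivity
      _ = D₁ * (t ^ δ * t ^ (1 + δ)) := by
          rw [hD₁]
          ring
      _ = D₁ * t ^ (1 + 2 * δ) := by
          rw [← Real.rpow_add ht0]
          congr 2
          ring
      _ ≤ max D₁ B * T ^ (1 + 2 * δ) := by
          apply mul_le_mul (le_max_left _ _) _ (by positivity)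
            (le_trans hD₁0 (le_max_left _ _))
          exact Real.rpow_le_rpow ht0.le ht.2 (by linarith)

end TRI_

theorem p_TRI (hPMX : T_PMX) : T_TRI := by
  intro k hk ε hε
  have hk0 : (0 : ℝ) < k := by exact_mod_cast hk
  obtain ⟨δ, hδ⟩ : ∃ δ : ℝ, δ = ε / (2 * k) := ⟨_, rfl⟩
  have hδ0 : 0 < δ := by rw [hδ]; positivity
  have hδε : 2 * (k : ℝ) * δ = ε := by rw [hδ]; field_simp
  obtain ⟨A, hA0, hA⟩ := TRI_.ms hδ0
  obtain ⟨D, hD0, hD⟩ := TRI_.pt hPMX hδ0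
  refine ⟨D ^ (k - 1) * A, ?_⟩
  intro T hT
  have hT0 : 0 < T := by linarith
  have hc : Continuous fun t : ℝ => Z t ^ 2 := TRI_.cont_Z.pow 2
  have hc2 : Continuous fun t : ℝ => Z t ^ (2 * k) := TRI_.cont_Z.pow _
  have h1 : ∫ t in (0 : ℝ)..T, Z t ^ (2 * k) ≤
      ∫ t in (0 : ℝ)..T, (D * T ^ (1 + 2 * δ)) ^ (k - 1) * Z t ^ 2 := by
    apply intervalIntegral.integral_mono_on hT0.le (hc2.intervalIntegrable _ _)
      ((hc.const_mul _).intervalIntegrable _ _)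
    intro t ht
    have e : Z t ^ (2 * k) = (Z t ^ 2) ^ (k - 1) * Z t ^ 2 := by
      rw [← pow_succ, Nat.sub_add_cancel hk, ← pow_mul]
    rw [e]
    apply mul_le_mul_of_nonneg_right _ (by positivity)
    exact pow_le_pow_left₀ (by positivity) (hD T hT t ht) _
  rw [intervalIntegral.integral_const_mul] at h1
  have h2 : ∫ t in (0 : ℝ)..T, Z t ^ 2 ≤ A * T ^ (1 + δ) := by
    rw [intervalIntegral.integral_of_le hT0.le, ← integral_Icc_eq_integral_Ioc]
    refine le_trans ?_ (hA T hT)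
    apply setIntegral_mono_set hc.continuousOn.integrableOn_Icc
    · exact Filter.Eventually.of_forall fun t => by positivity
    · exact (Icc_subset_Icc (by linarith) le_rfl).eventuallyLE
  have h3 : 0 ≤ (D * T ^ (1 + 2 * δ)) ^ (k - 1) := by positivity
  refine h1.trans ((mul_le_mul_of_nonneg_left h2 h3).trans ?_)
  rw [mul_pow, ← Real.rpow_natCast (T ^ (1 + 2 * δ)), ← Real.rpow_mul hT0.le]
  have e2 : D ^ (k - 1) * T ^ ((1 + 2 * δ) * ((k - 1 : ℕ) : ℝ)) * (A * T ^ (1 + δ)) =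
      D ^ (k - 1) * A * T ^ ((1 + 2 * δ) * ((k - 1 : ℕ) : ℝ) + (1 + δ)) := by
    rw [Real.rpow_add hT0 ((1 + 2 * δ) * ((k - 1 : ℕ) : ℝ)) (1 + δ)]
    ring
  rw [e2]
  apply mul_le_mul_of_nonneg_left _ (by positivity)
  apply Real.rpow_le_rpow_of_exponent_le hT
  rw [Nat.cast_sub hk]
  push_cast
  nlinarith

end Pool.Agent.NBM
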