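import Pool.Agent.NBM.Targets

set_option autoImplicit false

/-!
# NBM, block UBF: bounds for moments give bounds for traces
-/

open MeasureTheory Set
open scoped InnerProductSpace

namespace Pool.Agent.NBM

open Pool.Agent.NBL

namespace UBF_

theorem Z_cont : Continuous Z := by
  have h1 : ∀ t : ℝ, (1 / 2 + t * Complex.I : ℂ) ≠ 1 := by
    intro t h
    have h2 := congrArg Complex.re h
    simp at h2
  rw [continuous_iff_continuousAt]
  intro t
  have h2 : ContinuousAt (fun t : ℝ => (1 / 2 + t * Complex.I : ℂ)) t := by fun_prop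
  have h3 : ContinuousAt riemannZeta (1 / 2 + t * Complex.I : ℂ) :=
    (differentiableAt_riemannZeta (h1 t)).continuousAt
  exact (ContinuousAt.comp (f := fun t : ℝ => (1 / 2 + t * Complex.I : ℂ)) h3 h2).norm

theorem Z_nonneg (t : ℝ) : 0 ≤ Z t := norm_nonneg _

/-- the moment over a symmetric interval -/
theorem sym {k : ℕ} {C e : ℝ}
    (hZ : ∀ t : ℝ, Z (-t) = Z t)
    (hC : ∀ T : ℝ, 1 ≤ T → ∫ t in (0 : ℝ)..T, Z t ^ (2 * k) ≤ C * T ^ e) (T : ℝ) (hT : 1 ≤ T) :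
    ∫⁻ t in Icc (-T) T, ENNReal.ofReal (Z t ^ (2 * k)) ≤ ENNReal.ofReal (2 * (C * T ^ e)) := by
  have hc : Continuous fun t : ℝ => Z t ^ (2 * k) := Z_cont.pow _
  have hi : IntegrableOn (fun t : ℝ => Z t ^ (2 * k)) (Icc (-T) T) := hc.integrableOn_Icc
  rw [← ofReal_integral_eq_lintegral_ofReal hi
    (Filter.Eventually.of_forall fun t => pow_nonneg (Z_nonneg t) _)]
  apply ENNReal.ofReal_le_ofReal
  rw [integral_Icc_eq_integral_Ioc, ← intervalIntegral.integral_of_le (by linarith),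
    ← intervalIntegral.integral_add_adjacent_intervals (b := 0)
      (hc.intervalIntegrable _ _) (hc.intervalIntegrable _ _)]
  have h1 : ∫ t in (-T)..0, Z t ^ (2 * k) = ∫ t in (0 : ℝ)..T, Z t ^ (2 * k) := by
    have h2 := intervalIntegral.integral_comp_neg (a := 0) (b := T)
      (fun t : ℝ => Z t ^ (2 * k))
    rw [neg_zero] at h2
    rw [← h2]
    simp only [hZ]
  rw [h1]
  linarith [hC T hT]

/-- the weight at a point -/
theorem point (hKRB : T_KRB) {N k : ℕ} (hN : 1 ≤ N) (hk : 1 ≤ k) {β : ℝ} (h0 : 0 ≤ β)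
    (h1 : β < 1) (t : ℝ) : ∃ j : ℕ, |t| ≤ 2 ^ j * N ∧
    kr N t * om N β t ^ (-((k : ℝ) - 1)) ≤
      (1 + Real.log N) * (8 * 2 ^ k) * ((2 : ℝ) ^ (-(2 + β * ((k : ℝ) - 1)))) ^ j := by
  have hNR : (1 : ℝ) ≤ N := by exact_mod_cast hN
  have hkR : (1 : ℝ) ≤ k := by exact_mod_cast hk
  have hlog : 0 ≤ Real.log N := Real.log_nonneg hNR
  have hN0 : (0 : ℝ) < N := by linarith
  rcases le_or_gt |t| N with ht | ht
  · refine ⟨0, by rw [pow_zero, one_mul]; exact ht, ?_⟩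
    have h2 : om N β t = 1 := by
      unfold om
      rw [max_eq_left (by rw [div_le_one hN0]; exact ht), Real.one_rpow]
    rw [h2, Real.one_rpow, mul_one, pow_zero, mul_one]
    have h3 : (1 : ℝ) ≤ 8 * 2 ^ k := by
      have : (1 : ℝ) ≤ 2 ^ k := one_le_pow₀ (by norm_num)
      linarith
    calc kr N t ≤ (1 + Real.log N) * 1 := by rw [mul_one]; exact (hKRB N hN t).1
      _ ≤ (1 + Real.log N) * (8 * 2 ^ k) := mul_le_mul_of_nonneg_left h3 (by linarith)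
  · have hex : ∃ j : ℕ, |t| ≤ 2 ^ j * N := by
      obtain ⟨j, hj⟩ := pow_unbounded_of_one_lt |t| (by norm_num : (1 : ℝ) < 2)
      refine ⟨j, hj.le.trans ?_⟩
      have : (0 : ℝ) < 2 ^ j := by positivity
      nlinarith
    obtain ⟨m, hm⟩ : ∃ m, Nat.find hex = m + 1 := by
      have : Nat.find hex ≠ 0 := by
        intro h
        have h2 := Nat.find_spec hex
        rw [h, pow_zero, one_mul] at h2
        linarith
      exact Nat.exists_eq_succ_of_ne_zero this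
    have hm1 : |t| ≤ 2 ^ (m + 1) * N := by
      rw [← hm]
      exact Nat.find_spec hex
    have hm2 : 2 ^ m * (N : ℝ) < |t| := by
      have := Nat.find_min hex (m := m) (by omega)
      exact not_le.1 this
    refine ⟨m + 1, hm1, ?_⟩
    have h2m : (0 : ℝ) < 2 ^ m := by positivity
    have ht0 : t ≠ 0 := by
      intro h
      rw [h, abs_zero] at ht
      linarith
    have hkr : kr N t ≤ 4 * ((2 : ℝ) ^ m)⁻¹ ^ 2 := by
      refine ((hKRB N hN t).2 ht0).trans ?_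
      have h3 : (2 ^ m * (N : ℝ)) ^ 2 ≤ t ^ 2 := by
        rw [← sq_abs t]
        exact pow_le_pow_left₀ (by positivity) hm2.le 2
      rw [div_le_iff₀ (by positivity)]
      calc 4 * (N : ℝ) ^ 2 = 4 * ((2 : ℝ) ^ m)⁻¹ ^ 2 * (2 ^ m * (N : ℝ)) ^ 2 := by
            field_simp
        _ ≤ _ := mul_le_mul_of_nonneg_left h3 (by positivity)
    have hom : om N β t ^ (-((k : ℝ) - 1)) ≤ ((2 : ℝ) ^ m) ^ (-(β * ((k : ℝ) - 1))) := by
      have h4 : ((2 : ℝ) ^ m) ^ β ≤ om N β t := by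
        unfold om
        apply Real.rpow_le_rpow h2m.le _ h0
        refine le_trans ?_ (le_max_right _ _)
        rw [le_div_iff₀ hN0]
        exact hm2.le
      have h5 := Real.rpow_le_rpow_of_nonpos (Real.rpow_pos_of_pos h2m β) h4
        (show -((k : ℝ) - 1) ≤ 0 by linarith)
      refine h5.trans (le_of_eq ?_)
      rw [← Real.rpow_mul h2m.le]
      congr 1
      ring
    have hom0 : 0 ≤ om N β t ^ (-((k : ℝ) - 1)) := by
      apply Real.rpow_nonneg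
      unfold om
      positivity
    have h6 : 4 * ((2 : ℝ) ^ m)⁻¹ ^ 2 * ((2 : ℝ) ^ m) ^ (-(β * ((k : ℝ) - 1))) ≤
        8 * 2 ^ k * ((2 : ℝ) ^ (-(2 + β * ((k : ℝ) - 1)))) ^ (m + 1) := by
      have e1 : ((2 : ℝ) ^ m)⁻¹ ^ 2 = (2 : ℝ) ^ (-(2 * (m : ℝ))) := by
        rw [Real.rpow_neg (by norm_num), inv_pow, ← pow_mul, mul_comm m 2,
          ← Real.rpow_natCast 2 (2 * m)]
        push_cast
        rfl
      have e2 : ((2 : ℝ) ^ m) ^ (-(β * ((k : ℝ) - 1))) =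
          (2 : ℝ) ^ ((m : ℝ) * (-(β * ((k : ℝ) - 1)))) := by
        rw [← Real.rpow_natCast 2 m, ← Real.rpow_mul (by norm_num)]
      have e3 : ((2 : ℝ) ^ (-(2 + β * ((k : ℝ) - 1)))) ^ (m + 1) =
          (2 : ℝ) ^ (-(2 + β * ((k : ℝ) - 1)) * ((m : ℝ) + 1)) := by
        rw [← Real.rpow_natCast _ (m + 1), ← Real.rpow_mul (by norm_num)]
        push_cast
        rfl
      have e4 : (8 : ℝ) * 2 ^ k = (2 : ℝ) ^ ((k : ℝ) + 3) := by
        rw [Real.rpow_add (by norm_num), Real.rpow_natCast]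
        norm_num
        ring
      have e5 : (4 : ℝ) = (2 : ℝ) ^ (2 : ℝ) := by norm_num
      rw [e1, e2, e3, e4]
      nth_rewrite 1 [e5]
      rw [← Real.rpow_add (by norm_num), ← Real.rpow_add (by norm_num),
        ← Real.rpow_add (by norm_num)]
      apply Real.rpow_le_rpow_of_exponent_le (by norm_num)
      have h7 : β * ((k : ℝ) - 1) ≤ (k : ℝ) - 1 := by
        have : 0 ≤ (k : ℝ) - 1 := by linarith
        nlinarith
      nlinarith
    have h8 : (0 : ℝ) ≤ 8 * 2 ^ k * ((2 : ℝ) ^ (-(2 + β * ((k : ℝ) - 1)))) ^ (m + 1) := by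
      positivity
    calc kr N t * om N β t ^ (-((k : ℝ) - 1))
        ≤ 4 * ((2 : ℝ) ^ m)⁻¹ ^ 2 * om N β t ^ (-((k : ℝ) - 1)) :=
          mul_le_mul_of_nonneg_right hkr hom0
      _ ≤ 4 * ((2 : ℝ) ^ m)⁻¹ ^ 2 * ((2 : ℝ) ^ m) ^ (-(β * ((k : ℝ) - 1))) :=
          mul_le_mul_of_nonneg_left hom (by positivity)
      _ ≤ 1 * (8 * 2 ^ k * ((2 : ℝ) ^ (-(2 + β * ((k : ℝ) - 1)))) ^ (m + 1)) := by
          rw [one_mul]; exact h6
      _ ≤ (1 + Real.log N) * (8 * 2 ^ k * ((2 : ℝ) ^ (-(2 + β * ((k : ℝ) - 1)))) ^ (m + 1)) :=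
          mul_le_mul_of_nonneg_right (by linarith) h8
      _ = _ := by ring

/-- the integral of the weighted moment -/
theorem int_le (hKRB : T_KRB) {N k : ℕ} (hN : 1 ≤ N) (hk : 1 ≤ k) {β : ℝ} (h0 : 0 ≤ β)
    (h1 : β < 1) {C e : ℝ} (hC0 : 0 ≤ C) (he : e < 2 + β * ((k : ℝ) - 1))
    (hZ : ∀ t : ℝ, Z (-t) = Z t)
    (hC : ∀ T : ℝ, 1 ≤ T → ∫ t in (0 : ℝ)..T, Z t ^ (2 * k) ≤ C * T ^ e) :
    ∫⁻ t : ℝ, ENNReal.ofReal (Z t ^ (2 * k) * kr N t * om N β t ^ (-((k : ℝ) - 1))) ≤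
      ENNReal.ofReal ((1 + Real.log N) * (8 * 2 ^ k) * (2 * C) * (N : ℝ) ^ e *
        (1 - (2 : ℝ) ^ (e - (2 + β * ((k : ℝ) - 1))))⁻¹) := by
  have hNR : (1 : ℝ) ≤ N := by exact_mod_cast hN
  have hlog : 0 ≤ Real.log N := Real.log_nonneg hNR
  have hN0 : (0 : ℝ) < N := by linarith
  set σ : ℝ := 2 + β * ((k : ℝ) - 1) with hσ
  set D : ℝ := (1 + Real.log N) * (8 * 2 ^ k) with hD
  have hD0 : 0 ≤ D := by positivity
  set ρ : ℝ := (2 : ℝ) ^ (e - σ) with hρ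
  have hρ0 : 0 < ρ := by positivity
  have hρ1 : ρ < 1 := Real.rpow_lt_one_of_one_lt_of_neg (by norm_num) (by linarith)
  have hm : Measurable fun t : ℝ => ENNReal.ofReal (Z t ^ (2 * k)) :=
    ((Z_cont.pow _).measurable).ennreal_ofReal
  calc ∫⁻ t : ℝ, ENNReal.ofReal (Z t ^ (2 * k) * kr N t * om N β t ^ (-((k : ℝ) - 1)))
      ≤ ∫⁻ t : ℝ, ∑' j : ℕ, ENNReal.ofReal (D * ((2 : ℝ) ^ (-σ)) ^ j) *
          (Icc (-(2 ^ j * (N : ℝ))) (2 ^ j * (N : ℝ))).indicator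
            (fun t => ENNReal.ofReal (Z t ^ (2 * k))) t := by
        apply lintegral_mono
        intro t
        obtain ⟨j, hj1, hj2⟩ := point hKRB hN hk h0 h1 t
        refine le_trans ?_ (ENNReal.le_tsum j)
        have hmem : t ∈ Icc (-(2 ^ j * (N : ℝ))) (2 ^ j * (N : ℝ)) := abs_le.1 hj1
        rw [indicator_of_mem hmem, ← ENNReal.ofReal_mul (by positivity)]
        apply ENNReal.ofReal_le_ofReal
        rw [mul_assoc, mul_comm (D * _)]
        exact mul_le_mul_of_nonneg_left hj2 (pow_nonneg (Z_nonneg t) _)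
    _ = ∑' j : ℕ, ENNReal.ofReal (D * ((2 : ℝ) ^ (-σ)) ^ j) *
          ∫⁻ t in Icc (-(2 ^ j * (N : ℝ))) (2 ^ j * (N : ℝ)),
            ENNReal.ofReal (Z t ^ (2 * k)) := by
        rw [lintegral_tsum fun j => ((hm.indicator measurableSet_Icc).const_mul _).aemeasurable]
        congr 1
        ext j
        rw [lintegral_const_mul _ (hm.indicator measurableSet_Icc),
          lintegral_indicator measurableSet_Icc]
    _ ≤ ∑' j : ℕ, ENNReal.ofReal (D * (2 * C) * (N : ℝ) ^ e * ρ ^ j) := by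
        apply ENNReal.tsum_le_tsum
        intro j
        have h2j : (1 : ℝ) ≤ 2 ^ j := one_le_pow₀ (by norm_num)
        have hT : (1 : ℝ) ≤ 2 ^ j * N := by nlinarith
        refine (mul_le_mul_right (sym hZ hC _ hT) _).trans ?_
        rw [← ENNReal.ofReal_mul (by positivity)]
        apply ENNReal.ofReal_le_ofReal
        have e1 : (2 ^ j * (N : ℝ)) ^ e = ((2 : ℝ) ^ e) ^ j * (N : ℝ) ^ e := by
          rw [Real.mul_rpow (by positivity) hN0.le, ← Real.rpow_natCast 2 j,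
            ← Real.rpow_mul (by norm_num), mul_comm (j : ℝ) e, Real.rpow_mul (by norm_num),
            Real.rpow_natCast]
        have e2 : ρ ^ j = ((2 : ℝ) ^ (-σ)) ^ j * ((2 : ℝ) ^ e) ^ j := by
          rw [← mul_pow, ← Real.rpow_add (by norm_num), hρ]
          congr 2
          ring
        rw [e1, e2]
        apply le_of_eq
        ring
    _ = ENNReal.ofReal (∑' j : ℕ, D * (2 * C) * (N : ℝ) ^ e * ρ ^ j) := by
        rw [ENNReal.ofReal_tsum_of_nonneg]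
        · intro j
          positivity
        · exact (summable_geometric_of_lt_one hρ0.le hρ1).mul_left _
    _ = _ := by
        rw [tsum_mul_left, tsum_geometric_of_lt_one hρ0.le hρ1]

end UBF_

theorem p_UBF (hUBH : T_UBH) (hKRB : T_KRB) : T_UBF := by
  intro k θ hk hθ1 hθk hMom ε hε
  have hkR : (1 : ℝ) ≤ k := by exact_mod_cast hk
  have hZ : ∀ t : ℝ, Z (-t) = Z t := by
    intro t
    have h2 : (1 / 2 + ((-t : ℝ) : ℂ) * Complex.I : ℂ) =
        (starRingEnd ℂ) (1 / 2 + (t : ℂ) * Complex.I) := by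
      apply Complex.ext <;> simp
    unfold Z
    rw [h2, riemannZeta_conj, Complex.norm_conj]
  set ε₀ : ℝ := min ε (1 / 4) with hε₀
  have hε₀0 : 0 < ε₀ := lt_min hε (by norm_num)
  have hε₀1 : ε₀ ≤ ε := min_le_left _ _
  have hε₀4 : ε₀ ≤ 1 / 4 := min_le_right _ _
  obtain ⟨C, hC⟩ := hMom (ε₀ / 2) (by linarith)
  have hC' : ∀ T : ℝ, 1 ≤ T → ∫ t in (0 : ℝ)..T, Z t ^ (2 * k) ≤ |C| * T ^ (θ + ε₀ / 2) := by
    intro T hT
    refine (hC T hT).trans (mul_le_mul_of_nonneg_right (le_abs_self C) ?_)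
    exact Real.rpow_nonneg (by linarith) _
  set β : ℝ := 1 - 1 / (2 * k) with hβ
  have hβ0 : 0 ≤ β := by
    have : 1 / (2 * (k : ℝ)) ≤ 1 := by rw [div_le_one (by positivity)]; linarith
    linarith
  have hβ1 : β < 1 := by
    have : 0 < 1 / (2 * (k : ℝ)) := by positivity
    linarith
  obtain ⟨C₁, hC₁, hU⟩ := hUBH k β hk hβ0 hβ1
  have he : θ + ε₀ / 2 < 2 + β * ((k : ℝ) - 1) := by
    have h1 : β * ((k : ℝ) - 1) = (k : ℝ) - 1 - ((k : ℝ) - 1) / (2 * k) := by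
      rw [hβ]; ring
    have h2 : ((k : ℝ) - 1) / (2 * k) ≤ 1 / 2 := by
      rw [div_le_div_iff₀ (by positivity) (by norm_num)]
      linarith
    linarith
  set S : ℝ := (1 - (2 : ℝ) ^ (θ + ε₀ / 2 - (2 + β * ((k : ℝ) - 1))))⁻¹ with hS
  have hS0 : 0 < S := by
    rw [hS]
    apply inv_pos.2
    have := Real.rpow_lt_one_of_one_lt_of_neg (by norm_num : (1 : ℝ) < 2)
      (show θ + ε₀ / 2 - (2 + β * ((k : ℝ) - 1)) < 0 by linarith)
    linarith
  refine ⟨C₁ * ((1 + 2 / ε₀) * (8 * 2 ^ k) * (2 * |C|) * S), ?_⟩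
  intro N hN
  have hNR : (1 : ℝ) ≤ N := by exact_mod_cast hN
  have hlog : 0 ≤ Real.log N := Real.log_nonneg hNR
  have hN0 : (0 : ℝ) < N := by linarith
  have h1 := (hU N hN).trans (mul_le_mul_right
    (UBF_.int_le hKRB hN hk hβ0 hβ1 (abs_nonneg C) he hZ hC') (ENNReal.ofReal C₁))
  rw [← ENNReal.ofReal_mul hC₁.le, ← hS] at h1
  have h2 := (ENNReal.ofReal_le_ofReal_iff (by positivity)).1 h1
  refine h2.trans ?_
  have h3 : 1 + Real.log N ≤ (1 + 2 / ε₀) * (N : ℝ) ^ (ε₀ / 2) := by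
    have h4 := Real.log_le_rpow_div hN0.le (show 0 < ε₀ / 2 by linarith)
    have h5 : 1 ≤ (N : ℝ) ^ (ε₀ / 2) := Real.one_le_rpow hNR (by linarith)
    have h6 : (N : ℝ) ^ (ε₀ / 2) / (ε₀ / 2) = 2 / ε₀ * (N : ℝ) ^ (ε₀ / 2) := by
      field_simp
    rw [h6] at h4
    linarith
  have h7 : (N : ℝ) ^ (ε₀ / 2) * (N : ℝ) ^ (θ + ε₀ / 2) ≤ (N : ℝ) ^ (θ + ε) := by
    rw [← Real.rpow_add hN0]
    exact Real.rpow_le_rpow_of_exponent_le hNR (by linarith)
  calc C₁ * ((1 + Real.log N) * (8 * 2 ^ k) * (2 * |C|) * (N : ℝ) ^ (θ + ε₀ / 2) * S)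
      ≤ C₁ * ((1 + 2 / ε₀) * (N : ℝ) ^ (ε₀ / 2) * (8 * 2 ^ k) * (2 * |C|) *
          (N : ℝ) ^ (θ + ε₀ / 2) * S) := by gcongr
    _ = C₁ * ((1 + 2 / ε₀) * (8 * 2 ^ k) * (2 * |C|) * S) *
          ((N : ℝ) ^ (ε₀ / 2) * (N : ℝ) ^ (θ + ε₀ / 2)) := by ring
    _ ≤ C₁ * ((1 + 2 / ε₀) * (8 * 2 ^ k) * (2 * |C|) * S) * (N : ℝ) ^ (θ + ε) := by
        apply mul_le_mul_of_nonneg_left h7
        positivity

end Pool.Agent.NBM
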