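import Pool.Agent.NBM.Targets

set_option autoImplicit false

/-!
# NBM: UBH, the first Berezin-Lieb inequality
-/

open MeasureTheory Set
open scoped InnerProductSpace ENNReal

namespace Pool.Agent.NBM

open Pool.Agent.NBL

namespace UBH_

/-- Hoelder's inequality for the power `k` of an integral -/
theorem hol {α : Type*} [MeasurableSpace α] (μ : Measure α) {f : α → ℝ≥0∞} (hf : AEMeasurable f μ)
    {k : ℕ} (hk : 1 ≤ k) : (∫⁻ a, f a ∂μ) ^ k ≤ μ univ ^ (k - 1) * ∫⁻ a, f a ^ k ∂μ := by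
  rcases Nat.lt_or_ge k 2 with h | h
  · have hk1 : k = 1 := by omega
    subst hk1
    simp
  · have hp : (1 : ℝ) < k := by exact_mod_cast (by omega : 1 < k)
    have hpq := Real.HolderConjugate.conjExponent hp
    have h1 := ENNReal.lintegral_mul_le_Lp_mul_Lq μ hpq hf
      (aemeasurable_const (b := (1 : ℝ≥0∞)))
    simp only [Pi.mul_apply, mul_one, ENNReal.one_rpow, lintegral_one, ENNReal.rpow_natCast] at h1
    have hk0 : (k : ℝ) ≠ 0 := by positivity
    have hk1 : (k : ℝ) - 1 ≠ 0 := by linarith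
    have h2 : 1 / Real.conjExponent (k : ℝ) * (k : ℝ) = ((k - 1 : ℕ) : ℝ) := by
      unfold Real.conjExponent
      rw [Nat.cast_sub (by omega)]
      push_cast
      field_simp
    have e1 : ∀ (x : ℝ≥0∞) (y : ℝ), (x ^ y) ^ k = x ^ (y * k) := fun x y => by
      rw [ENNReal.rpow_mul, ENNReal.rpow_natCast]
    calc (∫⁻ a, f a ∂μ) ^ k
        ≤ ((∫⁻ a, f a ^ k ∂μ) ^ (1 / (k : ℝ)) * μ univ ^ (1 / Real.conjExponent (k : ℝ))) ^ k := by
          gcongr
      _ = (∫⁻ a, f a ^ k ∂μ) * μ univ ^ (k - 1) := by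
          rw [mul_pow, e1, e1, h2, ENNReal.rpow_natCast, one_div_mul_cancel hk0, ENNReal.rpow_one]
      _ = _ := mul_comm _ _

theorem Z_cont : Continuous Z := by
  rw [continuous_iff_continuousAt]
  intro t
  unfold Z
  have h1 : (1 / 2 + t * Complex.I : ℂ) ≠ 1 := by
    intro h
    have h2 := congrArg Complex.re h
    simp at h2
  exact (ContinuousAt.comp (f := fun t : ℝ => (1 / 2 + t * Complex.I : ℂ))
    (differentiableAt_riemannZeta h1).continuousAt (by fun_prop)).norm

theorem tr_cont (N : ℕ) (a : Fin N → ℂ) : Continuous (tr N a) := by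
  have h2 : Continuous fun t : ℝ => Nm N (xs N a) (1 / 2 + t * Complex.I) := by
    rw [continuous_iff_continuousAt]
    intro t
    have h1 : ContinuousAt (Nm N (xs N a)) (1 / 2 + t * Complex.I) := (Nm_diff N _ _).continuousAt
    exact ContinuousAt.comp (f := fun t : ℝ => (1 / 2 + t * Complex.I : ℂ)) h1 (by fun_prop)
  exact h2.div (by fun_prop) half_ne

theorem om_pos (N : ℕ) (β t : ℝ) : 0 < om N β t := by
  unfold om
  exact Real.rpow_pos_of_pos (lt_of_lt_of_le one_pos (le_max_left _ _)) _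

theorem om_meas (N : ℕ) (β : ℝ) : Measurable (om N β) := by
  have h : Measurable (fun t : ℝ => max 1 (|t| / (N : ℝ))) := by fun_prop
  exact h.pow_const β

theorem pow_id {Y o : ℝ} (ho : 0 < o) (k : ℕ) :
    o * (Y ^ 2 / o) ^ k = Y ^ (2 * k) * o ^ (-((k : ℝ) - 1)) := by
  have e : o ^ (-((k : ℝ) - 1)) = o / o ^ k := by
    rw [neg_sub, Real.rpow_sub ho, Real.rpow_one, Real.rpow_natCast]
  rw [e, div_pow, ← pow_mul]
  ring

end UBH_

open UBH_ in
/-- UBH -/
theorem p_UBH (hSPE : T_SPE) (hPLN : T_PLN) (hUBW : T_UBW) : T_UBH := by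
  intro k β hk hβ0 hβ1
  obtain ⟨C0, hC0, hW⟩ := hUBW β hβ0 hβ1
  refine ⟨C0 ^ (k - 1), by positivity, fun N hN => ?_⟩
  obtain ⟨v, lam, hlam, hQ, htr⟩ := hSPE N
  -- the measure of one eigenvector
  have hnorm : ∀ i, ∑ j, ‖v i j‖ ^ 2 = 1 := by
    intro i
    rw [← EuclideanSpace.norm_sq_eq, v.orthonormal.1 i, one_pow]
  have hone : ∀ i, ENNReal.ofReal (lam i ^ k) ≤ ENNReal.ofReal (C0 ^ (k - 1)) *
      ∫⁻ t : ℝ, ENNReal.ofReal (Z t ^ (2 * k) * om N β t ^ (-((k : ℝ) - 1))) *
        ‖tr N (v i) t‖ₑ ^ 2 := by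
    intro i
    set g : ℝ → ℝ≥0∞ := fun t => ENNReal.ofReal (om N β t) * ‖tr N (v i) t‖ₑ ^ 2 with hg
    have hgm : Measurable g := by
      refine (ENNReal.measurable_ofReal.comp (om_meas N β)).mul ?_
      exact (tr_cont N (v i)).measurable.enorm.pow_const 2
    set f : ℝ → ℝ≥0∞ := fun t => ENNReal.ofReal (Z t ^ 2 / om N β t) with hf
    have hfm : Measurable f :=
      ENNReal.measurable_ofReal.comp ((Z_cont.measurable.pow_const 2).div (om_meas N β))
    have hmass : (volume.withDensity g) univ ≤ ENNReal.ofReal C0 := by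
      rw [withDensity_apply _ MeasurableSet.univ, setLIntegral_univ]
      refine (hW N hN (v i)).trans (le_of_eq ?_)
      rw [hnorm i, mul_one]
    have hQi : Qf N (v i) = lam i := by
      rw [hQ (v i), Finset.sum_eq_single i]
      · rw [inner_self_eq_norm_sq_to_K, v.orthonormal.1 i]
        simp
      · intro j _ hj
        rw [v.orthonormal.2 hj]
        simp
      · intro h
        exact absurd (Finset.mem_univ i) h
    have hfg : ∀ t, ENNReal.ofReal (Z t ^ 2) * ‖tr N (v i) t‖ₑ ^ 2 = g t * f t := by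
      intro t
      have e : ENNReal.ofReal (Z t ^ 2) =
          ENNReal.ofReal (om N β t) * ENNReal.ofReal (Z t ^ 2 / om N β t) := by
        rw [← ENNReal.ofReal_mul (om_pos N β t).le, mul_div_cancel₀ _ (om_pos N β t).ne']
      rw [e]
      simp only [hg, hf]
      ring
    have hfk : ∀ t, g t * f t ^ k =
        ENNReal.ofReal (Z t ^ (2 * k) * om N β t ^ (-((k : ℝ) - 1))) * ‖tr N (v i) t‖ₑ ^ 2 := by
      intro t
      have h0 : 0 ≤ Z t ^ 2 / om N β t := div_nonneg (by positivity) (om_pos N β t).le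
      rw [← pow_id (om_pos N β t) k, ENNReal.ofReal_mul (om_pos N β t).le, ENNReal.ofReal_pow h0]
      simp only [hg, hf]
      ring
    have hlam2 : ENNReal.ofReal (lam i) ≤ ∫⁻ t, f t ∂(volume.withDensity g) := by
      rw [← hQi, (hPLN N (v i)).1, lintegral_withDensity_eq_lintegral_mul _ hgm hfm]
      simp only [Pi.mul_apply]
      rw [lintegral_congr hfg]
      have hc : ENNReal.ofReal (1 / (2 * Real.pi)) ≤ 1 := by
        rw [← ENNReal.ofReal_one]
        refine ENNReal.ofReal_le_ofReal ?_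
        rw [div_le_one (by positivity)]
        have := Real.pi_gt_three
        linarith
      calc ENNReal.ofReal (1 / (2 * Real.pi)) * ∫⁻ t, g t * f t ≤ 1 * ∫⁻ t, g t * f t := by
            gcongr
        _ = _ := one_mul _
    calc ENNReal.ofReal (lam i ^ k) = ENNReal.ofReal (lam i) ^ k := ENNReal.ofReal_pow (hlam i) k
      _ ≤ (∫⁻ t, f t ∂(volume.withDensity g)) ^ k := by gcongr
      _ ≤ (volume.withDensity g) univ ^ (k - 1) * ∫⁻ t, f t ^ k ∂(volume.withDensity g) :=
          hol _ hfm.aemeasurable hk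
      _ ≤ ENNReal.ofReal C0 ^ (k - 1) * ∫⁻ t, f t ^ k ∂(volume.withDensity g) := by gcongr
      _ = _ := by
          rw [lintegral_withDensity_eq_lintegral_mul _ hgm (hfm.pow_const k),
            ENNReal.ofReal_pow hC0.le]
          simp only [Pi.mul_apply]
          rw [lintegral_congr hfk]
  have hm : ∀ i, Measurable fun t : ℝ =>
      ENNReal.ofReal (Z t ^ (2 * k) * om N β t ^ (-((k : ℝ) - 1))) * ‖tr N (v i) t‖ₑ ^ 2 := by
    intro i
    refine (ENNReal.measurable_ofReal.comp ((Z_cont.measurable.pow_const (2 * k)).mul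
      ((om_meas N β).pow_const _))).mul ?_
    exact (tr_cont N (v i)).measurable.enorm.pow_const 2
  rw [htr k, ENNReal.ofReal_sum_of_nonneg fun i _ => pow_nonneg (hlam i) k]
  calc ∑ i, ENNReal.ofReal (lam i ^ k)
      ≤ ∑ i, ENNReal.ofReal (C0 ^ (k - 1)) *
        ∫⁻ t : ℝ, ENNReal.ofReal (Z t ^ (2 * k) * om N β t ^ (-((k : ℝ) - 1))) *
          ‖tr N (v i) t‖ₑ ^ 2 := Finset.sum_le_sum fun i _ => hone i
    _ = ENNReal.ofReal (C0 ^ (k - 1)) *
        ∫⁻ t : ℝ, ∑ i, ENNReal.ofReal (Z t ^ (2 * k) * om N β t ^ (-((k : ℝ) - 1))) *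
          ‖tr N (v i) t‖ₑ ^ 2 := by
        rw [← Finset.mul_sum, lintegral_finsetSum _ fun i _ => hm i]
    _ ≤ _ := by
        refine mul_le_mul_right (lintegral_mono fun t => ?_) _
        have hb := bessel_kr v Finset.univ t
        have h3 : ∑ i, ‖tr N (v i) t‖ₑ ^ 2 ≤ ENNReal.ofReal (kr N t) := by
          simp_rw [enorm_sq]
          rw [← ENNReal.ofReal_sum_of_nonneg fun _ _ => by positivity]
          exact ENNReal.ofReal_le_ofReal hb
        have h4 : 0 ≤ Z t ^ (2 * k) * om N β t ^ (-((k : ℝ) - 1)) := by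
          have h5 : 0 ≤ Z t := norm_nonneg _
          have h6 := Real.rpow_nonneg (om_pos N β t).le (-((k : ℝ) - 1))
          positivity
        calc ∑ i, ENNReal.ofReal (Z t ^ (2 * k) * om N β t ^ (-((k : ℝ) - 1))) *
              ‖tr N (v i) t‖ₑ ^ 2
            = ENNReal.ofReal (Z t ^ (2 * k) * om N β t ^ (-((k : ℝ) - 1))) *
              ∑ i, ‖tr N (v i) t‖ₑ ^ 2 := by rw [Finset.mul_sum]
          _ ≤ ENNReal.ofReal (Z t ^ (2 * k) * om N β t ^ (-((k : ℝ) - 1))) *
              ENNReal.ofReal (kr N t) := by gcongr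
          _ = ENNReal.ofReal (Z t ^ (2 * k) * kr N t * om N β t ^ (-((k : ℝ) - 1))) := by
              rw [← ENNReal.ofReal_mul h4]
              congr 1
              ring

end Pool.Agent.NBM
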