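import Pool.Agent.NBM.Targets

set_option autoImplicit false

/-!
# NBM-UBW: weighted Plancherel (dyadic)
-/

open MeasureTheory Set
open scoped ENNReal

namespace Pool.Agent.NBM

open Pool.Agent.NBL

namespace UBW_

lemma xs_bound (N : ℕ) (a : Fin N → ℂ) :
    ∑ n ∈ Finset.Icc 1 N, ‖xs N a n‖ ^ 2 / n ≤ N * ∑ i, ‖a i‖ ^ 2 := by
  rw [xs_sum (fun n z => ‖z‖ ^ 2 / n) a, Finset.mul_sum]
  refine Finset.sum_le_sum fun j _ => ?_
  have h1 : (((j : ℕ) + 1 : ℕ) : ℝ) ≤ N := by exact_mod_cast j.2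
  have h2 : (0 : ℝ) < (((j : ℕ) + 1 : ℕ) : ℝ) := by exact_mod_cast Nat.succ_pos _
  rw [norm_mul, mul_pow, Complex.norm_natCast, div_le_iff₀ h2]
  nlinarith [mul_le_mul_of_nonneg_left h1
    (by positivity : 0 ≤ ‖a j‖ ^ 2 * (((j : ℕ) + 1 : ℕ) : ℝ))]

lemma om_le {N : ℕ} (hN : 1 ≤ N) {β : ℝ} (hβ : 0 ≤ β) {t x : ℝ} (hx : 1 ≤ x)
    (ht : |t| ≤ x * N) : om N β t ≤ x ^ β := by
  have hN' : (0 : ℝ) < N := by exact_mod_cast hN
  unfold om
  refine Real.rpow_le_rpow (zero_le_one.trans (le_max_left _ _)) (max_le hx ?_) hβ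
  rwa [div_le_iff₀ hN']

lemma part {N : ℕ} (β : ℝ) (a : Fin N → ℂ) (E : Set ℝ) (hE : MeasurableSet E) (c m : ℝ)
    (hc0 : 0 ≤ c) (hc : ∀ t ∈ E, om N β t ≤ c)
    (hm : ∫⁻ t in E, ‖tr N a t‖ₑ ^ 2 ≤ ENNReal.ofReal m) :
    ∫⁻ t in E, ENNReal.ofReal (om N β t) * ‖tr N a t‖ₑ ^ 2 ≤ ENNReal.ofReal (c * m) := by
  calc ∫⁻ t in E, ENNReal.ofReal (om N β t) * ‖tr N a t‖ₑ ^ 2
      ≤ ∫⁻ t in E, ENNReal.ofReal c * ‖tr N a t‖ₑ ^ 2 :=
        setLIntegral_mono' hE fun t ht => by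
          gcongr
          exact hc t ht
    _ = ENNReal.ofReal c * ∫⁻ t in E, ‖tr N a t‖ₑ ^ 2 :=
        lintegral_const_mul' _ _ ENNReal.ofReal_ne_top
    _ ≤ ENNReal.ofReal c * ENNReal.ofReal m := by gcongr
    _ = ENNReal.ofReal (c * m) := (ENNReal.ofReal_mul hc0).symm

end UBW_

open UBW_ in
theorem p_UBW (hPLN : T_PLN) : T_UBW := by
  intro β hβ0 hβ1
  have hK := Kmv_pos
  set r : ℝ := 2 ^ β with hr
  have hr0 : 0 < r := Real.rpow_pos_of_pos (by norm_num) β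
  have hr2 : r < 2 := by
    calc r < (2 : ℝ) ^ (1 : ℝ) := Real.rpow_lt_rpow_of_exponent_lt (by norm_num) hβ1
      _ = 2 := Real.rpow_one 2
  have hq0 : 0 ≤ r / 2 := by positivity
  have hq1 : r / 2 < 1 := by linarith
  have hq2 : 0 < 1 - r / 2 := by linarith
  have hpi := Real.pi_pos
  refine ⟨4 * Real.pi + 32 * Kmv / (1 - r / 2), by positivity, ?_⟩
  intro N hN a
  have hN' : (1 : ℝ) ≤ N := by exact_mod_cast hN
  have hN0 : (0 : ℝ) < N := by linarith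
  set A : ℝ := ∑ i, ‖a i‖ ^ 2 with hA
  have hA0 : 0 ≤ A := Finset.sum_nonneg fun i _ => by positivity
  set S : ℝ := ∑ n ∈ Finset.Icc 1 N, ‖xs N a n‖ ^ 2 / n with hS
  have hSA : S ≤ N * A := xs_bound N a
  set E₀ : Set ℝ := {t : ℝ | |t| ≤ 2 * N} with hE₀
  have hE₀m : MeasurableSet E₀ := measurableSet_le continuous_abs.measurable measurable_const
  set Bl : ℕ → Set ℝ := fun j => {t : ℝ | 2 ^ j * (2 * (N : ℝ)) ≤ |t| ∧
    |t| ≤ 2 ^ (j + 1) * (2 * N)} with hBl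
  have hBlm : ∀ j, MeasurableSet (Bl j) := by
    intro j
    exact (measurableSet_le measurable_const continuous_abs.measurable).inter
      (measurableSet_le continuous_abs.measurable measurable_const)
  have hcover : (univ : Set ℝ) ⊆ E₀ ∪ ⋃ j, Bl j := by
    intro t _
    by_cases ht : |t| ≤ 2 * N
    · exact Or.inl ht
    · right
      have hR0 : (0 : ℝ) < 2 * N := by linarith
      have h1 : 1 ≤ |t| / (2 * N) := by
        rw [le_div_iff₀ hR0, one_mul]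
        exact (not_le.mp ht).le
      obtain ⟨n, hn1, hn2⟩ := exists_nat_pow_near h1 (one_lt_two)
      rw [mem_iUnion]
      refine ⟨n, ?_, ?_⟩
      · rwa [le_div_iff₀ hR0] at hn1
      · rw [div_lt_iff₀ hR0] at hn2
        exact hn2.le
  have hlow : ∫⁻ t in E₀, ENNReal.ofReal (om N β t) * ‖tr N a t‖ₑ ^ 2 ≤
      ENNReal.ofReal (4 * Real.pi * A) := by
    have h1 := part β a E₀ hE₀m 2 (2 * Real.pi * A) (by norm_num) (fun t ht =>
      (om_le hN hβ0 one_le_two ht).trans hr2.le)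
      ((setLIntegral_le_lintegral _ _).trans (hPLN N a).2)
    refine h1.trans (le_of_eq ?_)
    congr 1
    ring
  have hblock : ∀ j : ℕ, ∫⁻ t in Bl j, ENNReal.ofReal (om N β t) * ‖tr N a t‖ₑ ^ 2 ≤
      ENNReal.ofReal (32 * Kmv * A * (r / 2) ^ j) := by
    intro j
    have hj0 : (0 : ℝ) < 2 ^ j := by positivity
    have hj1 : (1 : ℝ) ≤ 2 ^ j := one_le_pow₀ (by norm_num)
    have hR : (N : ℝ) + 1 ≤ 2 ^ j * (2 * N) := by nlinarith
    have hRpos : (0 : ℝ) < 2 ^ j * (2 * N) := by positivity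
    have h1 := high_full hN hR (xs N a)
    have h2 : ∫⁻ t in Bl j, ‖tr N a t‖ₑ ^ 2 ≤ ENNReal.ofReal (8 * Kmv * A * (1 / 2) ^ j) := by
      have h3 : Bl j ⊆ {t : ℝ | 2 ^ j * (2 * (N : ℝ)) ≤ |t|} := fun t ht => ht.1
      refine (lintegral_mono_set h3).trans (h1.trans (ENNReal.ofReal_le_ofReal ?_))
      rw [div_le_iff₀ hRpos]
      calc 16 * Kmv * S ≤ 16 * Kmv * (N * A) := by gcongr
        _ = 8 * Kmv * A * (1 / 2) ^ j * (2 ^ j * (2 * N)) := by
            rw [div_pow, one_pow]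
            field_simp
            ring
    have hw : ∀ t ∈ Bl j, om N β t ≤ 4 * r ^ j := by
      intro t ht
      have h3 : |t| ≤ 2 ^ (j + 2) * N := by
        have := ht.2
        calc |t| ≤ 2 ^ (j + 1) * (2 * N) := this
          _ = 2 ^ (j + 2) * N := by ring
      have h4 : (1 : ℝ) ≤ 2 ^ (j + 2) := one_le_pow₀ (by norm_num)
      calc om N β t ≤ ((2 : ℝ) ^ (j + 2)) ^ β := om_le hN hβ0 h4 h3
        _ = r ^ (j + 2) := by rw [hr, ← Real.rpow_natCast, ← Real.rpow_natCast,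
            ← Real.rpow_mul (by norm_num), ← Real.rpow_mul (by norm_num), mul_comm]
        _ = r ^ 2 * r ^ j := by ring
        _ ≤ 4 * r ^ j := by
            have : r ^ 2 ≤ 4 := by nlinarith
            gcongr
    have h5 := part β a (Bl j) (hBlm j) (4 * r ^ j) (8 * Kmv * A * (1 / 2) ^ j) (by positivity)
      hw h2
    refine h5.trans (le_of_eq ?_)
    congr 1
    rw [div_pow, div_pow, one_pow]
    ring
  calc ∫⁻ t : ℝ, ENNReal.ofReal (om N β t) * ‖tr N a t‖ₑ ^ 2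
      = ∫⁻ t in univ, ENNReal.ofReal (om N β t) * ‖tr N a t‖ₑ ^ 2 := by
        rw [Measure.restrict_univ]
    _ ≤ ∫⁻ t in E₀ ∪ ⋃ j, Bl j, ENNReal.ofReal (om N β t) * ‖tr N a t‖ₑ ^ 2 :=
        lintegral_mono_set hcover
    _ ≤ (∫⁻ t in E₀, ENNReal.ofReal (om N β t) * ‖tr N a t‖ₑ ^ 2) +
        ∫⁻ t in ⋃ j, Bl j, ENNReal.ofReal (om N β t) * ‖tr N a t‖ₑ ^ 2 :=
        lintegral_union_le _ _ _
    _ ≤ ENNReal.ofReal (4 * Real.pi * A) +
        ∑' j, ∫⁻ t in Bl j, ENNReal.ofReal (om N β t) * ‖tr N a t‖ₑ ^ 2 :=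
        add_le_add hlow (lintegral_iUnion_le _ _)
    _ ≤ ENNReal.ofReal (4 * Real.pi * A) +
        ∑' j, ENNReal.ofReal (32 * Kmv * A * (r / 2) ^ j) :=
        add_le_add le_rfl (ENNReal.tsum_le_tsum hblock)
    _ = ENNReal.ofReal (4 * Real.pi * A) + ENNReal.ofReal (32 * Kmv * A / (1 - r / 2)) := by
        rw [← ENNReal.ofReal_tsum_of_nonneg (fun j => by positivity)
          ((summable_geometric_of_lt_one hq0 hq1).mul_left _), tsum_mul_left,
          tsum_geometric_of_lt_one hq0 hq1, div_eq_mul_inv (32 * Kmv * A)]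
    _ = ENNReal.ofReal ((4 * Real.pi + 32 * Kmv / (1 - r / 2)) * A) := by
        rw [← ENNReal.ofReal_add (by positivity) (by positivity)]
        congr 1
        field_simp

end Pool.Agent.NBM
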