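import Pool.Agent.NBM.Targets

set_option autoImplicit false

/-!
# NBM: moments and the local mean square (WSM)
-/

open MeasureTheory Set
open scoped InnerProductSpace

namespace Pool.Agent.NBM

open Pool.Agent.NBL

namespace WSM_

theorem Z_cont : Continuous Z := by
  unfold Z
  apply Continuous.norm
  rw [continuous_iff_continuousAt]
  intro t
  have h1 : (1 / 2 + (t : ℂ) * Complex.I) ≠ 1 := by
    intro h
    have := congrArg Complex.re h
    norm_num at this
  exact ContinuousAt.comp (f := fun t : ℝ => (1 / 2 + (t : ℂ) * Complex.I))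
    (differentiableAt_riemannZeta h1).continuousAt (by fun_prop)

theorem Z_nonneg (t : ℝ) : 0 ≤ Z t := norm_nonneg _

theorem w_eq (t : ℝ) : w t = ∫ r in (-(1 / 10) : ℝ)..(1 / 10), Z (t + r) ^ 2 := by
  unfold w
  rw [integral_Icc_eq_integral_Ioc, ← intervalIntegral.integral_of_le (by linarith),
    intervalIntegral.integral_comp_add_left (fun u => Z u ^ 2) t]
  rfl

theorem w_cont : Continuous w := by
  have h : w = fun t => ∫ r in (-(1 / 10) : ℝ)..(1 / 10), Z (t + r) ^ 2 := funext w_eq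
  rw [h]
  have hz := Z_cont
  apply intervalIntegral.continuous_parametric_intervalIntegral_of_continuous'
  fun_prop

theorem w_nonneg (t : ℝ) : 0 ≤ w t := integral_nonneg fun _ => sq_nonneg _

/-- Jensen on an interval -/
theorem jens {f : ℝ → ℝ} (hf : Continuous f) (h0 : ∀ x, 0 ≤ f x) {a b : ℝ} (hab : a < b)
    (k : ℕ) : (∫ x in a..b, f x) ^ (k + 1) ≤ (b - a) ^ k * ∫ x in a..b, f x ^ (k + 1) := by
  have hba : 0 < b - a := by linarith
  have hi : IntegrableOn f (Ioc a b) := (hf.integrableOn_Icc (a := a) (b := b)).mono_set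
    Ioc_subset_Icc_self
  have hi2 : IntegrableOn (fun x => f x ^ (k + 1)) (Ioc a b) :=
    ((hf.pow (k + 1)).integrableOn_Icc (a := a) (b := b)).mono_set Ioc_subset_Icc_self
  have h := (convexOn_pow (𝕜 := ℝ) (k + 1)).map_set_average_le (μ := volume) (t := Ioc a b)
    (f := f) (continuous_pow (k + 1)).continuousOn isClosed_Ici
    (by rw [Real.volume_Ioc]; simp [hab]) (by simp) (ae_of_all _ h0) hi hi2
  rw [setAverage_eq, setAverage_eq, Real.volume_real_Ioc_of_le hab.le, smul_eq_mul, smul_eq_mul,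
    ← intervalIntegral.integral_of_le hab.le, ← intervalIntegral.integral_of_le hab.le] at h
  rw [mul_pow] at h
  have h2 := mul_le_mul_of_nonneg_left h (pow_nonneg hba.le (k + 1))
  have e1 : (b - a) ^ (k + 1) * ((b - a)⁻¹ ^ (k + 1) * (∫ x in a..b, f x) ^ (k + 1)) =
      (∫ x in a..b, f x) ^ (k + 1) := by
    rw [← mul_assoc, ← mul_pow, mul_inv_cancel₀ hba.ne', one_pow, one_mul]
  have e2 : (b - a) ^ (k + 1) * ((b - a)⁻¹ * ∫ x in a..b, f x ^ (k + 1)) =
      (b - a) ^ k * ∫ x in a..b, f x ^ (k + 1) := by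
    rw [← mul_assoc, pow_succ, mul_assoc ((b - a) ^ k), mul_inv_cancel₀ hba.ne', mul_one]
  rw [e1, e2] at h2
  exact h2

/-- exchange of two integrals of a continuous function -/
theorem swap {F : ℝ → ℝ → ℝ} (hF : Continuous (Function.uncurry F)) (a b c d : ℝ) :
    ∫ x in a..b, ∫ y in c..d, F x y = ∫ y in c..d, ∫ x in a..b, F x y := by
  apply intervalIntegral_intervalIntegral_swap
  refine (hF.continuousOn.integrableOn_compact
    ((isCompact_uIcc (a := a) (b := b)).prod (isCompact_uIcc (a := c) (b := d)))).mono_set ?_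
  exact prod_mono uIoc_subset_uIcc uIoc_subset_uIcc

/-- the integral of a nonnegative function over a subinterval -/
theorem mono_int {f : ℝ → ℝ} (hf : Continuous f) (h0 : ∀ x, 0 ≤ f x) {a b c d : ℝ}
    (hca : c ≤ a) (hab : a ≤ b) (hbd : b ≤ d) :
    ∫ x in a..b, f x ≤ ∫ x in c..d, f x :=
  intervalIntegral.integral_mono_interval hca hab hbd (ae_of_all _ h0) (hf.intervalIntegrable _ _)

theorem icc_eq {f : ℝ → ℝ} {a b : ℝ} (hab : a ≤ b) :
    ∫ x in Icc a b, f x = ∫ x in a..b, f x := by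
  rw [integral_Icc_eq_integral_Ioc, ← intervalIntegral.integral_of_le hab]

/-- the mean square over a window by the local mean squares -/
theorem window {t l : ℝ} (hl : 0 ≤ l) :
    ∫ u in (t - l)..(t + l), Z u ^ 2 ≤ 5 * ∫ v in (-(l + 1))..(l + 1), w (t + v) := by
  have hz := Z_cont
  have e1 : ∫ v in (-(l + 1))..(l + 1), w (t + v) =
      ∫ r in (-(1 / 10) : ℝ)..(1 / 10), ∫ v in (-(l + 1))..(l + 1), Z (t + v + r) ^ 2 := by
    simp only [w_eq]
    apply swap (F := fun v r => Z (t + v + r) ^ 2)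
    simp only [Function.uncurry_def]
    fun_prop
  have e2 : ∀ r ∈ Icc (-(1 / 10) : ℝ) (1 / 10), ∫ u in (t - l)..(t + l), Z u ^ 2 ≤
      ∫ v in (-(l + 1))..(l + 1), Z (t + v + r) ^ 2 := by
    intro r hr
    have e3 : ∫ v in (-(l + 1))..(l + 1), Z (t + v + r) ^ 2 =
        ∫ u in (t + r + -(l + 1))..(t + r + (l + 1)), Z u ^ 2 := by
      rw [← intervalIntegral.integral_comp_add_left (fun u => Z u ^ 2) (t + r)]
      congr 1
      ext v
      congr 2
      ring
    rw [e3]
    exact mono_int (hz.pow 2) (fun _ => sq_nonneg _) (by linarith [hr.1, hr.2]) (by linarith)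
      (by linarith [hr.1, hr.2])
  have e4 : ∫ _r in (-(1 / 10) : ℝ)..(1 / 10), ∫ u in (t - l)..(t + l), Z u ^ 2 ≤
      ∫ r in (-(1 / 10) : ℝ)..(1 / 10), ∫ v in (-(l + 1))..(l + 1), Z (t + v + r) ^ 2 := by
    apply intervalIntegral.integral_mono_on (by norm_num) intervalIntegrable_const _ e2
    apply Continuous.intervalIntegrable
    apply intervalIntegral.continuous_parametric_intervalIntegral_of_continuous'
    simp only [Function.uncurry_def]
    fun_prop
  rw [intervalIntegral.integral_const, smul_eq_mul, ← e1] at e4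
  linarith

/-- the pointwise bound -/
theorem point {C₀ T₁ : ℝ} (hC : 1 ≤ C₀) (hT₁ : 20 ≤ T₁)
    (h : ∀ T : ℝ, T₁ ≤ T → Z T ^ 2 ≤ C₀ * Real.log T *
      (1 + ∫ v in Icc (T - 2 * Real.log T) (T + 2 * Real.log T), Z v ^ 2))
    {t T : ℝ} (ht : T₁ ≤ t) (htT : t ≤ T) (k : ℕ) :
    Z t ^ (2 * (k + 1)) ≤ (C₀ * Real.log T) ^ (k + 1) * 2 ^ k *
      (1 + 5 ^ (k + 1) * ((2 * (2 * Real.log T + 1)) ^ k *
        ∫ v in (-(2 * Real.log T + 1))..(2 * Real.log T + 1), w (t + v) ^ (k + 1))) := by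
  have hz := Z_cont
  have hw := w_cont
  have hlt : 0 ≤ Real.log t := Real.log_nonneg (by linarith)
  have hll : Real.log t ≤ Real.log T := Real.log_le_log (by linarith) htT
  have hlT : 0 ≤ Real.log T := hlt.trans hll
  have h1 := h t ht
  rw [icc_eq (by linarith)] at h1
  have h2 : ∫ u in (t - 2 * Real.log t)..(t + 2 * Real.log t), Z u ^ 2 ≤
      ∫ u in (t - 2 * Real.log T)..(t + 2 * Real.log T), Z u ^ 2 :=
    mono_int (hz.pow 2) (fun _ => sq_nonneg _) (by linarith) (by linarith) (by linarith)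
  have h3 := window (t := t) (l := 2 * Real.log T) (by linarith)
  set V := 2 * Real.log T + 1 with hV
  have hV0 : 0 < V := by linarith
  set A := ∫ v in (-V)..V, w (t + v) with hA
  have hA0 : 0 ≤ A := by
    rw [hA]
    exact intervalIntegral.integral_nonneg (by linarith) fun v _ => w_nonneg _
  have h4 : Z t ^ 2 ≤ C₀ * Real.log T * (1 + 5 * A) := by
    refine h1.trans ?_
    have h5 : 0 ≤ ∫ u in (t - 2 * Real.log t)..(t + 2 * Real.log t), Z u ^ 2 :=
      intervalIntegral.integral_nonneg (by linarith) fun v _ => sq_nonneg _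
    apply mul_le_mul _ _ (by linarith) (by positivity)
    · exact mul_le_mul_of_nonneg_left hll (by linarith)
    · linarith
  have h5 : Z t ^ (2 * (k + 1)) ≤ (C₀ * Real.log T * (1 + 5 * A)) ^ (k + 1) := by
    rw [pow_mul]
    exact pow_le_pow_left₀ (sq_nonneg _) h4 _
  have h6 : (1 + 5 * A) ^ (k + 1) ≤ 2 ^ k * (1 ^ (k + 1) + (5 * A) ^ (k + 1)) :=
    add_pow_le zero_le_one (by positivity) (k + 1)
  have h7 : A ^ (k + 1) ≤ (2 * V) ^ k * ∫ v in (-V)..V, w (t + v) ^ (k + 1) := by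
    have h8 := jens (f := fun v => w (t + v)) (by fun_prop) (fun v => w_nonneg _)
      (show -V < V by linarith) k
    have e : V - -V = 2 * V := by ring
    rw [e] at h8
    exact h8
  have hK0 : 0 ≤ (C₀ * Real.log T) ^ (k + 1) := by positivity
  calc Z t ^ (2 * (k + 1)) ≤ (C₀ * Real.log T * (1 + 5 * A)) ^ (k + 1) := h5
    _ = (C₀ * Real.log T) ^ (k + 1) * (1 + 5 * A) ^ (k + 1) := by rw [mul_pow]
    _ ≤ (C₀ * Real.log T) ^ (k + 1) * (2 ^ k * (1 ^ (k + 1) + (5 * A) ^ (k + 1))) :=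
        mul_le_mul_of_nonneg_left h6 hK0
    _ = (C₀ * Real.log T) ^ (k + 1) * 2 ^ k * (1 + 5 ^ (k + 1) * A ^ (k + 1)) := by
        rw [one_pow, mul_pow]; ring
    _ ≤ _ := by
        apply mul_le_mul_of_nonneg_left _ (by positivity)
        have := mul_le_mul_of_nonneg_left h7 (show (0 : ℝ) ≤ 5 ^ (k + 1) by positivity)
        linarith

end WSM_

open WSM_ in
/-- **WSM** -/
theorem p_WSM (hPMX : T_PMX) : T_WSM := by
  obtain ⟨C₀, T₁, hC, hT₁, hP⟩ := hPMX
  intro k hk
  obtain ⟨k, rfl⟩ : ∃ j, k = j + 1 := ⟨k - 1, by omega⟩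
  have hz := Z_cont
  have hw := w_cont
  set A₀ := ∫ t in (0 : ℝ)..T₁, Z t ^ (2 * (k + 1)) with hA₀
  have hA₀0 : 0 ≤ A₀ := by
    rw [hA₀]
    exact intervalIntegral.integral_nonneg (by linarith)
      fun v _ => by rw [pow_mul]; positivity
  refine ⟨A₀ + C₀ ^ (k + 1) * 60 ^ (k + 1), T₁, ?_, hT₁, ?_⟩
  · have h1 : (1 : ℝ) ≤ C₀ ^ (k + 1) := one_le_pow₀ hC
    have h2 : (1 : ℝ) ≤ 60 ^ (k + 1) := one_le_pow₀ (by norm_num)
    nlinarith
  intro T hT
  have hT20 : 20 ≤ T := by linarith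
  obtain ⟨l, hl⟩ : ∃ l : ℝ, l = Real.log T := ⟨_, rfl⟩
  have hl1 : 1 ≤ l := by
    rw [hl, Real.le_log_iff_exp_le (by linarith)]
    have := Real.exp_one_lt_d9
    linarith
  have hlT : 2 * l + 1 ≤ T := by
    have h1 : Real.log (T / 8) ≤ T / 8 - 1 := Real.log_le_sub_one_of_pos (by linarith)
    have h2 : Real.log (T / 8) = l - 3 * Real.log 2 := by
      rw [Real.log_div (by linarith) (by norm_num), hl,
        show (8 : ℝ) = 2 ^ 3 by norm_num, Real.log_pow]
      norm_num
    have h3 := Real.log_two_lt_d9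
    linarith
  set V := 2 * l + 1 with hV
  have hV0 : 0 < V := by linarith
  set W := ∫ t in Icc (-(2 * T)) (2 * T), w t ^ (k + 1) with hW
  have hWi : W = ∫ t in (-(2 * T))..(2 * T), w t ^ (k + 1) := by
    rw [hW, icc_eq (by linarith)]
  have hW0 : 0 ≤ W := by
    rw [hW]
    exact integral_nonneg fun t => pow_nonneg (w_nonneg t) _
  -- the main part
  have hmain : ∫ t in T₁..T, Z t ^ (2 * (k + 1)) ≤ (C₀ * l) ^ (k + 1) * 2 ^ k *
      (T + 5 ^ (k + 1) * ((2 * V) ^ k * (2 * V * W))) := by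
    have hinner : Continuous fun t : ℝ => ∫ v in (-V)..V, w (t + v) ^ (k + 1) := by
      apply intervalIntegral.continuous_parametric_intervalIntegral_of_continuous'
      simp only [Function.uncurry_def]
      fun_prop
    have h1 : ∫ t in T₁..T, Z t ^ (2 * (k + 1)) ≤ ∫ t in T₁..T, (C₀ * l) ^ (k + 1) * 2 ^ k *
        (1 + 5 ^ (k + 1) * ((2 * V) ^ k * ∫ v in (-V)..V, w (t + v) ^ (k + 1))) := by
      apply intervalIntegral.integral_mono_on hT
      · exact (hz.pow _).intervalIntegrable _ _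
      · apply Continuous.intervalIntegrable
        fun_prop
      · intro t ht
        rw [hV, hl]
        exact point hC hT₁ hP ht.1 ht.2 k
    refine h1.trans ?_
    rw [intervalIntegral.integral_const_mul]
    apply mul_le_mul_of_nonneg_left _ (by positivity)
    rw [intervalIntegral.integral_add intervalIntegrable_const
      (by apply Continuous.intervalIntegrable; fun_prop)]
    rw [intervalIntegral.integral_const_mul, intervalIntegral.integral_const_mul]
    have h2 : ∫ _t in T₁..T, (1 : ℝ) ≤ T := by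
      rw [intervalIntegral.integral_const, smul_eq_mul]
      linarith
    have h3 : ∫ t in T₁..T, ∫ v in (-V)..V, w (t + v) ^ (k + 1) ≤ 2 * V * W := by
      rw [swap (F := fun t v => w (t + v) ^ (k + 1))
        (by simp only [Function.uncurry_def]; fun_prop)]
      have h4 : ∀ v ∈ Icc (-V) V, ∫ t in T₁..T, w (t + v) ^ (k + 1) ≤ W := by
        intro v hv
        rw [intervalIntegral.integral_comp_add_right (fun u => w u ^ (k + 1)) v, hWi]
        exact mono_int (hw.pow _) (fun u => pow_nonneg (w_nonneg u) _)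
          (by linarith [hv.1]) (by linarith) (by linarith [hv.2])
      calc ∫ v in (-V)..V, ∫ t in T₁..T, w (t + v) ^ (k + 1) ≤ ∫ _v in (-V)..V, W := by
            apply intervalIntegral.integral_mono_on (by linarith) _ intervalIntegrable_const h4
            apply Continuous.intervalIntegrable
            apply intervalIntegral.continuous_parametric_intervalIntegral_of_continuous'
            simp only [Function.uncurry_def]
            fun_prop
        _ = 2 * V * W := by
            rw [intervalIntegral.integral_const, smul_eq_mul]; ring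
    have h5 : (2 * V) ^ k * ∫ t in T₁..T, ∫ v in (-V)..V, w (t + v) ^ (k + 1) ≤
        (2 * V) ^ k * (2 * V * W) := mul_le_mul_of_nonneg_left h3 (by positivity)
    have h6 := mul_le_mul_of_nonneg_left h5 (show (0 : ℝ) ≤ 5 ^ (k + 1) by positivity)
    linarith
  -- splitting
  have hsplit : ∫ t in (0 : ℝ)..T, Z t ^ (2 * (k + 1)) =
      A₀ + ∫ t in T₁..T, Z t ^ (2 * (k + 1)) := by
    rw [hA₀, intervalIntegral.integral_add_adjacent_intervals]
    · exact (hz.pow _).intervalIntegrable _ _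
    · exact (hz.pow _).intervalIntegrable _ _
  rw [hsplit, ← hl]
  have hlk : 1 ≤ l ^ (2 * (k + 1)) := one_le_pow₀ hl1
  have hlk1 : 1 ≤ l ^ (k + 1) := one_le_pow₀ hl1
  have hll : l ^ (2 * (k + 1)) = l ^ (k + 1) * l ^ (k + 1) := by rw [two_mul, pow_add]
  have hA1 : A₀ ≤ A₀ * (l ^ (2 * (k + 1)) * (T + W)) := by
    have : 1 ≤ l ^ (2 * (k + 1)) * (T + W) := by nlinarith
    nlinarith
  have hVl : 2 * V ≤ 6 * l := by linarith
  have hVk : (2 * V) ^ (k + 1) ≤ 6 ^ (k + 1) * l ^ (k + 1) := by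
    rw [← mul_pow]
    exact pow_le_pow_left₀ (by positivity) hVl _
  have hfin : (C₀ * l) ^ (k + 1) * 2 ^ k * (T + 5 ^ (k + 1) * ((2 * V) ^ k * (2 * V * W))) ≤
      C₀ ^ (k + 1) * 60 ^ (k + 1) * (l ^ (2 * (k + 1)) * (T + W)) := by
    have e1 : (2 * V) ^ k * (2 * V * W) = (2 * V) ^ (k + 1) * W := by rw [pow_succ]; ring
    rw [e1]
    have h1 : T + 5 ^ (k + 1) * ((2 * V) ^ (k + 1) * W) ≤
        30 ^ (k + 1) * l ^ (k + 1) * (T + W) := by
      have h2 : (5 : ℝ) ^ (k + 1) * ((2 * V) ^ (k + 1) * W) ≤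
          5 ^ (k + 1) * (6 ^ (k + 1) * l ^ (k + 1) * W) :=
        mul_le_mul_of_nonneg_left (mul_le_mul_of_nonneg_right hVk hW0) (by positivity)
      have h3 : (5 : ℝ) ^ (k + 1) * (6 ^ (k + 1) * l ^ (k + 1) * W) =
          30 ^ (k + 1) * l ^ (k + 1) * W := by
        rw [show (30 : ℝ) = 5 * 6 by norm_num, mul_pow]; ring
      have h4 : T ≤ 30 ^ (k + 1) * l ^ (k + 1) * T := by
        have h5 : (1 : ℝ) ≤ 30 ^ (k + 1) := one_le_pow₀ (by norm_num)
        have h6 : 1 ≤ 30 ^ (k + 1) * l ^ (k + 1) := by nlinarith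
        nlinarith
      rw [h3] at h2
      linarith
    have h7 : (2 : ℝ) ^ k ≤ 2 ^ (k + 1) := pow_le_pow_right₀ (by norm_num) (by omega)
    calc (C₀ * l) ^ (k + 1) * 2 ^ k * (T + 5 ^ (k + 1) * ((2 * V) ^ (k + 1) * W))
        ≤ (C₀ * l) ^ (k + 1) * 2 ^ (k + 1) * (30 ^ (k + 1) * l ^ (k + 1) * (T + W)) := by
          apply mul_le_mul _ h1 (by positivity) (by positivity)
          exact mul_le_mul_of_nonneg_left h7 (by positivity)
      _ = C₀ ^ (k + 1) * 60 ^ (k + 1) * (l ^ (2 * (k + 1)) * (T + W)) := by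
          rw [hll, show (60 : ℝ) = 2 * 30 by norm_num, mul_pow, mul_pow]; ring
  have e9 : (A₀ + C₀ ^ (k + 1) * 60 ^ (k + 1)) * l ^ (2 * (k + 1)) * (T + W) =
      A₀ * (l ^ (2 * (k + 1)) * (T + W)) +
        C₀ ^ (k + 1) * 60 ^ (k + 1) * (l ^ (2 * (k + 1)) * (T + W)) := by ring
  rw [e9]
  linarith

end Pool.Agent.NBM
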