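import Mathlib
import Pool.Agent.NBL.Full4
import Pool.Agent.Lib.ZetaConv

set_option autoImplicit false

/-!
# NBM: moments of zeta and Schatten norms of the Nyman-Beurling Gram matrices: definitions

`h n`, `un n s`, `Nm N b s`, `xs N a`, `kr N t`, `Kmv`, `Hs` are in `Pool.Agent.NBL`.
-/

open MeasureTheory Set
open scoped InnerProductSpace

namespace Pool.Agent.NBM

open Pool.Agent.NBL

/-- absolute value of zeta on the critical line -/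
noncomputable def Z (t : ℝ) : ℝ := ‖riemannZeta (1 / 2 + t * Complex.I)‖

/-- local mean square -/
noncomputable def w (t : ℝ) : ℝ := ∫ u in Icc (t - 1 / 10) (t + 1 / 10), Z u ^ 2

/-- the Gram matrix of the functions `n h_n`, `n = 1, .., N`, in `L²(0, ∞)` -/
noncomputable def G (N : ℕ) : Matrix (Fin N) (Fin N) ℝ :=
  Matrix.of fun i j => ∫ t in Ioi (0 : ℝ),
    ((((i : ℕ) + 1 : ℕ) : ℝ) * h (i + 1) t) * ((((j : ℕ) + 1 : ℕ) : ℝ) * h (j + 1) t)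

/-- its quadratic form -/
noncomputable def Qf (N : ℕ) (a : Fin N → ℂ) : ℝ :=
  ∫ t in Ioi (0 : ℝ), ‖∑ j : Fin N, a j * (((((j : ℕ) + 1 : ℕ) : ℝ) * h (j + 1) t : ℝ) : ℂ)‖ ^ 2

/-- the transform of the step function with the coefficients `n a_n` on `[1/(n+1), 1/n]` -/
noncomputable def tr (N : ℕ) (a : Fin N → ℂ) (t : ℝ) : ℂ :=
  Nm N (xs N a) (1 / 2 + t * Complex.I) / (1 / 2 + t * Complex.I)

/-- the weight `max(1, |t|/N) ^ β` -/
noncomputable def om (N : ℕ) (β t : ℝ) : ℝ := (max 1 (|t| / N)) ^ β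

/-- the test vector `n ^ (-1/2 + i t)`, `N ≤ n ≤ 2N` -/
noncomputable def et (N : ℕ) (t : ℝ) : EuclideanSpace ℂ (Fin (2 * N)) :=
  WithLp.toLp 2 fun i => if N ≤ (i : ℕ) + 1 then
    (((i : ℕ) + 1 : ℕ) : ℂ) ^ (-(1 / 2) + t * Complex.I) else 0

/-- the bound `T ^ (θ + ε)` for the `2k`-th moment -/
def Mom (k : ℕ) (θ : ℝ) : Prop := ∀ ε : ℝ, 0 < ε → ∃ C : ℝ, ∀ T : ℝ, 1 ≤ T →
  ∫ t in (0 : ℝ)..T, Z t ^ (2 * k) ≤ C * T ^ (θ + ε)

/-- the bound `N ^ (θ + ε)` for the trace of the `k`-th power -/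
def Tr (k : ℕ) (θ : ℝ) : Prop := ∀ ε : ℝ, 0 < ε → ∃ C : ℝ, ∀ N : ℕ, 1 ≤ N →
  ((G N) ^ k).trace ≤ C * (N : ℝ) ^ (θ + ε)

end Pool.Agent.NBM
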