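import Pool.Agent.NBM.Targets

set_option autoImplicit false

/-!
# PMX: the point on the line
-/

open MeasureTheory Set

namespace Pool.Agent.NBM

open Pool.Agent.NBL
open Pool.Agent.Lib.ZetaConv Pool.Agent.Lib.ZetaLine

namespace PMX_

theorem Z_cont : Continuous Z := by
  unfold Z
  exact Pool.Agent.Lib.ThickFailure.continuous_zeta_line.norm

theorem Z_int (a b : ℝ) : IntegrableOn (fun v => Z v ^ 2) (Icc a b) :=
  (Z_cont.pow 2).continuousOn.integrableOn_Icc

theorem Z_mono {a b c d : ℝ} (h1 : c ≤ a) (h2 : b ≤ d) :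
    ∫ v in Icc a b, Z v ^ 2 ≤ ∫ v in Icc c d, Z v ^ 2 := by
  apply setIntegral_mono_set (Z_int c d)
  · exact Filter.Eventually.of_forall fun _ => sq_nonneg _
  · exact (Icc_subset_Icc h1 h2).eventuallyLE

theorem Z_nonneg (a b : ℝ) : 0 ≤ ∫ v in Icc a b, Z v ^ 2 :=
  integral_nonneg fun _ => sq_nonneg _

end PMX_

open PMX_ in
theorem p_PMX (hPRP : T_PRP) : T_PMX := by
  obtain ⟨C, T₀, hC, hT₀, h⟩ := hPRP
  obtain ⟨C₁, T₁, hC₁, hT₁, h₁⟩ := boundOn_crude
  set K : ℝ := 324 * C + 4 * C₁ ^ 2 with hK
  have hK0 : 1 ≤ K := by nlinarith [sq_nonneg C₁]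
  refine ⟨9 * K, T₀ + 2 * T₁ + Real.exp 8, by linarith, ?_, ?_⟩
  · have := Real.exp_pos 8
    linarith
  intro T hT
  have hexp8 : (40 : ℝ) ≤ Real.exp 8 := by
    have h1 : (2 : ℝ) ≤ Real.exp 1 := by
      have := Real.add_one_le_exp (1 : ℝ)
      linarith
    have h2 : Real.exp 8 = Real.exp 1 ^ 8 := by
      rw [← Real.exp_nat_mul]
      norm_num
    rw [h2]
    calc (40 : ℝ) ≤ 2 ^ 8 := by norm_num
      _ ≤ Real.exp 1 ^ 8 := pow_le_pow_left₀ (by norm_num) h1 8
  have hTT₀ : T₀ ≤ T := by linarith
  have hTT₁ : T₁ ≤ T / 2 := by linarith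
  have hT8 : Real.exp 8 ≤ T := by linarith
  have hT40 : 40 ≤ T := by linarith
  have hTpos : 0 < T := by linarith
  set L := Real.log T with hL
  have hL8 : 8 ≤ L := by
    rw [hL, Real.le_log_iff_exp_le hTpos]
    exact hT8
  have hL0 : 0 < L := by linarith
  have hexpL : Real.exp L = T := Real.exp_log hTpos
  have hLT : L ≤ T / 2 := by
    have h1 : Real.log (T / 2) ≤ T / 2 - 1 := Real.log_le_sub_one_of_pos (by linarith)
    have h2 : Real.log (T / 2) = L - Real.log 2 := by
      rw [Real.log_div hTpos.ne' (by norm_num)]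
    have h3 : Real.log 2 ≤ 1 := by
      have := Real.log_le_sub_one_of_pos (show (0 : ℝ) < 2 by norm_num)
      linarith
    linarith
  set J := ∫ v in Icc (T - 2 * L) (T + 2 * L), Z v ^ 2 with hJ
  have hJ0 : 0 ≤ J := Z_nonneg _ _
  set M := Real.sqrt (K * L * (1 + J)) with hM
  have hM0 : 0 ≤ M := Real.sqrt_nonneg _
  have hM2 : M ^ 2 = K * L * (1 + J) := Real.sq_sqrt (by positivity)
  -- bound to the right
  have hright : ∀ u : ℝ, |u - T| ≤ L →
      ‖riemannZeta ((1 / 2 + 1 / L : ℝ) + u * Complex.I)‖ ^ 2 ≤ C * L * (1 + J) := by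
    intro u hu
    have h2 := h T hTT₀ u (hu.trans hLT)
    refine h2.trans ?_
    rw [abs_le] at hu
    have h3 : ∫ v in Icc (u - 1) (u + 1), Z v ^ 2 ≤ J := Z_mono (by linarith) (by linarith)
    have h4 : 1 + L * ∫ v in Icc (u - 1) (u + 1), Z v ^ 2 ≤ L * (1 + J) := by
      have := mul_le_mul_of_nonneg_left h3 hL0.le
      linarith
    rw [mul_assoc C]
    exact mul_le_mul_of_nonneg_left h4 (by linarith)
  have key := gauss_max (a := 1 / 2 - 1 / L) (b := 1 / 2 + 1 / L) (κ := 0) (T := T) (Y := L)
    (L := 0) (M := M) (by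
      have : 0 < 1 / L := by positivity
      linarith) hL0 (by linarith) (by
      intro s hs1 hs2 hs3 hside
      have e0 : Real.exp (0 * 0 * (s.re - (1 / 2 - 1 / L))) = 1 := by simp
      rw [e0, mul_one]
      have hs3' := hs3
      rw [abs_le] at hs3
      have him1 : T / 2 ≤ s.im := by linarith [hs3.1]
      have him2 : s.im ≤ 2 * T := by linarith [hs3.2]
      have hexp2 : Real.exp (-(s.im - T) ^ 2) ≤ 1 := by
        rw [Real.exp_le_one_iff]; nlinarith [sq_nonneg (s.im - T)]
      have hz0 := norm_nonneg (riemannZeta s)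
      have hinv : 1 / L ≤ 1 / 8 := one_div_le_one_div_of_le (by norm_num) hL8
      have hinv0 : 0 < 1 / L := by positivity
      rcases hside with hc1 | hc2 | hc3
      · -- left side
        have e1 : s = ((1 / 2 - 1 / L : ℝ) : ℂ) + s.im * Complex.I := by
          apply Complex.ext <;> simp [hc1]
        have e2 := zeta_left (x := 1 / L) (t := s.im) hinv0.le (by linarith) (by linarith)
        rw [← e1] at e2
        have e3 : s.im ^ (1 / L) ≤ 6 := by
          have f1 : s.im ^ (1 / L) ≤ (2 * T) ^ (1 / L) :=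
            Real.rpow_le_rpow (by linarith) him2 hinv0.le
          have f2 : (2 * T) ^ (1 / L) = 2 ^ (1 / L) * T ^ (1 / L) :=
            Real.mul_rpow (by norm_num) hTpos.le
          have f3 : T ^ (1 / L) = Real.exp 1 := by
            rw [Real.rpow_def_of_pos hTpos, ← hL]
            congr 1
            field_simp
          have f4 : (2 : ℝ) ^ (1 / L) ≤ 2 := by
            calc (2 : ℝ) ^ (1 / L) ≤ 2 ^ (1 : ℝ) :=
                  Real.rpow_le_rpow_of_exponent_le (by norm_num) (by linarith)
              _ = 2 := Real.rpow_one 2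
          have f5 : Real.exp 1 ≤ 3 := by
            have := Real.exp_one_lt_d9
            linarith
          rw [f2, f3] at f1
          have f6 : (2 : ℝ) ^ (1 / L) * Real.exp 1 ≤ 2 * 3 :=
            mul_le_mul f4 f5 (Real.exp_pos _).le (by norm_num)
          linarith
        have e4 := hright s.im hs3'
        have e5 : ‖riemannZeta s‖ ≤
            18 * ‖riemannZeta ((1 / 2 + 1 / L : ℝ) + s.im * Complex.I)‖ := by
          refine e2.trans ?_
          apply mul_le_mul_of_nonneg_right _ (norm_nonneg _)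
          linarith
        have e6 : ‖riemannZeta s‖ ≤ M := by
          apply Real.le_sqrt_of_sq_le
          calc ‖riemannZeta s‖ ^ 2 ≤
              (18 * ‖riemannZeta ((1 / 2 + 1 / L : ℝ) + s.im * Complex.I)‖) ^ 2 :=
                pow_le_pow_left₀ hz0 e5 2
            _ = 324 * ‖riemannZeta ((1 / 2 + 1 / L : ℝ) + s.im * Complex.I)‖ ^ 2 := by ring
            _ ≤ 324 * (C * L * (1 + J)) := by linarith
            _ = (324 * C) * (L * (1 + J)) := by ring
            _ ≤ K * (L * (1 + J)) := by
                apply mul_le_mul_of_nonneg_right _ (by positivity)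
                rw [hK]
                nlinarith [sq_nonneg C₁]
            _ = K * L * (1 + J) := by ring
        calc ‖riemannZeta s‖ * Real.exp (-(s.im - T) ^ 2) ≤ M * 1 :=
              mul_le_mul e6 hexp2 (Real.exp_pos _).le hM0
          _ = M := mul_one _
      · -- right side
        have e1 : s = ((1 / 2 + 1 / L : ℝ) : ℂ) + s.im * Complex.I := by
          apply Complex.ext <;> simp [hc2]
        have e4 := hright s.im hs3'
        rw [← e1] at e4
        have e6 : ‖riemannZeta s‖ ≤ M := by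
          apply Real.le_sqrt_of_sq_le
          calc ‖riemannZeta s‖ ^ 2 ≤ C * L * (1 + J) := e4
            _ = C * (L * (1 + J)) := by ring
            _ ≤ K * (L * (1 + J)) := by
                apply mul_le_mul_of_nonneg_right _ (by positivity)
                rw [hK]
                nlinarith [sq_nonneg C₁]
            _ = K * L * (1 + J) := by ring
        calc ‖riemannZeta s‖ * Real.exp (-(s.im - T) ^ 2) ≤ M * 1 :=
              mul_le_mul e6 hexp2 (Real.exp_pos _).le hM0
          _ = M := mul_one _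
      · -- horizontal sides
        have e2 : ‖riemannZeta s‖ ≤ C₁ * s.im ^ (1 : ℝ) := h₁ s (by linarith) (by linarith)
        rw [Real.rpow_one] at e2
        have e3 : (s.im - T) ^ 2 = L ^ 2 := by rw [← sq_abs, hc3]
        have e4 : Real.exp (-(s.im - T) ^ 2) ≤ 1 / T := by
          rw [e3, one_div, ← hexpL, ← Real.exp_neg, Real.exp_le_exp]
          nlinarith
        have e5 : ‖riemannZeta s‖ ≤ C₁ * (2 * T) :=
          e2.trans (mul_le_mul_of_nonneg_left him2 (by linarith))
        have e6 : 2 * C₁ ≤ M := by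
          apply Real.le_sqrt_of_sq_le
          calc (2 * C₁) ^ 2 = 4 * C₁ ^ 2 * 1 := by ring
            _ ≤ K * (L * (1 + J)) := by
                apply mul_le_mul _ _ (by norm_num) (by linarith)
                · rw [hK]
                  linarith
                · nlinarith
            _ = K * L * (1 + J) := by ring
        calc ‖riemannZeta s‖ * Real.exp (-(s.im - T) ^ 2) ≤ C₁ * (2 * T) * (1 / T) :=
              mul_le_mul e5 e4 (Real.exp_pos _).le (by positivity)
          _ = 2 * C₁ := by field_simp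
          _ ≤ M := e6)
    (σ := 1 / 2) (by
      have : 0 < 1 / L := by positivity
      linarith) (by
      have : 0 < 1 / L := by positivity
      linarith)
  have hfin : ‖riemannZeta (((1 / 2 : ℝ) : ℂ) + T * Complex.I)‖ ≤ M * 3 := by
    have e0 : Real.exp (0 * 0 * (1 / 2 - (1 / 2 - 1 / L))) = 1 := by simp
    rw [e0, mul_one] at key
    refine key.trans (mul_le_mul_of_nonneg_left ?_ hM0)
    have hinv : 1 / L ≤ 1 / 8 := one_div_le_one_div_of_le (by norm_num) hL8
    have hinv0 : 0 < 1 / L := by positivity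
    have e1 : (1 / 2 + 1 / L - (1 / 2 - 1 / L)) ^ 2 ≤ 1 := by nlinarith
    calc Real.exp ((1 / 2 + 1 / L - (1 / 2 - 1 / L)) ^ 2) ≤ Real.exp 1 :=
          Real.exp_le_exp.mpr e1
      _ ≤ 3 := by
          have := Real.exp_one_lt_d9
          linarith
  have hZ : Z T ≤ M * 3 := by
    unfold Z
    have e1 : (1 / 2 : ℂ) = ((1 / 2 : ℝ) : ℂ) := by push_cast; rfl
    rw [e1]
    exact hfin
  have hZ0 : 0 ≤ Z T := norm_nonneg _
  calc Z T ^ 2 ≤ (M * 3) ^ 2 := pow_le_pow_left₀ hZ0 hZ 2
    _ = 9 * M ^ 2 := by ring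
    _ = 9 * K * L * (1 + J) := by rw [hM2]; ring

end Pool.Agent.NBM
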